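import Pool.Agent.Lib.MP_1a91b9_nuX.QW.Defs

/-!
# The periods of a form of the curve at the infinite places

PROOFS. For `t ≠ 0` with `a' = A t ^ 4`, `b' = B t ^ 6` (complex numbers): `CR (Om / t) a' b' := CR.twist CR.base ht` after rewriting
(`cA ℂ = ((CD.A : ℤ) : ℂ)` is `rfl`), see `sc_CR` in MP_1a91b9_nuX/RG/Per.lean.
`perAt_real`: `perAt (cv a b) v = perR ((cv a b).map (embedding_of_isReal hv))` (`dif_pos`), `cv_map`; `a' := embedding_of_isReal hv a : ℝ`, and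
`(a' : ℂ) = v.embedding a` (`InfinitePlace.embedding_of_isReal_apply`); `Per.perR_cv` with `O = Om / t`.
`perAt_complex`: `dif_neg`, `cv_map`, `Per.perC_cv`, `2 * (sd / 2 * x) = sd * x`, `norm_div`, `div_pow`.
`perAt_pos`: by the two cases (`sd_pos`, `Om_ne`).
`prod_pos`: `Finset.prod_pos`.
-/

set_option autoImplicit false

namespace Pool.Agent.Lib.MP_1a91b9_nuX.QW

variable [Pool.Agent.Lib.MP_1a91b9_nuT.CD]

open NumberField Pool.Agent.Lib.MP_1a91b9_nuT
open Pool.Agent.Lib.MP_1a91b9_nuT.Per (cv perAt perR perC)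

variable {N : Type*} [Field N] {a b : N} {v : InfinitePlace N} {t : ℂ}

theorem perAt_real (hv : v.IsReal) (ht : t ≠ 0) (ha : v.embedding a = (CD.A : ℂ) * t ^ 4)
    (hb : v.embedding b = (CD.B : ℂ) * t ^ 6) : 0 < perAt (cv a b) v ∧
    ∃ (k : ℕ) (y : 𝓞 K), (k = 1 ∨ k = 2) ∧ y ≠ 0 ∧
      ((perAt (cv a b) v : ℝ) : ℂ) = k * (Om / t * embK (y : K)) ∧
      (∀ p : ℕ, p.Prime → ¬ (p : ℤ) ∣ CD.tr ^ 2 - 4 * CD.nm →
        ¬ p ∣ Ideal.absNorm (Ideal.span {y})) := by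
  have hC : Per.CR (Om / t) ((InfinitePlace.embedding_of_isReal hv a : ℝ) : ℂ)
      ((InfinitePlace.embedding_of_isReal hv b : ℝ) : ℂ) := by
    rw [InfinitePlace.embedding_of_isReal_apply, InfinitePlace.embedding_of_isReal_apply, ha, hb]
    exact Per.CR.twist Per.CR.base ht
  have h1 : perAt (cv a b) v = perR (cv (InfinitePlace.embedding_of_isReal hv a)
      (InfinitePlace.embedding_of_isReal hv b)) := by
    rw [perAt, dif_pos hv, Per.cv_map]
  rw [h1]
  exact Per.perR_cv hC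

theorem perAt_complex (hv : ¬ v.IsReal) (ht : t ≠ 0) (ha : v.embedding a = (CD.A : ℂ) * t ^ 4)
    (hb : v.embedding b = (CD.B : ℂ) * t ^ 6) :
    perAt (cv a b) v = sd * (‖Om‖ ^ 2 / ‖t‖ ^ 2) := by
  have hC : Per.CR (Om / t) ((CD.A : ℂ) * t ^ 4) ((CD.B : ℂ) * t ^ 6) :=
    Per.CR.twist Per.CR.base ht
  rw [perAt, dif_neg hv, Per.cv_map, ha, hb, Per.perC_cv hC, norm_div, div_pow]
  ring

theorem perAt_pos (h : TwC a b) (v : InfinitePlace N) : 0 < perAt (cv a b) v := by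
  obtain ⟨t, ht, ha, hb⟩ := h v.embedding
  by_cases hv : v.IsReal
  · exact (perAt_real hv ht ha hb).1
  · rw [perAt_complex hv ht ha hb]
    exact mul_pos sd_pos (div_pos (pow_pos (norm_pos_iff.2 Om_ne) 2)
      (pow_pos (norm_pos_iff.2 ht) 2))

theorem prod_pos [NumberField N] (h : TwC a b) :
    0 < ∏ v : InfinitePlace N, perAt (cv a b) v := by
  exact Finset.prod_pos fun v _ => perAt_pos h v

end Pool.Agent.Lib.MP_1a91b9_nuX.QW
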