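import Pool.Agent.Lib.MP_1a91b9_nuX.QW.Defs

/-!
# Extensions of embeddings in the field of complex numbers

PROOFS.
(1) `exists_lift`: give `ℂ` the structure of an `N`-algebra by `σ` (`let _ : Algebra N ℂ := (σ : N →+* ℂ).toAlgebra`), it
is a tower `K N ℂ` (`IsScalarTower.of_algebraMap_eq`, `σ.commutes`), `L / N` is algebraic
(`Module.Finite.of_restrictScalars_finite ℚ N L`), `e₀ : L →ₐ[N] ℂ := IsAlgClosed.lift`, `e := e₀.restrictScalars K`.
(2) `exists_hom`: the same without `K`: `φ : N →+* ℂ` extends to `φ' : L →+* ℂ`.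
(3) `exists_gal`: with `ℂ` an `N`-algebra by the restriction of `e'` to `N` and an `L`-algebra by `e'`
(`IsScalarTower N L ℂ`), `e` is an `N`-algebra homomorphism `e₁ : L →ₐ[N] ℂ`; `L / N` is normal. Take
`h₀ := AlgHom.restrictNormal e₁ L : L →ₐ[N] L` (check the Mathlib statements `AlgHom.restrictNormal`,
`AlgHom.restrictNormal_commutes`, `AlgHom.restrictNormal'`), so `e' (h₀ y) = e y`; it is an automorphism
(`AlgEquiv.ofBijective`, `AlgHom.normal_bijective` or `Algebra.IsAlgebraic.bijective_of_..` for the finite extension `L / N`).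
(4) `twC_of`: for `φ : N →+* ℂ`, take `φ'` by (2) and `t := φ' u`: `φ a = φ' (algebraMap N L a) = A (φ' u) ^ 4`.
(5) `exists_delta`: `δ := (4 a ^ 3 + 27 b ^ 2) / (4 A ^ 3 + 27 B ^ 2)`, `CD.disc : 4 * CD.A ^ 3 + 27 * CD.B ^ 2 ≠ 0`.
For `φ a = A t ^ 4`, `φ b = B t ^ 6`: `φ (4 a³ + 27 b²) = t ^ 12 (4 A³ + 27 B²)`, so `φ δ = t ^ 12`; `δ ≠ 0` (take any `φ`,
there is one: `(inferInstance : Nonempty (N →+* ℂ))`).
-/

set_option autoImplicit false

namespace Pool.Agent.Lib.MP_1a91b9_nuX.QW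

variable [Pool.Agent.Lib.MP_1a91b9_nuT.CD]

open NumberField IsDedekindDomain WeierstrassCurve Pool.Agent.Lib.MP_1a91b9_nuT

universe u

omit [Pool.Agent.Lib.MP_1a91b9_nuT.CD] in
private theorem emb_hom {N L : Type*} [Field N] [NumberField N] [Field L] [NumberField L]
    [Algebra N L] (φ : N →+* ℂ) : ∃ φ' : L →+* ℂ, ∀ x : N, φ' (algebraMap N L x) = φ x := by
  let _ : Algebra N ℂ := φ.toAlgebra
  have : Module.Finite N L := Module.Finite.of_restrictScalars_finite ℚ N L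
  have : Algebra.IsAlgebraic N L := Algebra.IsAlgebraic.of_finite N L
  exact ⟨(IsAlgClosed.lift : L →ₐ[N] ℂ).toRingHom, fun x =>
    (IsAlgClosed.lift : L →ₐ[N] ℂ).commutes x⟩

omit [Pool.Agent.Lib.MP_1a91b9_nuT.CD] in
private theorem emb_gal {N L : Type*} [Field N] [Field L] [Algebra N L] [Normal N L]
    (e e' : L →+* ℂ) (h : ∀ x : N, e (algebraMap N L x) = e' (algebraMap N L x)) :
    ∃ s : Gal(L/N), ∀ y : L, e y = e' (s y) := by
  let _ : Algebra N ℂ := (e'.comp (algebraMap N L)).toAlgebra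
  let _ : Algebra L ℂ := e'.toAlgebra
  have : IsScalarTower N L ℂ := IsScalarTower.of_algebraMap_eq (fun x => rfl)
  let e1 : L →ₐ[N] ℂ := { e with commutes' := h }
  exact ⟨AlgHom.restrictNormal' e1 L, fun y => (AlgHom.restrictNormal_commutes e1 L y).symm⟩

section
variable {N L : Type u} [Field N] [NumberField N] [Algebra K N] [Field L] [NumberField L]
  [Algebra K L] [Algebra N L] [IsScalarTower K N L]

theorem exists_lift (σ : N →ₐ[K] ℂ) : ∃ e : L →ₐ[K] ℂ, ∀ x : N, e (algebraMap N L x) = σ x := by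
  obtain ⟨φ', h⟩ := emb_hom (L := L) (σ : N →+* ℂ)
  have hc : ∀ x : K, φ' (algebraMap K L x) = algebraMap K ℂ x := by
    intro x
    rw [IsScalarTower.algebraMap_apply K N L, h]
    exact σ.commutes x
  exact ⟨{ φ' with commutes' := hc }, h⟩


theorem exists_gal [IsGalois N L] (e e' : L →ₐ[K] ℂ)
    (h : ∀ x : N, e (algebraMap N L x) = e' (algebraMap N L x)) :
    ∃ s : Gal(L/N), ∀ y : L, e y = e' (s y) := by
  exact emb_gal (e : L →+* ℂ) (e' : L →+* ℂ) h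


end

section
variable {N L : Type*} [Field N] [NumberField N] [Field L] [NumberField L] [Algebra N L]

omit [Pool.Agent.Lib.MP_1a91b9_nuT.CD] in
theorem exists_hom (φ : N →+* ℂ) : ∃ φ' : L →+* ℂ, ∀ x : N, φ' (algebraMap N L x) = φ x := by
  exact emb_hom φ


theorem twC_of {a b : N} {u : L} (hu : u ≠ 0) (ha : algebraMap N L a = (CD.A : L) * u ^ 4)
    (hb : algebraMap N L b = (CD.B : L) * u ^ 6) : TwC a b := by
  intro φ
  obtain ⟨φ', h⟩ := emb_hom (L := L) φ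
  refine ⟨φ' u, fun h0 => hu ((map_eq_zero φ').1 h0), ?_, ?_⟩
  · rw [← h, ha, map_mul, map_pow, map_intCast]
  · rw [← h, hb, map_mul, map_pow, map_intCast]


theorem exists_delta {a b : N} (h : TwC a b) : ∃ δ : N, δ ≠ 0 ∧
    4 * a ^ 3 + 27 * b ^ 2 = δ * ((4 * CD.A ^ 3 + 27 * CD.B ^ 2 : ℤ) : N) ∧
    ∀ (φ : N →+* ℂ) (t : ℂ), φ a = (CD.A : ℂ) * t ^ 4 → φ b = (CD.B : ℂ) * t ^ 6 →
      φ δ = t ^ 12 := by
  have hd : ((4 * CD.A ^ 3 + 27 * CD.B ^ 2 : ℤ) : N) ≠ 0 := by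
    rw [Ne, Int.cast_eq_zero]
    exact CD.disc
  have hdC : ((4 * CD.A ^ 3 + 27 * CD.B ^ 2 : ℤ) : ℂ) ≠ 0 := by
    rw [Ne, Int.cast_eq_zero]
    exact CD.disc
  have key : ∀ (φ : N →+* ℂ) (t : ℂ), φ a = (CD.A : ℂ) * t ^ 4 → φ b = (CD.B : ℂ) * t ^ 6 →
      φ ((4 * a ^ 3 + 27 * b ^ 2) / ((4 * CD.A ^ 3 + 27 * CD.B ^ 2 : ℤ) : N)) = t ^ 12 := by
    intro φ t h1 h2
    have e4 : φ (4 : N) = 4 := map_ofNat φ 4
    have e27 : φ (27 : N) = 27 := map_ofNat φ 27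
    rw [map_div₀, map_intCast, div_eq_iff hdC, map_add, map_mul, map_mul, map_pow, map_pow, h1, h2,
      e4, e27]
    push_cast
    ring
  refine ⟨(4 * a ^ 3 + 27 * b ^ 2) / ((4 * CD.A ^ 3 + 27 * CD.B ^ 2 : ℤ) : N), fun h0 => ?_, ?_,
    key⟩
  · obtain ⟨φ⟩ : Nonempty (N →+* ℂ) := inferInstance
    obtain ⟨t, ht, h1, h2⟩ := h φ
    have h3 := key φ t h1 h2
    rw [h0, map_zero] at h3
    exact pow_ne_zero 12 ht h3.symm
  · rw [div_mul_cancel₀ _ hd]


end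

end Pool.Agent.Lib.MP_1a91b9_nuX.QW
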