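import Pool.Agent.Lib.MP_1a91b9_nuX.QW.Fib
import Pool.Agent.Lib.MP_1a91b9_nuX.QW.PerA
import Pool.Agent.Lib.MP_1a91b9_nuT.PL.Val
import Pool.Agent.Lib.MP_1a91b9_nuT.P.Lvalue

/-!
# The value of the product of the archimedean periods of a form of the curve

PROOF. `A` is above `ℓ`, `ℓ` does not divide `CD.bad` (a multiple of `6 (4 A³ + 27 B²) nm (tr² - 4 nm)`, `CD.bad_dvd`). See the proof of `period_cv` of
MP_1a91b9_nuX/PL/NmC.lean: copy the private lemmas `NmC_cop`, `NmC_embK`, `NmC_sd` with names starting with `peV_`.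
(1) real `v`, `t` with `v.embedding a = A t ^ 4`, ..: `perAt_real`: `perAt = k * (Om / t * embK y)`, `A.valuation k = 1` (`k = 1, 2`), `A.valuation (embK y) = 1`
(`ℓ ∤ absNorm (span {y})`), so `A.valuation (perAt (cv a b) v) * A.valuation t = A.valuation Om`, `A.valuation (perAt (cv a b) v) ^ 12 * A.valuation (v.embedding δ) =
A.valuation Om ^ 12` (`v.embedding δ = t ^ 12`, `hδ`).
(2) complex `v`: `perAt = sd * (‖Om‖ ^ 2 / ‖t‖ ^ 2)`; `‖Om‖ ^ 2 = Om * conj Om`, `‖t‖ ^ 2 = t * conj t` (as complex numbers: `Complex.mul_conj`,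
`Complex.normSq_eq_norm_sq`), `A.valuation sd = 1`, `A.valuation (conj Om) = A.valuation Om` (`Per.val_conj_Om`). So
`A.valuation (perAt (cv a b) v) ^ 12 * (A.valuation (v.embedding δ) * A.valuation (ComplexEmbedding.conjugate v.embedding δ)) = A.valuation Om ^ 24`
(`conjugate φ x = conj (φ x)`: `ComplexEmbedding.conjugate_coe_eq`, `map_pow`).
(3) the product over all `v` (`Finset.prod_congr`, `Finset.prod_mul_distrib`): `f φ := A.valuation (φ δ)`, `prod_fib f` and `prod_norm δ`, `map_prod`: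
`∏ v, (if v.IsReal then f v.embedding else f v.embedding * f (conjugate v.embedding)) = A.valuation (norm δ)`. The right sides: `∏ v, A.valuation Om ^ (12 * mult v)`
with `mult v = 1, 2` (`InfinitePlace.mult`), `Finset.prod_pow_eq_pow_sum`, `InfinitePlace.sum_mult_eq` (`∑ v, mult v = finrank ℚ N`), `Finset.mul_sum`.
-/

set_option autoImplicit false

namespace Pool.Agent.Lib.MP_1a91b9_nuX.QW

variable [Pool.Agent.Lib.MP_1a91b9_nuT.CD]

open NumberField IsDedekindDomain WeierstrassCurve Pool.Agent.Lib.MP_1a91b9_nuT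
open Pool.Agent.Lib.MP_1a91b9_nuT.PL (Ab)
open Pool.Agent.Lib.MP_1a91b9_nuT.Per (cv perAt perR perC)

section peV

variable {ℓ : ℕ} {A : ValuationSubring ℂ}

omit [Pool.Agent.Lib.MP_1a91b9_nuT.CD] in
private theorem peV_cop (hℓ : ℓ.Prime) {n : ℤ} (h : ¬ (ℓ : ℤ) ∣ n) : IsCoprime n (ℓ : ℤ) :=
  ((Nat.prime_iff_prime_int.1 hℓ).coprime_iff_not_dvd.2 h).symm

private theorem peV_embK (hA : Ab ℓ A) {y : 𝓞 K}
    (h : (Ideal.absNorm (Ideal.span {y})).Coprime ℓ) : A.valuation (embK (y : K)) = 1 := by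
  have h1 : IsIntegral ℤ (embK (y : K)) :=
    (RingOfIntegers.isIntegral_coe y).map (embK.restrictScalars ℤ)
  have h2 : IsIntegral ℤ (embK ((cj y : 𝓞 K) : K)) :=
    (RingOfIntegers.isIntegral_coe (cj y)).map (embK.restrictScalars ℤ)
  refine Pool.Agent.Lib.MP_1a91b9_nuT.S4.val_eq_one_of_mul A
    (Pool.Agent.Lib.MP_1a91b9_nuT.S4.val_integral A h1)
    (Pool.Agent.Lib.MP_1a91b9_nuT.S4.val_integral A h2) ?_
  have e : embK (y : K) * embK ((cj y : 𝓞 K) : K) =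
      ((Ideal.absNorm (Ideal.span {y}) : ℕ) : ℂ) := by
    have h3 := congrArg (fun t : 𝓞 K => embK (algebraMap (𝓞 K) K t)) (mul_cj y)
    simp only [map_mul, map_natCast] at h3
    exact h3
  rw [e]
  exact hA.nat h

private theorem peV_sd (hA : Ab ℓ A) (h : IsCoprime (CD.tr ^ 2 - 4 * CD.nm) (ℓ : ℤ)) :
    A.valuation (sd : ℂ) = 1 := by
  have h1 := congrArg A.valuation sdC_sq
  have h2 : IsCoprime (4 * CD.nm - CD.tr ^ 2) (ℓ : ℤ) := by
    have := h.neg_left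
    rwa [neg_sub] at this
  rw [map_pow, hA.int h2] at h1
  exact (pow_eq_one_iff_of_nonneg zero_le (by norm_num)).1 h1

private theorem peV_bad (hg : ¬ (ℓ : ℤ) ∣ CD.bad) :
    ¬ (ℓ : ℤ) ∣ CD.tr ^ 2 - 4 * CD.nm ∧ ¬ (ℓ : ℤ) ∣ 2 := by
  have hbad : ¬ (ℓ : ℤ) ∣ 6 * (4 * CD.A ^ 3 + 27 * CD.B ^ 2) * CD.nm * (CD.tr ^ 2 - 4 * CD.nm) :=
    fun h => hg (h.trans CD.bad_dvd)
  refine ⟨fun h => hbad (h.mul_left _), fun h => hbad ?_⟩
  have h6 : (ℓ : ℤ) ∣ 6 := h.trans ⟨3, by norm_num⟩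
  exact ((h6.mul_right _).mul_right _).mul_right _

end peV

section
variable {N : Type*} [Field N] {a b δ : N} {v : InfinitePlace N} {t : ℂ} {ℓ : ℕ}
  {A : ValuationSubring ℂ}

theorem val_real (hℓ : ℓ.Prime) (hg : ¬ (ℓ : ℤ) ∣ CD.bad) (hA : Ab ℓ A) (hv : v.IsReal)
    (ht : t ≠ 0) (ha : v.embedding a = (CD.A : ℂ) * t ^ 4) (hb : v.embedding b = (CD.B : ℂ) * t ^ 6)
    (hδ : v.embedding δ = t ^ 12) :
    A.valuation ((perAt (cv a b) v : ℝ) : ℂ) ^ 12 * A.valuation (v.embedding δ) =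
      A.valuation Om ^ 12 := by
  obtain ⟨hdd, h2⟩ := peV_bad hg
  obtain ⟨-, k, y, hk, hy, e2, hyn⟩ := perAt_real hv ht ha hb
  have hvk : A.valuation (k : ℂ) = 1 := by
    rcases hk with rfl | rfl
    · rw [Nat.cast_one, map_one]
    · refine hA.nat ?_
      rw [Nat.coprime_comm, Nat.Prime.coprime_iff_not_dvd hℓ]
      intro h
      exact h2 (by exact_mod_cast h)
  have hvy : A.valuation (embK (y : K)) = 1 := by
    refine peV_embK hA ?_
    rw [Nat.coprime_comm, Nat.Prime.coprime_iff_not_dvd hℓ]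
    exact hyn ℓ hℓ hdd
  have hvt : A.valuation t ≠ 0 := (map_ne_zero _).2 ht
  rw [e2, map_mul, map_mul, hvk, hvy, one_mul, mul_one, map_div₀, hδ, map_pow, div_pow,
    div_mul_cancel₀ _ (pow_ne_zero _ hvt)]

theorem val_complex (hℓ : ℓ.Prime) (hg : ¬ (ℓ : ℤ) ∣ CD.bad) (hA : Ab ℓ A) (hv : ¬ v.IsReal)
    (ht : t ≠ 0) (ha : v.embedding a = (CD.A : ℂ) * t ^ 4) (hb : v.embedding b = (CD.B : ℂ) * t ^ 6)
    (hδ : v.embedding δ = t ^ 12) :
    A.valuation ((perAt (cv a b) v : ℝ) : ℂ) ^ 12 * (A.valuation (v.embedding δ) *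
      A.valuation (ComplexEmbedding.conjugate v.embedding δ)) = A.valuation Om ^ 24 := by
  obtain ⟨hdd, -⟩ := peV_bad hg
  have hvs := peV_sd hA (peV_cop hℓ hdd)
  have e1 : ((perAt (cv a b) v : ℝ) : ℂ) =
      (sd : ℂ) * (Om * (starRingEnd ℂ) Om / (t * (starRingEnd ℂ) t)) := by
    rw [perAt_complex hv ht ha hb, Complex.mul_conj, Complex.mul_conj, Complex.normSq_eq_norm_sq,
      Complex.normSq_eq_norm_sq, Complex.ofReal_mul, Complex.ofReal_div]
  have e2 : ComplexEmbedding.conjugate v.embedding δ = ((starRingEnd ℂ) t) ^ 12 := by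
    rw [ComplexEmbedding.conjugate_coe_eq, hδ, map_pow]
  have hvt : A.valuation t ≠ 0 := (map_ne_zero _).2 ht
  have hvt2 : A.valuation ((starRingEnd ℂ) t) ≠ 0 := (map_ne_zero _).2 ((map_ne_zero _).2 ht)
  have e3 : A.valuation ((perAt (cv a b) v : ℝ) : ℂ) *
      (A.valuation t * A.valuation ((starRingEnd ℂ) t)) = A.valuation Om ^ 2 := by
    rw [e1, map_mul, hvs, one_mul, map_div₀, map_mul, map_mul,
      Pool.Agent.Lib.MP_1a91b9_nuT.Per.val_conj_Om, div_mul_cancel₀ _ (mul_ne_zero hvt hvt2),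
      pow_two]
  rw [e2, hδ, map_pow, map_pow, ← mul_pow, ← mul_pow, e3, ← pow_mul]

end

theorem val_prod {N : Type*} [Field N] [NumberField N] {a b δ : N} (h : TwC a b)
    (hδ : ∀ (φ : N →+* ℂ) (t : ℂ), φ a = (CD.A : ℂ) * t ^ 4 → φ b = (CD.B : ℂ) * t ^ 6 →
      φ δ = t ^ 12) {ℓ : ℕ} (hℓ : ℓ.Prime) (hg : ¬ (ℓ : ℤ) ∣ CD.bad) {A : ValuationSubring ℂ}
    (hA : Ab ℓ A) :
    A.valuation ((∏ v : InfinitePlace N, perAt (cv a b) v : ℝ) : ℂ) ^ 12 *
      A.valuation ((Algebra.norm ℚ δ : ℚ) : ℂ) = A.valuation Om ^ (12 * Module.finrank ℚ N) := by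
  classical
  have h1 := prod_fib (N := N) (fun φ : N →+* ℂ => A.valuation (φ δ))
  have h2 : A.valuation ((Algebra.norm ℚ δ : ℚ) : ℂ) = ∏ φ : N →+* ℂ, A.valuation (φ δ) := by
    rw [← prod_norm δ, map_prod]
  rw [h2, h1, Complex.ofReal_prod, map_prod, ← Finset.prod_pow, ← Finset.prod_mul_distrib]
  have h3 : ∀ v : InfinitePlace N, A.valuation ((perAt (cv a b) v : ℝ) : ℂ) ^ 12 *
      (if v.IsReal then A.valuation (v.embedding δ) else A.valuation (v.embedding δ) *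
        A.valuation (ComplexEmbedding.conjugate v.embedding δ)) =
      A.valuation Om ^ (12 * v.mult) := by
    intro v
    obtain ⟨t, ht, ha, hb⟩ := h v.embedding
    have hd := hδ v.embedding t ha hb
    by_cases hv : v.IsReal
    · rw [if_pos hv, val_real hℓ hg hA hv ht ha hb hd, InfinitePlace.mult, if_pos hv]
    · rw [if_neg hv, val_complex hℓ hg hA hv ht ha hb hd, InfinitePlace.mult, if_neg hv]
  rw [Finset.prod_congr rfl (fun v _ => h3 v), Finset.prod_pow_eq_pow_sum, ← Finset.mul_sum,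
    InfinitePlace.sum_mult_eq]

end Pool.Agent.Lib.MP_1a91b9_nuX.QW
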