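import Pool.Agent.Lib.MP_1a91b9_nuX.QW.NfA
import Pool.Agent.Lib.MP_1a91b9_nuX.QW.PeV
import Pool.Agent.Lib.MP_1a91b9_nuX.QW.Emb

/-!
# The period of a form of the curve with good reduction above `ℓ`

PROOF. `δ` of `exists_delta h`: `δ ≠ 0`, `4 a³ + 27 b² = δ d₀`, `d₀ = 4 A³ + 27 B²` an integer prime to `ℓ` (divides `CD.bad`). `(cv a b).Δ = -16 (4 a³ + 27 b²)`
(unfold, see `cvZ_Δ` in MP_1a91b9_nuX/PL/NmC.lean) `= δ * ((-16 d₀ : ℤ) : N) ≠ 0`. `(D • W).Δ = D.u⁻¹ ^ 12 W.Δ` (`variableChange_Δ`), so `W.Δ ≠ 0` and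
`period W = period (D • W) = period (cv a b)` (`MP_1a91b9_nuI.period_vc`) `= (∏ᶠ normFactor (cv a b) v) * ∏ perAt (cv a b) v`; it is not zero (`nf_ne`, `prod_pos`).
`norm (cv a b).Δ = norm δ * (-16 d₀) ^ n` (`Algebra.norm_algebraMap`), `A.valuation` of `-16 d₀` is `1` (`Ab.int`, `ℓ ∤ 2`, `ℓ ∤ d₀`), so by `norm_fin` and `val_prod`:
`A.valuation (period W) ^ 12 = A.valuation (norm δ) * A.valuation (∏ perAt) ^ 12 = A.valuation Om ^ (12 n) = (A.valuation Om ^ n) ^ 12`; `pow_left_inj₀`.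
-/

set_option autoImplicit false

namespace Pool.Agent.Lib.MP_1a91b9_nuX.QW

variable [Pool.Agent.Lib.MP_1a91b9_nuT.CD]

open NumberField IsDedekindDomain WeierstrassCurve Pool.Agent.Lib.MP_1a91b9_nuT
open Pool.Agent.Lib.MP_1a91b9_nuT.PL (Ab)
open Pool.Agent.Lib.MP_1a91b9_nuT.Per (cv perAt)
open Pool.Agent.Lib.MP_1a91b9_nuT.S9 (period)

omit [Pool.Agent.Lib.MP_1a91b9_nuT.CD] in
private theorem pe_disc {N : Type} [Field N] (a b : N) :
    (cv a b).Δ = -16 * (4 * a ^ 3 + 27 * b ^ 2) := by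
  simp only [cv, WeierstrassCurve.Δ, WeierstrassCurve.b₂, WeierstrassCurve.b₄, WeierstrassCurve.b₆,
    WeierstrassCurve.b₈]
  ring

private theorem pe_cop {ℓ : ℕ} (hℓ : ℓ.Prime) (hg : ¬ (ℓ : ℤ) ∣ CD.bad) :
    IsCoprime (-16 * (4 * CD.A ^ 3 + 27 * CD.B ^ 2) : ℤ) (ℓ : ℤ) := by
  have hp : Prime (ℓ : ℤ) := Nat.prime_iff_prime_int.1 hℓ
  refine ((Prime.irreducible hp).coprime_iff_not_dvd.2 fun h => hg ?_).symm
  refine dvd_trans ?_ CD.bad_dvd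
  have h2 : (ℓ : ℤ) ∣ 6 * (4 * CD.A ^ 3 + 27 * CD.B ^ 2) := by
    rcases hp.dvd_mul.1 h with h1 | h1
    · have h3 : (ℓ : ℤ) ∣ 2 := by
        have h4 : (ℓ : ℤ) ∣ 2 ^ 4 := by
          have h5 : (2 : ℤ) ^ 4 = -(-16) := by norm_num
          rw [h5]
          exact (dvd_neg).2 h1
        exact hp.dvd_of_dvd_pow h4
      exact (h3.trans ⟨3, by norm_num⟩).mul_right _
    · exact h1.mul_left _
  exact (h2.mul_right _).mul_right _

theorem period_W {N : Type} [Field N] [NumberField N] {a b : N} (h : TwC a b)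
    {W : WeierstrassCurve N} {D : VariableChange N} (hD : D • W = cv a b) {ℓ : ℕ} (hℓ : ℓ.Prime)
    (hg : ¬ (ℓ : ℤ) ∣ CD.bad)
    (hgood : ∀ v : HeightOneSpectrum (𝓞 N), (ℓ : 𝓞 N) ∈ v.asIdeal → GdA a b v) :
    period W ≠ 0 ∧ ∀ A : ValuationSubring ℂ, Ab ℓ A →
      A.valuation ((period W : ℝ) : ℂ) = A.valuation Om ^ Module.finrank ℚ N := by
  obtain ⟨δ, hδ0, hδe, hδ⟩ := exists_delta h
  have hcop := pe_cop hℓ hg
  obtain ⟨c, hc⟩ : ∃ c : ℤ, c = -16 * (4 * CD.A ^ 3 + 27 * CD.B ^ 2) := ⟨_, rfl⟩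
  rw [← hc] at hcop
  have hc0 : c ≠ 0 := by
    intro h0
    rw [h0, isCoprime_zero_left, Int.isUnit_iff] at hcop
    have := hℓ.two_le
    omega
  have hΔ : (cv a b).Δ = δ * ((c : ℤ) : N) := by
    rw [pe_disc, hδe, hc]
    push_cast
    ring
  have hΔ0 : (cv a b).Δ ≠ 0 := by
    rw [hΔ]
    exact mul_ne_zero hδ0 (Int.cast_ne_zero.2 hc0)
  have hWΔ : W.Δ ≠ 0 := by
    intro h0
    rw [← hD, variableChange_Δ, h0, mul_zero] at hΔ0
    exact hΔ0 rfl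
  have hper : period W = (∏ᶠ v : HeightOneSpectrum (𝓞 N),
      Pool.Agent.Lib.MP_1a91b9_nuT.S9.normFactor (cv a b) v) *
        ∏ v : InfinitePlace N, perAt (cv a b) v := by
    rw [← Pool.Agent.Lib.MP_1a91b9_nuI.period_vc W hWΔ D, hD]
    rfl
  have hn : Algebra.norm ℚ (cv a b).Δ = Algebra.norm ℚ δ * (c : ℚ) ^ Module.finrank ℚ N := by
    rw [hΔ, map_mul]
    have h1 : ((c : ℤ) : N) = algebraMap ℚ N (c : ℚ) := (map_intCast (algebraMap ℚ N) c).symm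
    rw [h1, Algebra.norm_algebraMap]
  refine ⟨?_, fun A hA => ?_⟩
  · rw [hper]
    exact mul_ne_zero (nf_ne (cv a b)) (prod_pos h).ne'
  · have h1 := norm_fin hΔ0 hℓ hgood hA
    have h2 := val_prod h hδ hℓ hg hA
    rw [hn] at h1
    have h3 : A.valuation ((Algebra.norm ℚ δ * (c : ℚ) ^ Module.finrank ℚ N : ℚ) : ℂ) =
        A.valuation ((Algebra.norm ℚ δ : ℚ) : ℂ) := by
      rw [Rat.cast_mul, Rat.cast_pow, Rat.cast_intCast, map_mul, map_pow, hA.int hcop, one_pow,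
        mul_one]
    rw [h3] at h1
    have h4 : A.valuation ((period W : ℝ) : ℂ) ^ 12 =
        (A.valuation Om ^ Module.finrank ℚ N) ^ 12 := by
      rw [hper, Complex.ofReal_mul, map_mul, mul_pow, h1, mul_comm, h2, mul_comm 12, pow_mul]
    exact (pow_left_inj₀ zero_le zero_le (by norm_num)).1 h4

end Pool.Agent.Lib.MP_1a91b9_nuX.QW
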