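import Pool.Agent.Lib.MP_1a91b9_nuT.Rq.Ar
import Pool.Agent.Lib.MP_1a91b9_nuT.P.Ratio

/-!
# Arithmetic with the periods

PROOFS. `ar_K`: copy the proof of `ar_real` of MP_1a91b9_nuT/Rq/Ar.lean with `R : ℂ` and the final step
`refine ⟨κ * z * (xI / _) ^ r2 / (y ^ r1 * x ^ r2), ?_⟩` instead of `real_K`.
`ar_N`: as the private `Fin_arith` of MP_1a91b9_nuX/RG/Fin.lean, with `ar_K` instead of `ar_real`.
-/

set_option autoImplicit false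

namespace Pool.Agent.Lib.MP_1a91b9_nuX.QW

variable [Pool.Agent.Lib.MP_1a91b9_nuT.CD]

open NumberField Pool.Agent.Lib.MP_1a91b9_nuT
open Pool.Agent.Lib.MP_1a91b9_nuT.Per (perAt perR)

theorem ar_K (r1 r2 : ℕ) (κ : K) (d : ℂ) (q : ℚ) (D : ℤ)
    (hs : (D : ℝ) = (-1) ^ r2 * |(D : ℝ)|) (hd : d ^ 2 = ((q ^ 2 * (D : ℚ) : ℚ) : ℂ))
    {P : ℝ} {y : K} (hP : P ≠ 0) (hy : (P : ℂ) = Om * embK y) (R : ℂ)
    (h : Om ^ (r1 + 2 * r2) * d * embK κ * ((Real.sqrt |(D : ℝ)| : ℝ) : ℂ) =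
      R * ((P ^ r1 * (sd * ‖Om‖ ^ 2) ^ r2 : ℝ) : ℂ)) :
    ∃ z : K, embK z = R := by
  obtain ⟨xI, hxI⟩ := exists_I_sd
  obtain ⟨x, hx0, hx⟩ := Rq.ar_normSq hP hy
  have hy0 : embK y ≠ 0 := by
    intro h0
    rw [h0, mul_zero] at hy
    exact hP (Complex.ofReal_eq_zero.1 hy)
  have hx0' : embK x ≠ 0 := (map_ne_zero_iff _ embK.injective).2 hx0
  have hA : ((Real.sqrt |(D : ℝ)| : ℝ) : ℂ) ^ 2 = ((|(D : ℝ)| : ℝ) : ℂ) := by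
    rw [← Complex.ofReal_pow, Real.sq_sqrt (abs_nonneg _)]
  have hDC : (D : ℂ) = (-1) ^ r2 * ((|(D : ℝ)| : ℝ) : ℂ) := by
    have h1 := congrArg (fun t : ℝ => (t : ℂ)) hs
    simp only [Complex.ofReal_mul, Complex.ofReal_pow, Complex.ofReal_neg, Complex.ofReal_one,
      Complex.ofReal_intCast] at h1
    exact h1
  have hd' : d ^ 2 = (q : ℂ) ^ 2 * (D : ℂ) := by
    rw [hd]
    push_cast
    ring
  have hsq : (d * ((Real.sqrt |(D : ℝ)| : ℝ) : ℂ)) ^ 2 =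
      ((q : ℂ) * ((|(D : ℝ)| : ℝ) : ℂ) * Complex.I ^ r2) ^ 2 := by
    rw [mul_pow, hA, hd', hDC, mul_pow, mul_pow, ← pow_mul, mul_comm r2 2, pow_mul, Complex.I_sq]
    ring
  obtain ⟨ε, hε⟩ : ∃ ε : ℚ, d * ((Real.sqrt |(D : ℝ)| : ℝ) : ℂ) =
      (ε : ℂ) * ((q : ℂ) * ((|(D : ℝ)| : ℝ) : ℂ) * Complex.I ^ r2) := by
    rcases sq_eq_sq_iff_eq_or_eq_neg.1 hsq with h1 | h1
    · exact ⟨1, by rw [h1]; push_cast; ring⟩
    · exact ⟨-1, by rw [h1]; push_cast; ring⟩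
  have hDQ : ((|(D : ℝ)| : ℝ) : ℂ) = (((|D| : ℤ) : ℚ) : ℂ) := by
    rw [← Int.cast_abs, Complex.ofReal_intCast, Rat.cast_intCast]
  obtain ⟨z, hz⟩ : ∃ z : K, z = algebraMap ℚ K (ε * (q * ((|D| : ℤ) : ℚ))) := ⟨_, rfl⟩
  have hzE : embK z = (ε : ℂ) * ((q : ℂ) * ((|(D : ℝ)| : ℝ) : ℂ)) := by
    rw [hz, hDQ, eq_ratCast, map_ratCast]
    push_cast
    rfl
  have hOm : Om ^ (r1 + 2 * r2) ≠ 0 := pow_ne_zero _ Om_ne
  have hdn : ((4 * CD.nm - CD.tr ^ 2 : ℤ) : ℂ) ≠ 0 := by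
    rw [← sdC_sq]
    exact pow_ne_zero 2 sdC_ne
  refine ⟨κ * z * (xI / ((4 * CD.nm - CD.tr ^ 2 : ℤ) : K)) ^ r2 / (y ^ r1 * x ^ r2), ?_⟩
  rw [map_div₀, map_mul, map_mul, map_mul, map_pow, map_pow, map_pow, map_div₀, map_intCast, hxI,
    hzE, div_eq_iff (mul_ne_zero (pow_ne_zero _ hy0) (pow_ne_zero _ hx0')), ← sdC_sq]
  have e1 : Complex.I * (sd : ℂ) / (sd : ℂ) ^ 2 = Complex.I / (sd : ℂ) := by
    have := sdC_ne
    field_simp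
  rw [e1, div_pow]
  apply mul_left_cancel₀ hOm
  have h2 : Om ^ (r1 + 2 * r2) * (d * ((Real.sqrt |(D : ℝ)| : ℝ) : ℂ)) * embK κ =
      R * ((Om * embK y) ^ r1 * ((sd : ℂ) * (Om ^ 2 * embK x)) ^ r2) := by
    rw [← hx, ← hy]
    push_cast at h ⊢
    linear_combination h
  rw [hε] at h2
  have hs2 : (sd : ℂ) ^ r2 ≠ 0 := pow_ne_zero _ sdC_ne
  rw [← mul_div_assoc, ← mul_div_assoc, div_eq_iff hs2]
  have e2 : ((sd : ℂ) * (Om ^ 2 * embK x)) ^ r2 = (sd : ℂ) ^ r2 * (Om ^ (2 * r2) * embK x ^ r2) := by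
    rw [mul_pow, mul_pow, ← pow_mul]
  rw [e2, mul_pow] at h2
  rw [pow_add] at h2 ⊢
  linear_combination h2

theorem ar_N {N : Type*} [Field N] [NumberField N] (κ : K) (d : ℂ) (q : ℚ)
    (hq : d ^ 2 = ((q ^ 2 * (discr N : ℚ) : ℚ) : ℂ)) (R : ℂ)
    (h : Om ^ Module.finrank ℚ N * d * embK κ * ((Real.sqrt |(discr N : ℝ)| : ℝ) : ℂ) =
      R * ((∏ v : InfinitePlace N, perAt (E N) v : ℝ) : ℂ)) :
    ∃ z : K, embK z = R := by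
  have hrk := InfinitePlace.card_add_two_mul_card_eq_rank N
  have hsgn : (discr N : ℝ) = (-1) ^ InfinitePlace.nrComplexPlaces N * |(discr N : ℝ)| := by
    have h1 := sign_discr (K := N)
    have h2 := Int.sign_mul_abs (discr N)
    rw [h1] at h2
    have h3 : (((-1) ^ InfinitePlace.nrComplexPlaces N * |discr N| : ℤ) : ℝ) =
        ((discr N : ℤ) : ℝ) := by rw [h2]
    push_cast at h3
    exact h3.symm
  obtain ⟨hP, y, -, hy⟩ := Per.perR_E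
  rw [← hrk, Per.prod_perAt] at h
  exact ar_K _ _ κ d q (discr N) hsgn hq hP.ne' hy R h

end Pool.Agent.Lib.MP_1a91b9_nuX.QW
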