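import Pool.Agent.Lib.MP_1a91b9_nuX.QW.PdN
import Pool.Agent.Lib.MP_1a91b9_nuX.QW.ArN
import Pool.Agent.Lib.MP_1a91b9_nuX.RG.Per

/-!
# The rationality of the normalised value, over a field `N` with `F = N K`

PROOF. `finrank ℚ N = m + 1` (as `hfrN` in `rat_N0` of MP_1a91b9_nuX/RG/Fin.lean; `finrank K F = m + 1` from `hσ`: `nf_card σ hσ`).
`P₀ := ∏ perAt (E N) v > 0` (`Per.prod_perAt_pos`), `P := ∏ perAt (cv a b) v > 0` (`prod_pos`, `TwC a b` from `twC_of` for `N ⊆ L`,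
`algebraMap N L := (algebraMap F L).comp (algebraMap N F)`; as a local instance `((algebraMap F L).comp (algebraMap N F)).toAlgebra`).
`R := Om ^ (m + 1) * d * embK κ * √|disc N| / P₀`; `ar_N` gives `z₁` with `embK z₁ = R`. `prod_N` gives `z₂` with `P₀ = embK z₂ * Θ * P`, `Θ = ∏ i, e i u`.
So `r √|disc N| * Θ = R P₀ = embK z₁ * embK z₂ * Θ * P`, `Θ ≠ 0`: `r √|disc N| / P = embK (z₁ z₂)` is real and in `K`, so rational
(`Rq.real_K`). `P = |norm D.u| * ∏ perAt W v` (`RG.prod_iso D hD`).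
-/

set_option autoImplicit false

namespace Pool.Agent.Lib.MP_1a91b9_nuX.QW

variable [Pool.Agent.Lib.MP_1a91b9_nuT.CD]

open NumberField WeierstrassCurve Pool.Agent.Lib.MP_1a91b9_nuT
open Pool.Agent.Lib.MP_1a91b9_nuT.Per (cv perAt perR perC)

theorem ratio_N {N F L : Type} [Field N] [NumberField N] [Field F] [NumberField F] [Field L]
    [NumberField L] [Algebra N F] [Algebra K F] [Algebra K L] [Algebra F L] [IsScalarTower K F L]
    (hL : Module.finrank N F = 2) (hn : ∀ x : N, algebraMap N F x ≠ algebraMap K F om)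
    {a b : N} {u : L} (hu : u ≠ 0)
    (ha : algebraMap F L (algebraMap N F a) = (CD.A : L) * u ^ 4)
    (hb : algebraMap F L (algebraMap N F b) = (CD.B : L) * u ^ 6)
    {m : ℕ} {σ : Fin (m + 1) → (F →ₐ[K] ℂ)} (hσ : Function.Bijective σ)
    {e : Fin (m + 1) → (L →ₐ[K] ℂ)} (he : ∀ i x, e i (algebraMap F L x) = σ i x)
    {d : ℂ} {q : ℚ} (hd : d ^ 2 = ((q ^ 2 * (discr N : ℚ) : ℚ) : ℂ)) {κ : K} {r : ℝ}
    (hr : (r : ℂ) * ∏ i, e i u = Om ^ (m + 1) * d * embK κ)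
    {W : WeierstrassCurve N} {D : VariableChange N} (hD : D • W = cv a b) :
    ∃ q' : ℚ, r * Real.sqrt |(discr N : ℝ)| =
      (q' : ℝ) * ∏ v : InfinitePlace N, perAt W v := by
  have hm : Module.finrank K F = m + 1 := nf_card σ hσ
  have hfrN : Module.finrank ℚ N = m + 1 := by
    have h1 := Module.finrank_mul_finrank ℚ N F
    have h2 := Module.finrank_mul_finrank ℚ K F
    rw [hL] at h1
    rw [finrank_K, hm] at h2
    omega
  have hTw : TwC a b := by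
    let _ : Algebra N L := ((algebraMap F L).comp (algebraMap N F)).toAlgebra
    exact twC_of (N := N) (L := L) hu ha hb
  obtain ⟨P0, hP0⟩ : ∃ P0 : ℝ, P0 = ∏ v : InfinitePlace N, perAt (E N) v := ⟨_, rfl⟩
  have hP0' : P0 ≠ 0 := by
    rw [hP0]
    exact (Pool.Agent.Lib.MP_1a91b9_nuT.Per.prod_perAt_pos N).ne'
  obtain ⟨P, hP⟩ : ∃ P : ℝ, P = ∏ v : InfinitePlace N, perAt (cv a b) v := ⟨_, rfl⟩
  have hP' : P ≠ 0 := by
    rw [hP]
    exact (prod_pos hTw).ne'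
  obtain ⟨Θ, hΘ⟩ : ∃ Θ : ℂ, Θ = ∏ i, e i u := ⟨_, rfl⟩
  have hΘ0 : Θ ≠ 0 := by
    rw [hΘ, Finset.prod_ne_zero_iff]
    intro i _ h0
    exact hu ((map_eq_zero_iff (e i) (e i).injective).1 h0)
  obtain ⟨z1, hz1⟩ := ar_N (N := N) κ d q hd
    (Om ^ (m + 1) * d * embK κ * ((Real.sqrt |(discr N : ℝ)| : ℝ) : ℂ) / (P0 : ℂ)) (by
      rw [← hP0, hfrN, div_mul_cancel₀ _ (Complex.ofReal_ne_zero.2 hP0')])
  obtain ⟨z2, hz2⟩ := prod_N hL hn hu ha hb hσ he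
  rw [← hP0, ← hP, ← hΘ] at hz2
  rw [← hr, ← hΘ] at hz1
  have hP0c : (P0 : ℂ) ≠ 0 := Complex.ofReal_ne_zero.2 hP0'
  have hPc : (P : ℂ) ≠ 0 := Complex.ofReal_ne_zero.2 hP'
  have h1 : ((r * Real.sqrt |(discr N : ℝ)| / P : ℝ) : ℂ) = embK (z1 * z2) := by
    have h2 : (r : ℂ) * Θ * ((Real.sqrt |(discr N : ℝ)| : ℝ) : ℂ) = embK z1 * (P0 : ℂ) := by
      rw [hz1, div_mul_cancel₀ _ hP0c]
    rw [hz2] at h2
    have h3 : ((r : ℂ) * ((Real.sqrt |(discr N : ℝ)| : ℝ) : ℂ)) * Θ =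
        (embK z1 * embK z2 * (P : ℂ)) * Θ := by
      rw [show ((r : ℂ) * ((Real.sqrt |(discr N : ℝ)| : ℝ) : ℂ)) * Θ =
        (r : ℂ) * Θ * ((Real.sqrt |(discr N : ℝ)| : ℝ) : ℂ) by ring, h2]
      ring
    have h4 := mul_right_cancel₀ hΘ0 h3
    rw [Complex.ofReal_div, Complex.ofReal_mul, h4, map_mul, mul_div_cancel_right₀ _ hPc]
  obtain ⟨q', hq'⟩ := Pool.Agent.Lib.MP_1a91b9_nuT.Rq.real_K h1.symm
  have hiso := Pool.Agent.Lib.MP_1a91b9_nuX.RG.prod_iso D hD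
  refine ⟨q' * |Algebra.norm ℚ (D.u : N)|, ?_⟩
  have h5 : r * Real.sqrt |(discr N : ℝ)| = (q' : ℝ) * P := by
    rw [hq', div_mul_cancel₀ _ hP']
  rw [h5, hP, hiso]
  push_cast
  ring

end Pool.Agent.Lib.MP_1a91b9_nuX.QW
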