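import Pool.Agent.Lib.MP_1a91b9_nuX.QW.Emb
import Pool.Agent.Lib.MP_1a91b9_nuI.Ta.Gen

/-!
# The Tamagawa numbers of a form of the curve with good reduction above `ℓ`

PROOF. `tam_gen` (MP_1a91b9_nuI/Ta/Gen.lean) with `A := a`, `B := b` (`sw a b = cv a b` by `rfl`). `hab`: `exists_delta` (`δ ≠ 0`, `CD.disc`). `hj`: `CD.jint`: `6912 A³ =
(4 A³ + 27 B²) * J`; from `exists_delta`: `4 a³ + 27 b² = δ d₀`; and `a³ = δ A³` : take any `φ : N →+* ℂ`, `t` of `h φ`: `φ (a³) = A³ t ^ 12 = φ (δ A³)`, `φ` injective.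
`h5`: `ℓ ≥ 5` because `ℓ` does not divide `CD.bad`, a multiple of `6` (`TG.five_le`, in MP_1a91b9_nuX/TG/Defs.lean). `hv`: if `(ℓ : 𝓞 N) ∈ v.asIdeal`: `hgood v` (`GdA`); otherwise
`Valued.v (ℓ : v.adicCompletion N) = 1`: `v.valuation N (ℓ : N) = 1` (`v.valuation_lt_one_iff_mem`, `v.valuation_le_one`) and
`HeightOneSpectrum.valuedAdicCompletion_eq_valuation'`.
-/

set_option autoImplicit false

namespace Pool.Agent.Lib.MP_1a91b9_nuX.QW

variable [Pool.Agent.Lib.MP_1a91b9_nuT.CD]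

open NumberField IsDedekindDomain WeierstrassCurve Pool.Agent.Lib.MP_1a91b9_nuT
open Pool.Agent.Lib.MP_1a91b9_nuT.Per (cv)
open Pool.Agent.Lib.MP_1a91b9_nuT.S9 (tam)
open scoped Classical

theorem tam_W {N : Type} [Field N] [NumberField N] {a b : N} (h : TwC a b)
    {W : WeierstrassCurve N} {D : VariableChange N} (hD : D • W = cv a b) {ℓ : ℕ} (hℓ : ℓ.Prime)
    (hg : ¬ (ℓ : ℤ) ∣ CD.bad)
    (hgood : ∀ v : HeightOneSpectrum (𝓞 N), (ℓ : 𝓞 N) ∈ v.asIdeal → GdA a b v)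
    (v : HeightOneSpectrum (𝓞 N)) : (tam W v).Coprime ℓ := by
  obtain ⟨δ, hδ, hab, hφ⟩ := exists_delta h
  obtain ⟨J, hJ⟩ := CD.jint
  have hdisc : ((4 * CD.A ^ 3 + 27 * CD.B ^ 2 : ℤ) : N) ≠ 0 := by
    rw [Int.cast_ne_zero]
    exact CD.disc
  have hab0 : 4 * a ^ 3 + 27 * b ^ 2 ≠ 0 := by
    rw [hab]
    exact mul_ne_zero hδ hdisc
  have hj : 6912 * a ^ 3 = (J : N) * (4 * a ^ 3 + 27 * b ^ 2) := by
    obtain ⟨φ⟩ := (inferInstance : Nonempty (N →+* ℂ))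
    obtain ⟨t, -, ha, hb⟩ := h φ
    have hd := hφ φ t ha hb
    have hJ' : (6912 : ℂ) * (CD.A : ℂ) ^ 3 =
        (4 * (CD.A : ℂ) ^ 3 + 27 * (CD.B : ℂ) ^ 2) * (J : ℂ) := by
      exact_mod_cast congrArg (fun z : ℤ => (z : ℂ)) hJ
    apply φ.injective
    rw [hab, map_mul, map_mul, map_mul, map_pow, ha, hd, map_ofNat, map_intCast, map_intCast]
    push_cast
    linear_combination t ^ 12 * hJ'
  refine Pool.Agent.Lib.MP_1a91b9_nuI.tam_gen hab0 hj hD hℓ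
    (Pool.Agent.Lib.MP_1a91b9_nuX.TG.five_le hℓ hg) v ?_
  by_cases hl : (ℓ : 𝓞 N) ∈ v.asIdeal
  · exact Or.inr (hgood v hl)
  · left
    have h1 : v.valuation N ((ℓ : 𝓞 N) : N) = 1 := by
      refine le_antisymm (v.valuation_le_one _) ?_
      by_contra h2
      rw [not_le] at h2
      exact hl ((v.valuation_lt_one_iff_mem (K := N) _).1 h2)
    have h3 : Valued.v ((((ℓ : 𝓞 N) : N) : v.adicCompletion N)) = (1 : WithZero (Multiplicative ℤ)) :=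
      (HeightOneSpectrum.valuedAdicCompletion_eq_valuation' v _).trans h1
    have h4 : ((((ℓ : 𝓞 N) : N) : v.adicCompletion N)) = (ℓ : v.adicCompletion N) := by
      have h5 : ((ℓ : 𝓞 N) : N) = (ℓ : N) := map_natCast (algebraMap (𝓞 N) N) ℓ
      rw [h5]
      exact map_natCast (algebraMap N (v.adicCompletion N)) ℓ
    rw [h4] at h3
    exact h3

end Pool.Agent.Lib.MP_1a91b9_nuX.QW
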