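import Pool.Agent.Lib.MP_1a91b9_nuX.QW.Lv
import Pool.Agent.Lib.MP_1a91b9_nuX.QW.RatN
import Pool.Agent.Lib.MP_1a91b9_nuX.QW.Pe
import Pool.Agent.Lib.MP_1a91b9_nuX.QW.Tam
import Pool.Agent.Lib.MP_1a91b9_nuX.PX.Form
import Pool.Agent.Lib.MP_1a91b9_nuT.Rq.D2

/-!
# The `ℓ`-part of the formula for a form `W` of the curve over a field `N`, `F = N K`

PROOF. `TwC a b` over `N`: `twC_of` for `N ⊆ L`, with the local instance `((algebraMap F L).comp (algebraMap N F)).toAlgebra` (`hs : ScD (algebraMap N F a) (algebraMap N F b) u θ`).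
`htam := tam_W ..`. `refine ⟨fun G hG hGW => ?_, card_sha_one hS, htam, hf, hc⟩`. `PX.formula` with `hval := ⟨G, hG, hGW, _⟩`, `hrat := ⟨G, q, hG, hGW, _⟩`, `hper := period_W ..`.
`hU`: `Λ` entire, `Λ s = Lf (psbC F c) s` for `2 < re s`, `A.valuation (Λ 1 / Om ^ finrank K F) = 1` for `A` above `ℓ`.
(1) `G s * R s = Λ s` for all `s` (`S4.entire_eq`, `hRs`), so `G 1 * ρ = Λ 1`; `G 1` is real (`Per.value_real hG hGW`).
(2) value: `A.valuation (G 1) = A.valuation (Λ 1) = A.valuation Om ^ finrank K F = A.valuation Om ^ finrank ℚ N` (as in `lvalN0` of MP_1a91b9_nuX/PX/Val.lean).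
(3) rationality: `m`, `σ`, `hσ` from `nf_exists (F := F)`, `e i` from `exists_lift (σ i)`, `Rq.disc_N hL hn σ hσ` gives `bb`, `q`, `hdq` (as in `rat_N0`, MP_1a91b9_nuX/RG/Fin.lean). `lvalT hT hs hg0 hg σ hσ
e he bb` gives `Λ'`, `κ`; `Λ = Λ'` (`S4.entire_eq`). `ratio_N` with `d := dt σ bb`, `r := (G 1).re * ρ` gives `q'`: `r √|disc N| = q' ∏ perAt W v`; so `G 1 √|disc N| = (q' / ρ) ∏ perAt W v`.
-/

set_option autoImplicit false

namespace Pool.Agent.Lib.MP_1a91b9_nuX.QW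

variable [Pool.Agent.Lib.MP_1a91b9_nuT.CD]

open NumberField IsDedekindDomain WeierstrassCurve Pool.Agent.Lib.MP_1a91b9_nuT
open Pool.Agent.Lib.MP_1a91b9_nuG (up)
open Pool.Agent.Lib.MP_1a91b9_nuT.PL (Ab Concl)
open Pool.Agent.Lib.MP_1a91b9_nuT.Per (cv perAt)
open Pool.Agent.Lib.MP_1a91b9_nuT.S4 (Lf)
open Pool.Agent.Lib.MP_1a91b9_nuT3.S9 (ShaP)
open Pool.Agent.Lib.MP_1a91b9_nuX.AN (psbC)
open Pool.Agent.Lib.MP_1a91b9_nuX.TC (RC cT UnitT)
open Pool.Agent.Lib.MP_1a91b9_nuX.TG (AbT gB)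
open scoped Classical

variable [HC]

theorem concl_N {ℓ : ℕ} [hℓ : Fact ℓ.Prime] (hbad : ¬ (ℓ : ℤ) ∣ CD.bad) {μ : 𝓞 K}
    {N F L : Type} [Field N] [NumberField N] [Field F] [NumberField F] [Algebra N F]
    [Algebra K F] (hL : Module.finrank N F = 2)
    (hn : ∀ x : N, algebraMap N F x ≠ algebraMap K F om) [Field L] [NumberField L] [Algebra K L]
    [Algebra F L] [IsScalarTower K F L] [IsGalois F L] {T : DB.Pt L} (hT : AbT μ F T) {a b : N}
    {u : L} {θ : Gal(L/F) →* (𝓞 K)ˣ} (hs : ScD (algebraMap N F a) (algebraMap N F b) u θ)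
    {g : 𝓞 K} (hg0 : g ≠ 0) (hg : gB μ ∣ g)
    {W : WeierstrassCurve N} {D : VariableChange N} (hD : D • W = cv a b)
    (hU : UnitT ℓ Om F (cT F T (Ideal.span {up g F}) (thC θ)))
    (hgood : ∀ v : HeightOneSpectrum (𝓞 N), (ℓ : 𝓞 N) ∈ v.asIdeal → GdA a b v)
    (hdisc : IsCoprime (discr N) (ℓ : ℤ)) (hS : Subsingleton (ShaP ℓ W))
    (hf : Finite W.toAffine.Point) (hc : (Nat.card W.toAffine.Point).Coprime ℓ)
    {R : ℂ → ℂ} (hR : Differentiable ℂ R) (hRs : ∀ s : ℂ, 2 < s.re → W.LSeries s * R s =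
      Lf (fun I => psbC F I * cT F T (Ideal.span {up g F}) (thC θ) I) s)
    {ρ : ℚ} (hR1 : R 1 = (ρ : ℂ)) (hρ : ∀ A : ValuationSubring ℂ, Ab ℓ A → A.valuation (ρ : ℂ) = 1) :
    Concl ℓ W := by
  have htw : TwC a b := by
    let _ : Algebra N L := ((algebraMap F L).comp (algebraMap N F)).toAlgebra
    exact twC_of (L := L) hs.ne hs.ha hs.hb
  have htam := fun v => tam_W htw hD hℓ.out hbad hgood v
  have hex := nf_exists (F := F)
  obtain ⟨m, hm⟩ : ∃ m, Module.finrank K F = m + 1 :=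
    Nat.exists_eq_succ_of_ne_zero Module.finrank_pos.ne'
  have hfrN : Module.finrank ℚ N = m + 1 := by
    have h1 := Module.finrank_mul_finrank ℚ N F
    have h2 := Module.finrank_mul_finrank ℚ K F
    rw [hL] at h1
    rw [finrank_K, hm] at h2
    omega
  rw [hm] at hex
  obtain ⟨σ, hσ⟩ := hex
  refine ⟨fun G hG hGW => ?_, PX.card_sha_one hS, htam, hf, hc⟩
  obtain ⟨Λ, hΛ, hΛs, hΛv⟩ := hU
  have hprod : (fun s => G s * R s) = Λ := S4.entire_eq (hG.mul hR) hΛ fun s hs' => by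
    rw [hGW s hs', hRs s hs', hΛs s hs']
  have h1 : G 1 * (ρ : ℂ) = Λ 1 := by
    rw [← hR1]
    exact congrFun hprod 1
  have hval : ∀ A : ValuationSubring ℂ, Ab ℓ A →
      A.valuation (G 1) = A.valuation Om ^ Module.finrank ℚ N := by
    intro A hA
    have h2 := Per.val_of_div (hΛv A hA)
    rw [← h1, map_mul, hρ A hA, mul_one, hm, ← hfrN] at h2
    exact h2
  have hrat : ∃ q : ℚ, G 1 * (Real.sqrt |(discr N : ℝ)| : ℝ) =
      (q : ℂ) * (∏ v : InfinitePlace N, perAt W v : ℝ) := by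
    obtain ⟨bb, q, hq0, hdq⟩ := Rq.disc_N hL hn σ hσ
    choose e he using fun i => exists_lift (N := F) (L := L) (σ i)
    obtain ⟨Λ', κ, hΛ', hΛs', hv⟩ := lvalT hT hs hg0 hg σ hσ e he bb
    have hΛΛ : Λ' = Λ := S4.entire_eq hΛ' hΛ fun s hs' => by rw [hΛs' s hs', hΛs s hs']
    have hre := Per.value_real hG hGW
    have hρ0 : (ρ : ℝ) ≠ 0 := by
      intro h0
      obtain ⟨A, hA⟩ : ∃ A : ValuationSubring ℂ, Ab ℓ A := Ell.d3_exists hℓ.out
      have h2 := hρ A hA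
      have h3 : (ρ : ℂ) = 0 := by
        have h4 : ρ = 0 := by exact_mod_cast h0
        rw [h4, Rat.cast_zero]
      rw [h3, map_zero] at h2
      exact zero_ne_one h2
    have hr : (((G 1).re * (ρ : ℝ) : ℝ) : ℂ) * ∏ i, e i u =
        Om ^ (m + 1) * Rq.dt σ bb * embK κ := by
      rw [← hv, hΛΛ, ← h1, Complex.ofReal_mul, ← hre, Complex.ofReal_ratCast]
    obtain ⟨q', hq'⟩ := ratio_N hL hn hs.ne hs.ha hs.hb hσ he hdq hr hD
    refine ⟨q' / ρ, ?_⟩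
    have h5 : (G 1).re * Real.sqrt |(discr N : ℝ)| =
        ((q' / ρ : ℚ) : ℝ) * ∏ v : InfinitePlace N, perAt W v := by
      rw [Rat.cast_div]
      have h6 : (G 1).re * Real.sqrt |(discr N : ℝ)| * (ρ : ℝ) =
          (q' : ℝ) * ∏ v : InfinitePlace N, perAt W v := by
        rw [← hq']
        ring
      rw [div_mul_eq_mul_div, ← h6, mul_div_cancel_right₀ _ hρ0]
    rw [hre, ← Complex.ofReal_mul, h5, Complex.ofReal_mul, Complex.ofReal_ratCast]
  obtain ⟨q, hq⟩ := hrat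
  exact PX.formula ⟨G, hG, hGW, hval⟩ ⟨G, q, hG, hGW, hq⟩ (period_W htw hD hℓ.out hbad hgood)
    htam hdisc hc hS hG hGW

end Pool.Agent.Lib.MP_1a91b9_nuX.QW
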