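import Pool.Agent.Lib.MP_1a91b9_nuX.QW.GluK
import Pool.Agent.Lib.MP_1a91b9_nuX.QW.FinN

/-!
# The `ℓ`-part of the formula for a form `W` of the curve over a field `N` which does not contain `K`
-/

set_option autoImplicit false

namespace Pool.Agent.Lib.MP_1a91b9_nuX.QW

open NumberField IsDedekindDomain WeierstrassCurve Module Pool.Agent.Lib.MP_1a91b9_nuT
open Pool.Agent.Lib.MP_1a91b9_nuX.DB Pool.Agent.Lib.MP_1a91b9_nuX.DX Pool.Agent.Lib.MP_1a91b9_nuX.GL
open Pool.Agent.Lib.MP_1a91b9_nuG (up)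
open Pool.Agent.Lib.MP_1a91b9_nuX.PG (Gd bC)
open Pool.Agent.Lib.MP_1a91b9_nuX.PH (Fm Hv psP AbW hv_E)
open Pool.Agent.Lib.MP_1a91b9_nuX.TG Pool.Agent.Lib.MP_1a91b9_nuX.TC
open Pool.Agent.Lib.MP_1a91b9_nuX.TH (NaW GoodH ChW)
open Pool.Agent.Lib.MP_1a91b9_nuX.AN
open Pool.Agent.Lib.MP_1a91b9_nuX.PX (pts_down sha_down_gal)
open Pool.Agent.Lib.MP_1a91b9_nuT.CF (IsFr exists_over exists_fr)
open Pool.Agent.Lib.MP_1a91b9_nuT.TG (exists_comp)
open Pool.Agent.Lib.MP_1a91b9_nuT.PL (Ab Concl coprime_discr)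
open Pool.Agent.Lib.MP_1a91b9_nuT.Per (cv)
open Pool.Agent.Lib.MP_1a91b9_nuT3.S9 (ShaP)

universe u

variable [CD] [HC]

omit [CD] [HC] in
theorem isGalois_two {N F : Type*} [Field N] [CharZero N] [Field F] [Algebra N F]
    (h : finrank N F = 2) : IsGalois N F := by
  have hfin : FiniteDimensional N F := FiniteDimensional.of_finrank_pos (by rw [h]; norm_num)
  have hq : Algebra.IsQuadraticExtension N F := ⟨h⟩
  exact IsGalois.mk

omit [CD] [HC] in
theorem bc_map {N N' F : Type*} [Field N] [Field N'] [Field F] [Algebra N N'] [Algebra N F]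
    [Algebra N' F] [IsScalarTower N N' F] (W : WeierstrassCurve N) :
    (W.map (algebraMap N N')).map (algebraMap N' F) = W.map (algebraMap N F) := by
  rw [WeierstrassCurve.map_map, ← IsScalarTower.algebraMap_eq]

/-- **The `ℓ`-part of the formula over a field `N` which does not contain `K`, `N' = N K`.** -/
theorem thm_N (hE : EllK) {ℓ : ℕ} [hℓ : Fact ℓ.Prime] {μ : 𝓞 K} (N N' F F₀ L' : Type)
    [Field N] [NumberField N] [Field N'] [NumberField N'] [Algebra N N'] [Algebra K N']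
    [Field F] [NumberField F] [Algebra K F] [Field F₀]
    [NumberField F₀] [Algebra K F₀] [Field L'] [NumberField L'] [Algebra K L'] [Algebra N F]
    [Algebra N' F] [IsScalarTower N N' F]
    [Algebra F₀ F] [Algebra F₀ L'] [IsScalarTower K N' F] [IsScalarTower K F₀ F]
    [IsScalarTower K F₀ L'] [IsGalois K L'] [DecidableEq L'] {T : Pt L'} (hT : AbT μ K T)
    (hL2 : finrank N N' = 2) (hn : ∀ x : N, algebraMap N N' x ≠ algebraMap K N' om)
    (hgen : IntermediateField.adjoin N' (Set.range (algebraMap F₀ F)) = ⊤) {g : ℕ}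
    (hg0 : g ≠ 0) (hg : gB μ ∣ (g : 𝓞 K)) (hgℓ : g.Coprime ℓ)
    (h3 : ¬ ℓ ∣ 2 ^ finrank K F - 1) (hF : GoodH ℓ F) (hna : NaW ℓ (g : 𝓞 K) (E F))
    {W : WeierstrassCurve N} {C : VariableChange F} (hC : C • W.baseChange F = E F)
    (hgood : ∀ (a b : N) (D : VariableChange N), D • W = cv a b →
      ∀ v : HeightOneSpectrum (𝓞 N), (ℓ : 𝓞 N) ∈ v.asIdeal → GdA a b v) :
    Concl ℓ W := by
  classical
  have hg0' : (g : 𝓞 K) ≠ 0 := Nat.cast_ne_zero.2 hg0
  have hgℓ' : IsCoprime (g : 𝓞 K) (ℓ : 𝓞 K) := Nat.Coprime.cast hgℓ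
  have hC' : C • (W.map (algebraMap N N')).map (algebraMap N' F) = E F := by
    rw [bc_map]
    exact hC
  have hGal' : IsGalois N' F := TC.galois_sub N' F F₀ L' hT hgen
  obtain ⟨L, _, _, _, _, _, _, t1, t2, t3, t4, hG, hL⟩ := exists_comp N' F F₀ L' hgen
  have hT' := hT.up (N := N') hL
  obtain ⟨a, b, u, D, hD, hu, ha, hb⟩ := LF.exists_shortC W C (a' := cA F) (b' := cB F) hC
  obtain ⟨θ, hs⟩ := exists_theta (N := N') (L := F) (a := algebraMap N N' a)
    (b := algebraMap N N' b) hu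
    (by rw [← IsScalarTower.algebraMap_apply, ha, mul_comm])
    (by rw [← IsScalarTower.algebraMap_apply, hb, mul_comm])
  have hD' : D • W = cv a b := hD
  have hD'' : D.map (algebraMap N N') • W.map (algebraMap N N') =
      cv (algebraMap N N' a) (algebraMap N N' b) := by
    rw [WeierstrassCurve.map_variableChange, hD']
    exact LF.crv_map _ a b
  have hu' : ∀ q : HeightOneSpectrum (𝓞 K), (ℓ : 𝓞 K) ∈ q.asIdeal →
      ¬ MP_1a91b9_nuT3.Ram F q := fun q hq => not_ram_of_unr hF.unr hℓ.out.ne_zero q hq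
  have hchW := chW_sc hE hT' hg0' hg hs hD'' hC'
  have hU := unitT_sc hT' hg0' hg θ hℓ.out hF.good hgℓ' h3 hu' (fun w hw hf => by
    have h4 : HC.f ∉ (w.under (𝓞 K)).asIdeal := hf
    have h5 := hna w hw (TH.gd_E h4)
    rwa [hv_E hE h4] at h5) hF.unit
  have hW := TH.abW_of N' F F₀ L' hT hgen hC'
  have hFm : Fm (W.map (algebraMap N N')) := by
    obtain ⟨ι, D', hD'', -⟩ := hW
    exact ⟨ι, D', hD''⟩
  have hnaW : NaW ℓ (g : 𝓞 K) (W.map (algebraMap N N')) :=
    TH.naW_down hE hFm (TH.naW_iso C hC' hna)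
  obtain ⟨R, ρ, hR, hRs, hR1, hρ⟩ := TH.eul_N hE hL2 hn hT.ne hW hchW hgℓ hnaW
  obtain ⟨hfW, hdvd⟩ := pts_down (N := N) (N' := F) hF.fin W C hC
  have hcW : (Nat.card W.toAffine.Point).Coprime ℓ := Nat.Coprime.coprime_dvd_left hdvd hF.cop
  obtain ⟨hfW', hdvd'⟩ := pts_down (N := N') (N' := F) hF.fin (W.map (algebraMap N N')) C hC'
  have hcW' : (Nat.card (W.map (algebraMap N N')).toAffine.Point).Coprime ℓ :=
    Nat.Coprime.coprime_dvd_left hdvd' hF.cop
  have hS' : Subsingleton (ShaP ℓ (W.map (algebraMap N N'))) :=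
    sha_down_gal (N := N') (N' := F) hF.sha hF.fin hF.cop _ C hC'
  have hG2 : IsGalois N N' := isGalois_two hL2
  have hS : Subsingleton (ShaP ℓ W) :=
    sha_down_gal (N := N) (N' := N') hS' hfW' hcW' W 1 (one_smul _ _)
  have hdisc := coprime_discr hℓ.out N F hF.unr
  exact concl_N hF.good hL2 hn hT' hs.up hg0' hg hD' hU (hgood a b D hD') hdisc hS hfW hcW hR hRs
    hR1 hρ

end Pool.Agent.Lib.MP_1a91b9_nuX.QW
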