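import Pool.Agent.Lib.MP_1a91b9_nuX.QW.PdK
import Pool.Agent.Lib.MP_1a91b9_nuX.RG.Fin

/-!
# The rationality of the normalised value, over a field which contains `K`

PROOF. As `rat_K0` of MP_1a91b9_nuX/RG/Fin.lean. `Rq.disc_K σ hσ bb : sd ^ (m + 1) * ‖dt σ bb‖ ^ 2 = q0 * √|disc N|`,
`Rq.normSq_rat κ : (q1 : ℝ) = ‖embK κ‖ ^ 2`. From `h1`: `‖z‖ ^ 2 * ‖Θ‖ ^ 2 = (‖Om‖ ^ 2) ^ (m + 1) * ‖dt σ bb‖ ^ 2 * q1`, `Θ = ∏ i, e i u ≠ 0`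
(`Finset.prod_ne_zero_iff`, `e i` injective). As there, `‖z‖ ^ 2 * ‖Θ‖ ^ 2 * √|disc N| = (q1 * q0 * |disc N| / (4 nm - tr ^ 2) ^ (m + 1)) *
(sd * ‖Om‖ ^ 2) ^ (m + 1)` and `∏ perAt (E N) v = (sd * ‖Om‖ ^ 2) ^ (m + 1)` (`prod_perAt`, `hcx` there), which is
`∏ perAt (cv a b) v * ‖Θ‖ ^ 2` (`prod_K`); divide by `‖Θ‖ ^ 2`. Finally `∏ perAt (cv a b) v = |norm D.u| * ∏ perAt W v`
(`RG.prod_iso D hD`).
-/

set_option autoImplicit false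

namespace Pool.Agent.Lib.MP_1a91b9_nuX.QW

variable [Pool.Agent.Lib.MP_1a91b9_nuT.CD]

open NumberField WeierstrassCurve Pool.Agent.Lib.MP_1a91b9_nuT
open Pool.Agent.Lib.MP_1a91b9_nuT.Per (cv perAt perR perC)
open Pool.Agent.Lib.MP_1a91b9_nuT.Rq (dt)

theorem ratio_K {N L : Type} [Field N] [NumberField N] [Algebra K N] [Field L] [NumberField L]
    [Algebra K L] [Algebra N L] [IsScalarTower K N L] {a b : N} {u : L} (hu : u ≠ 0)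
    (ha : algebraMap N L a = (CD.A : L) * u ^ 4) (hb : algebraMap N L b = (CD.B : L) * u ^ 6)
    {m : ℕ} {σ : Fin (m + 1) → (N →ₐ[K] ℂ)} (hσ : Function.Bijective σ)
    {e : Fin (m + 1) → (L →ₐ[K] ℂ)} (he : ∀ i x, e i (algebraMap N L x) = σ i x)
    (bb : Module.Basis (Fin (m + 1)) K N) {z : ℂ} {κ : K}
    (h1 : z * ∏ i, e i u = Om ^ (m + 1) * dt σ bb * embK κ)
    {W : WeierstrassCurve N} {D : VariableChange N} (hD : D • W = cv a b) :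
    ∃ q : ℚ, ‖z‖ ^ 2 * Real.sqrt |(discr N : ℝ)| =
      (q : ℝ) * ∏ v : InfinitePlace N, perAt W v := by
  obtain ⟨q0, hq0, hdisc⟩ := Rq.disc_K σ hσ bb
  obtain ⟨q1, hq1⟩ := Rq.normSq_rat κ
  have hm : Module.finrank K N = m + 1 := by
    rw [Module.finrank_eq_card_basis bb, Fintype.card_fin]
  have hcx : InfinitePlace.nrComplexPlaces N = m + 1 ∧ InfinitePlace.nrRealPlaces N = 0 := by
    have h2 := InfinitePlace.card_add_two_mul_card_eq_rank N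
    have h3 : IsTotallyComplex N := S4.totallyComplex_of_K
    have h4 : InfinitePlace.nrRealPlaces N = 0 := IsTotallyComplex.nrRealPlaces_eq_zero N
    have h5 : Module.finrank ℚ N = 2 * (m + 1) := by
      rw [← Module.finrank_mul_finrank ℚ K N, finrank_K, hm]
    omega
  have hprod : ∏ v : InfinitePlace N, perAt (E N) v = (sd * ‖Om‖ ^ 2) ^ (m + 1) := by
    rw [Per.prod_perAt, hcx.1, hcx.2, pow_zero, one_mul]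
  have hPK := prod_K hu ha hb hσ he
  have hiso := RG.prod_iso D hD
  obtain ⟨Θ, hΘ⟩ : ∃ Θ : ℝ, Θ = ‖∏ i, e i u‖ := ⟨_, rfl⟩
  have hΘ0 : Θ ≠ 0 := by
    rw [hΘ]
    exact norm_ne_zero_iff.2 (Finset.prod_ne_zero_iff.2 fun i _ =>
      (map_ne_zero_iff _ (e i).injective).2 hu)
  obtain ⟨D', hD'⟩ : ∃ z : ℤ, z = |discr N| := ⟨_, rfl⟩
  obtain ⟨PW, hPW⟩ : ∃ x : ℝ, x = ∏ v : InfinitePlace N, perAt W v := ⟨_, rfl⟩
  obtain ⟨Pc, hPc⟩ : ∃ x : ℝ, x = ∏ v : InfinitePlace N, perAt (cv a b) v := ⟨_, rfl⟩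
  obtain ⟨nu, hnu⟩ : ∃ x : ℚ, x = |Algebra.norm ℚ (D.u : N)| := ⟨_, rfl⟩
  refine ⟨q1 * q0 * (D' : ℚ) / ((4 * CD.nm - CD.tr ^ 2 : ℤ) : ℚ) ^ (m + 1) * nu, ?_⟩
  have key : ‖z‖ ^ 2 * Θ ^ 2 * Real.sqrt |(discr N : ℝ)| =
      (q1 * q0 * (D' : ℝ) / ((4 * CD.nm - CD.tr ^ 2 : ℤ) : ℝ) ^ (m + 1)) *
        (sd * ‖Om‖ ^ 2) ^ (m + 1) := by
    rw [hD', Int.cast_abs, ← sd_sq]
    have hLn : ‖z‖ ^ 2 * Θ ^ 2 = (‖Om‖ ^ 2) ^ (m + 1) * ‖Rq.dt σ bb‖ ^ 2 * q1 := by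
      rw [hΘ, ← mul_pow, ← norm_mul, h1, norm_mul, norm_mul, norm_pow, hq1]
      ring
    rw [hLn, mul_pow]
    have h3 : sd ^ (m + 1) ≠ 0 := (pow_pos sd_pos _).ne'
    obtain ⟨r, hr⟩ : ∃ r : ℝ, r = Real.sqrt |(discr N : ℝ)| := ⟨_, rfl⟩
    obtain ⟨t, ht⟩ : ∃ t : ℝ, t = (‖Om‖ ^ 2) ^ (m + 1) := ⟨_, rfl⟩
    obtain ⟨w, hw⟩ : ∃ w : ℝ, w = sd ^ (m + 1) := ⟨_, rfl⟩
    have hw2 : (sd ^ 2) ^ (m + 1) = w * w := by
      rw [hw]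
      ring
    have hD2 : |(discr N : ℝ)| = r * r := by
      rw [hr]
      exact (Real.mul_self_sqrt (abs_nonneg _)).symm
    rw [← hw] at h3 hdisc
    rw [← hr] at hdisc
    rw [← hr, ← ht, ← hw, hw2, hD2]
    field_simp
    linear_combination (t * q1 * r) * hdisc
  rw [← hprod, ← hPK, hiso, ← hΘ] at key
  have hnu' : ((nu : ℚ) : ℝ) = |((Algebra.norm ℚ (D.u : N) : ℚ) : ℝ)| := by
    rw [hnu, Rat.cast_abs]
  rw [← hnu', ← hPW] at key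
  rw [← hPW]
  have h4 : Θ ^ 2 ≠ 0 := pow_ne_zero 2 hΘ0
  refine mul_right_cancel₀ h4 ?_
  push_cast
  push_cast at key
  linear_combination key

end Pool.Agent.Lib.MP_1a91b9_nuX.QW
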