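import Pool.Agent.Lib.MP_1a91b9_nuX.QW.ScB
import Pool.Agent.Lib.MP_1a91b9_nuX.TC.Sub
import Pool.Agent.Lib.MP_1a91b9_nuX.TH.Chr
import Pool.Agent.Lib.MP_1a91b9_nuT.S2.Lat

/-!
# The character `θ` of a form of the curve: the unit property and the comparison with the Hecke character
-/

set_option autoImplicit false

namespace Pool.Agent.Lib.MP_1a91b9_nuX.QW

open NumberField IsDedekindDomain WeierstrassCurve Module Pool.Agent.Lib.MP_1a91b9_nuT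
open Pool.Agent.Lib.MP_1a91b9_nuX.DB Pool.Agent.Lib.MP_1a91b9_nuX.DX
open Pool.Agent.Lib.MP_1a91b9_nuG (up)
open Pool.Agent.Lib.MP_1a91b9_nuX.PG (Gd bC)
open Pool.Agent.Lib.MP_1a91b9_nuX.PH
open Pool.Agent.Lib.MP_1a91b9_nuX.TG Pool.Agent.Lib.MP_1a91b9_nuX.TC
open Pool.Agent.Lib.MP_1a91b9_nuX.AN
open Pool.Agent.Lib.MP_1a91b9_nuT.CF (IsFr exists_over exists_fr)

universe u

variable [CD] [HC]

theorem span_le_gB {μ g : 𝓞 K} (hg : gB μ ∣ g) (N : Type*) [Field N] [NumberField N]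
    [Algebra K N] : Ideal.span {up g N} ≤ Ideal.span {up (gB μ) N} := by
  rw [Ideal.span_singleton_le_span_singleton]
  exact map_dvd (algebraMap (𝓞 K) (𝓞 N)) hg

omit [HC] in
theorem span_up_ne {g : 𝓞 K} (hg : g ≠ 0) (N : Type*) [Field N] [NumberField N] [Algebra K N] :
    Ideal.span {up g N} ≠ 0 := by
  rw [Ne, Ideal.zero_eq_bot, Ideal.span_singleton_eq_bot]
  intro h0
  exact hg ((FaithfulSMul.algebraMap_injective (𝓞 K) (𝓞 N)) (by rw [map_zero]; exact h0))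

omit [HC] in
theorem span_up_cop {ℓ : ℕ} {g : 𝓞 K} (hg : IsCoprime g (ℓ : 𝓞 K)) (N : Type*) [Field N]
    [NumberField N] [Algebra K N] :
    IsCoprime (Ideal.span {up g N}) (Ideal.span {(ℓ : 𝓞 N)}) := by
  have h1 := hg.map (algebraMap (𝓞 K) (𝓞 N))
  rw [map_natCast] at h1
  exact (Ideal.isCoprime_span_singleton_iff _ _).2 h1

section
variable {μ : 𝓞 K} {N F L : Type u} [Field N] [NumberField N] [Algebra K N]
  [Field F] [NumberField F] [Algebra K F] [Field L] [NumberField L] [Algebra K L]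
  [Algebra N F] [Algebra N L] [Algebra F L] [IsScalarTower K N F] [IsScalarTower K N L]
  [IsScalarTower K F L] [IsScalarTower N F L] [IsGalois N L] [IsGalois N F] [DecidableEq L]

/-- descent of the unit property with the character `θ` -/
theorem unitT_sc {T : Pt L} (hT : AbT μ N T) {g : 𝓞 K} (hg0 : g ≠ 0) (hg : gB μ ∣ g)
    (θ : Gal(F/N) →* (𝓞 K)ˣ) {ℓ : ℕ} (hℓ : ℓ.Prime) (hD : ¬ (ℓ : ℤ) ∣ CD.bad)
    (hgℓ : IsCoprime g (ℓ : 𝓞 K)) (h3 : ¬ ℓ ∣ 2 ^ finrank K F - 1)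
    (hu : ∀ q : HeightOneSpectrum (𝓞 K), (ℓ : 𝓞 K) ∈ q.asIdeal → ¬ MP_1a91b9_nuT3.Ram F q)
    (ha : ∀ w : HeightOneSpectrum (𝓞 F), up g F ∈ w.asIdeal → up HC.f F ∉ w.asIdeal →
      IsCoprime (psi F w.asIdeal - 1) (ℓ : 𝓞 K))
    (h : UnitProp ℓ Om F) :
    UnitT ℓ Om N (cT N T (Ideal.span {up g N})
      (thC (θ.comp (AlgEquiv.restrictNormalHom F : Gal(L/N) →* Gal(F/N))))) := by
  have hm0 := span_up_ne hg0 N
  have hm := span_le_gB hg N
  obtain ⟨θL, hθL⟩ : ∃ θL : Gal(L/N) →* ℂˣ,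
      θL = thC (θ.comp (AlgEquiv.restrictNormalHom F : Gal(L/N) →* Gal(F/N))) := ⟨_, rfl⟩
  rw [← hθL]
  have htriv : ∀ σ : Gal(L/F), θL (toFH N F L σ) = 1 := by
    intro σ
    have h1 : rs F (toFH N F L σ) = 1 := rs_toF σ
    have h2 : θL (toFH N F L σ) = unC (θ (rs F (toFH N F L σ))) := by
      rw [hθL]
      rfl
    rw [h2, h1, map_one, map_one]
  have hmq := span_up_cop hgℓ N
  refine unitT_abT μ hℓ hD _ N F L T hT _ hm0 hm θL hmq rfl h3 hu ?_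
  rw [cT_triv htriv]
  have e : (Ideal.span {up g N}).map (algebraMap (𝓞 N) (𝓞 F)) = Ideal.span {up g F} := by
    rw [Ideal.map_span, Set.image_singleton]
    have h1 : algebraMap (𝓞 N) (𝓞 F) (up g N) = up g F :=
      MP_1a91b9_nuT3.S8.algebraMap_tower (F := N) (F' := F) g
    rw [h1]
  rw [e]
  refine unitT_indC (span_up_ne hg0 F) hℓ (span_up_cop hgℓ F) (fun w hw hf => ha w ?_ hf) h
  exact (Ideal.span_singleton_le_iff_mem _).1 hw

omit [HC] in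
/-- a unit of `𝓞 K` has absolute value `1` -/
theorem unC_conj (x : (𝓞 K)ˣ) :
    (starRingEnd ℂ) (embK ((x : 𝓞 K) : K)) * embK ((x : 𝓞 K) : K) = 1 := by
  have e : embK ((x : 𝓞 K) : K) * embK (((x⁻¹ : (𝓞 K)ˣ) : 𝓞 K) : K) = 1 := by
    rw [← map_mul, ← map_one embK]
    congr 1
    rw [← map_mul (algebraMap (𝓞 K) K), Units.mul_inv, map_one]
  have hx : ∀ y : (𝓞 K)ˣ, 1 ≤ ‖embK ((y : 𝓞 K) : K)‖ := by
    intro y
    refine S2A.one_le_embK _ ?_ (RingOfIntegers.isIntegral_coe _)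
    intro h0
    exact y.ne_zero (RingOfIntegers.coe_eq_zero_iff.1 h0)
  have h1 : ‖embK ((x : 𝓞 K) : K)‖ = 1 := by
    have h2 := congrArg norm e
    rw [norm_mul, norm_one] at h2
    refine le_antisymm ?_ (hx x)
    calc ‖embK ((x : 𝓞 K) : K)‖ = ‖embK ((x : 𝓞 K) : K)‖ * 1 := (mul_one _).symm
      _ ≤ ‖embK ((x : 𝓞 K) : K)‖ * ‖embK (((x⁻¹ : (𝓞 K)ˣ) : 𝓞 K) : K)‖ :=
        mul_le_mul_of_nonneg_left (hx x⁻¹) (norm_nonneg _)
      _ = 1 := h2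
  rw [mul_comm, Complex.mul_conj, Complex.normSq_eq_norm_sq, h1]
  norm_num

/-- The character `ψ_N cT` and the Hecke character of `W` have the same values at the places prime to `g`. -/
theorem twD_eq {T : Pt L} (hT : AbT μ N T) {g : 𝓞 K} (hg : gB μ ∣ g)
    (θ : Gal(F/N) →* (𝓞 K)ˣ) {W : WeierstrassCurve N}
    (hv : ∀ w : HeightOneSpectrum (𝓞 F), ¬ Ideal.span {up g N} ≤ (w.under (𝓞 N)).asIdeal →
      ∀ σ : Gal(F/N), IsFr (w.under (𝓞 N)) w σ →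
        psi N (w.under (𝓞 N)).asIdeal = ((θ σ : (𝓞 K)ˣ) : 𝓞 K) * Hv W (w.under (𝓞 N)))
    (v : HeightOneSpectrum (𝓞 N)) (hvg : ¬ Ideal.span {up g N} ≤ v.asIdeal) :
    bC (psP W) v.asIdeal = psbC N v.asIdeal * cT N T (Ideal.span {up g N})
      (thC (θ.comp (AlgEquiv.restrictNormalHom F : Gal(L/N) →* Gal(F/N)))) v.asIdeal := by
  obtain ⟨W', hW'⟩ := exists_over (k := N) (N := L) v
  obtain ⟨τ, hτ⟩ := exists_fr (k := N) W'
  have hcop : IsCoprime v.asIdeal (Ideal.span {up g N}) := by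
    by_contra h
    exact hvg ((S4.le_iff_not_coprime _ v).2 h)
  have hun : (W'.under (𝓞 F)).under (𝓞 N) = v := by
    rw [← hW']
    exact HeightOneSpectrum.ext (Ideal.under_under _)
  rw [hW'] at hτ
  have h1 := art_fr hT (span_le_gB hg N) v hvg W' τ hW' hτ
  have h2 := isFr_rs (F := F) hτ
  have h3 := hv (W'.under (𝓞 F)) (by rw [hun]; exact hvg) (rs F τ) (by rw [hun]; exact h2)
  rw [hun] at h3
  rw [cT_of hcop, h1]
  have h4 : thC (θ.comp (AlgEquiv.restrictNormalHom F : Gal(L/N) →* Gal(F/N))) τ =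
      unC (θ (rs F τ)) := rfl
  have h5 : psP W v.asIdeal = Hv W v := PG.psI_prime _ v
  have h6 : psbC N v.asIdeal = (starRingEnd ℂ) (embK ((psi N v.asIdeal : 𝓞 K) : K)) := rfl
  have h7 : (((((θ (rs F τ) : (𝓞 K)ˣ) : 𝓞 K) * Hv W v : 𝓞 K)) : K) =
      (((θ (rs F τ) : (𝓞 K)ˣ) : 𝓞 K) : K) * (Hv W v : K) := map_mul (algebraMap (𝓞 K) K) _ _
  rw [h4, unC_apply, bC, h5, h6, h3, h7, map_mul, map_mul]
  linear_combination (-(starRingEnd ℂ) (embK (Hv W v : K))) * unC_conj (θ (rs F τ))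

end

end Pool.Agent.Lib.MP_1a91b9_nuX.QW
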