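import Pool.Agent.Lib.MP_1a91b9_nuX.TC.Art
import Pool.Agent.Lib.MP_1a91b9_nuX.RG.Defs
import Pool.Agent.Lib.MP_1a91b9_nuX.TM.Main
import Pool.Agent.Lib.MP_1a91b9_nuT.P.Unit

/-!
# The formula for a general form of the curve: definitions

`ScD a b u θ`: the curve `y² = x³ + a x + b` over `N` is a form of the curve of `CD`: `a = A u⁴`, `b = B u⁶` with
`u ∈ L`, and the automorphisms `s` of `L / N` multiply `u` by the units `θ s`.
-/

set_option autoImplicit false

namespace Pool.Agent.Lib.MP_1a91b9_nuX.QW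

variable [Pool.Agent.Lib.MP_1a91b9_nuT.CD]

open NumberField IsDedekindDomain WeierstrassCurve WithZero Pool.Agent.Lib.MP_1a91b9_nuT
open Pool.Agent.Lib.MP_1a91b9_nuT.Per (cv)

/-- the scaling factor `u` of a form and the character `θ` -/
structure ScD {N L : Type*} [Field N] [Field L] [Algebra N L] [Algebra K L] (a b : N) (u : L)
    (θ : Gal(L/N) →* (𝓞 K)ˣ) : Prop where
  ne : u ≠ 0
  ha : algebraMap N L a = (CD.A : L) * u ^ 4
  hb : algebraMap N L b = (CD.B : L) * u ^ 6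
  th : ∀ s : Gal(L/N), s u = algebraMap K L (((θ s : (𝓞 K)ˣ) : 𝓞 K) : K) * u

/-- the units of `𝓞 K` as complex numbers -/
noncomputable def unC : (𝓞 K)ˣ →* ℂˣ :=
  Units.map ((embK : K →+* ℂ).comp (algebraMap (𝓞 K) K)).toMonoidHom

theorem unC_apply (x : (𝓞 K)ˣ) : ((unC x : ℂˣ) : ℂ) = embK ((x : 𝓞 K) : K) := rfl

/-- the complex values of the character -/
noncomputable def thC {G : Type*} [Group G] (θ : G →* (𝓞 K)ˣ) : G →* ℂˣ := unC.comp θ

theorem thC_apply {G : Type*} [Group G] (θ : G →* (𝓞 K)ˣ) (s : G) :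
    ((thC θ s : ℂˣ) : ℂ) = embK (((θ s : (𝓞 K)ˣ) : 𝓞 K) : K) := rfl

/-- the scaling factors in the field of complex numbers -/
def TwC {N : Type*} [Field N] (a b : N) : Prop :=
  ∀ φ : N →+* ℂ, ∃ t : ℂ, t ≠ 0 ∧ φ a = (CD.A : ℂ) * t ^ 4 ∧ φ b = (CD.B : ℂ) * t ^ 6

/-- The coefficient of the class of `t` modulo `m b`, with the character `c`. -/
noncomputable def kc [HC] {F : Type*} [Field F] [NumberField F] [Algebra K F]
    (c : Ideal (𝓞 F) → ℂ) (b : Ideal (𝓞 F)) (t : 𝓞 F) : ℂ :=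
  RG.kk b t * (c (Ideal.span {t}) / c b)

omit [Pool.Agent.Lib.MP_1a91b9_nuT.CD] in
/-- `y² = x³ + a x + b` has a model with good reduction at `v` -/
def GdA {N : Type*} [Field N] [NumberField N] (a b : N) (v : HeightOneSpectrum (𝓞 N)) : Prop :=
  ∃ C₀ : VariableChange (v.adicCompletion N),
    GM.GoodW (Valued.v : Valuation (v.adicCompletion N) ℤᵐ⁰)
      (C₀ • (cv a b).baseChange (v.adicCompletion N))

end Pool.Agent.Lib.MP_1a91b9_nuX.QW
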