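import Pool.Agent.Lib.MP_1a91b9_nuX.QW.Defs

/-!
# The character `θ` of a form of the curve

PROOFS.
(1) `unit_of`: as `exists_eps` (MP_1a91b9_nuT/P/Unit.lean): `Per.stable_unit (O := Om) CR.base ht _ _ 1 S3.one_mem` gives
`t ∈ PP.lattice` (hypotheses: `cA ℂ * Om ^ 4 * t ^ 4 = cA ℂ * Om ^ 4`, `cA ℂ = ((CD.A : ℤ) : ℂ)` by `rfl`), the same for
`t⁻¹`; `S3.mem_PP_iff` gives `x y : 𝓞 K` with `embK x = t`, `embK y = t⁻¹`, `x * y = 1` by the injectivity of `embK`.
(2) `unit_quot`: `t' / t` by (1): `A (t' / t) ^ 4 = A t' ^ 4 / t ^ 4 = A`.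
(3) `exists_theta`: `L` is algebraic over `K` (number fields: `Module.Finite.of_restrictScalars_finite ℚ K L`), let
`g : L →ₐ[K] ℂ := IsAlgClosed.lift`. For `s : Gal(L/N)`: `s (algebraMap N L a) = algebraMap N L a`, so
`A (s u) ^ 4 = A u ^ 4`, `B (s u) ^ 6 = B u ^ 6` (`map_intCast`); apply `unit_quot` to `g u`, `g (s u)`: there is a
unit `x` with `embK x * g u = g (s u)`; `g (algebraMap K L x) = embK x` (`g.commutes`, `algebraMap K ℂ = embK` is `algebraMap_eq`
of MP_1a91b9_nuT), so `s u = algebraMap K L x * u` by the injectivity of `g`. Choose `θ s := x`. It is unique because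
`u ≠ 0` and `algebraMap K L`, `algebraMap (𝓞 K) K` are injective. `θ 1 = 1`; `θ (s t) = θ s θ t`: `(s * t) u = s (t u) =
s (algebraMap K L (θ t) * u) = algebraMap K L (θ t) * (algebraMap K L (θ s) * u)` (`s` fixes the image of `K`:
`IsScalarTower.algebraMap_apply K N L`, `s.commutes`). Use `MonoidHom.mk'`.
(4) `ScD.up`: `θ' s := θ (s restricted to F)`, `F / N` normal: `AlgEquiv.restrictNormalHom F`,
`AlgEquiv.restrictNormal_commutes`.
-/

set_option autoImplicit false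

namespace Pool.Agent.Lib.MP_1a91b9_nuX.QW

variable [Pool.Agent.Lib.MP_1a91b9_nuT.CD]

open NumberField IsDedekindDomain WeierstrassCurve Pool.Agent.Lib.MP_1a91b9_nuT

universe u

/-- an automorphism of the curve is a unit of `𝓞 K` -/
theorem unit_of {t : ℂ} (ht : t ≠ 0) (hA : (CD.A : ℂ) * t ^ 4 = (CD.A : ℂ))
    (hB : (CD.B : ℂ) * t ^ 6 = (CD.B : ℂ)) : ∃ x : (𝓞 K)ˣ, embK ((x : 𝓞 K) : K) = t := by
  have hA1 : cA ℂ * Om ^ 4 * t ^ 4 = cA ℂ * Om ^ 4 := by
    have h1 : cA ℂ * t ^ 4 = cA ℂ := hA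
    linear_combination Om ^ 4 * h1
  have hB1 : cB ℂ * Om ^ 6 * t ^ 6 = cB ℂ * Om ^ 6 := by
    have h1 : cB ℂ * t ^ 6 = cB ℂ := hB
    linear_combination Om ^ 6 * h1
  have hA2 : cA ℂ * Om ^ 4 * t⁻¹ ^ 4 = cA ℂ * Om ^ 4 := by
    rw [inv_pow, ← div_eq_mul_inv, div_eq_iff (pow_ne_zero 4 ht)]
    exact hA1.symm
  have hB2 : cB ℂ * Om ^ 6 * t⁻¹ ^ 6 = cB ℂ * Om ^ 6 := by
    rw [inv_pow, ← div_eq_mul_inv, div_eq_iff (pow_ne_zero 6 ht)]
    exact hB1.symm
  have h1 := Per.stable_unit Per.CR.base ht hA1 hB1 1 S3.one_mem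
  have h2 := Per.stable_unit Per.CR.base (inv_ne_zero ht) hA2 hB2 1 S3.one_mem
  rw [mul_one] at h1 h2
  obtain ⟨a, ha⟩ := S3.mem_PP_iff.1 h1
  obtain ⟨b, hb⟩ := S3.mem_PP_iff.1 h2
  have hab : a * b = 1 := by
    apply RingOfIntegers.ext
    apply embK.toRingHom.injective
    show embK ((a : K) * (b : K)) = embK ((1 : 𝓞 K) : K)
    have e1 : embK ((1 : 𝓞 K) : K) = 1 := map_one embK
    rw [map_mul, ha, hb, mul_inv_cancel₀ ht, e1]
  exact ⟨⟨a, b, hab, by rw [mul_comm, hab]⟩, ha⟩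

/-- two scaling factors of the same curve differ by a unit of `𝓞 K` -/
theorem unit_quot {t t' : ℂ} (ht : t ≠ 0) (ht' : t' ≠ 0)
    (hA : (CD.A : ℂ) * t' ^ 4 = (CD.A : ℂ) * t ^ 4) (hB : (CD.B : ℂ) * t' ^ 6 = (CD.B : ℂ) * t ^ 6) :
    ∃ x : (𝓞 K)ˣ, t' = embK ((x : 𝓞 K) : K) * t := by
  obtain ⟨x, hx⟩ := unit_of (t := t' / t) (div_ne_zero ht' ht)
    (by rw [div_pow, ← mul_div_assoc, hA, mul_div_cancel_right₀ _ (pow_ne_zero 4 ht)])
    (by rw [div_pow, ← mul_div_assoc, hB, mul_div_cancel_right₀ _ (pow_ne_zero 6 ht)])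
  exact ⟨x, by rw [hx, div_mul_cancel₀ _ ht]⟩

section
variable {N L : Type u} [Field N] [NumberField N] [Algebra K N] [Field L] [NumberField L]
  [Algebra K L] [Algebra N L] [IsScalarTower K N L]

omit [NumberField L] in
private theorem scb_inj {u : L} (hu : u ≠ 0) {x y : (𝓞 K)ˣ}
    (h : algebraMap K L ((x : 𝓞 K) : K) * u = algebraMap K L ((y : 𝓞 K) : K) * u) : x = y :=
  Units.ext (RingOfIntegers.ext ((algebraMap K L).injective (mul_right_cancel₀ hu h)))

theorem exists_theta {a b : N} {u : L} (hu : u ≠ 0) (ha : algebraMap N L a = (CD.A : L) * u ^ 4)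
    (hb : algebraMap N L b = (CD.B : L) * u ^ 6) : ∃ θ : Gal(L/N) →* (𝓞 K)ˣ, ScD a b u θ := by
  have hfin : Module.Finite K L := Module.Finite.of_restrictScalars_finite ℚ K L
  have halg : Algebra.IsAlgebraic K L := Algebra.IsAlgebraic.of_finite K L
  let g : L →ₐ[K] ℂ := IsAlgClosed.lift
  have hg : Function.Injective g := g.toRingHom.injective
  have key : ∀ s : Gal(L/N), ∃ x : (𝓞 K)ˣ, s u = algebraMap K L ((x : 𝓞 K) : K) * u := by
    intro s
    have hsu : s u ≠ 0 := fun h => hu (s.injective (h.trans (map_zero s).symm))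
    have h1 : (CD.A : L) * (s u) ^ 4 = (CD.A : L) * u ^ 4 := by
      have h2 := congrArg s ha
      rw [s.commutes, map_mul, map_pow, map_intCast, ha] at h2
      exact h2.symm
    have h2 : (CD.B : L) * (s u) ^ 6 = (CD.B : L) * u ^ 6 := by
      have h2 := congrArg s hb
      rw [s.commutes, map_mul, map_pow, map_intCast, hb] at h2
      exact h2.symm
    have h3 := congrArg g h1
    have h4 := congrArg g h2
    rw [map_mul, map_mul, map_pow, map_pow, map_intCast] at h3 h4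
    obtain ⟨x, hx⟩ := unit_quot (t := g u) (t' := g (s u))
      (fun h => hu (hg (h.trans (map_zero g).symm)))
      (fun h => hsu (hg (h.trans (map_zero g).symm))) h3 h4
    refine ⟨x, hg ?_⟩
    rw [map_mul, g.commutes, algebraMap_eq]
    exact hx
  choose θ hθ using key
  have hK : ∀ (s : Gal(L/N)) (x : K), s (algebraMap K L x) = algebraMap K L x := by
    intro s x
    rw [IsScalarTower.algebraMap_apply K N L, s.commutes]
  refine ⟨MonoidHom.mk' θ fun s t => scb_inj hu ?_, hu, ha, hb, hθ⟩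
  rw [← hθ, AlgEquiv.mul_apply, hθ t, map_mul, hK, hθ s]
  have h1 : (((θ s * θ t : (𝓞 K)ˣ) : 𝓞 K) : K) = ((θ s : 𝓞 K) : K) * ((θ t : 𝓞 K) : K) := by
    rw [Units.val_mul]
    exact map_mul (algebraMap (𝓞 K) K) _ _
  rw [h1, map_mul]
  ring

/-- the character is determined by `u` -/
theorem ScD.uniq {a b : N} {u : L} {θ θ' : Gal(L/N) →* (𝓞 K)ˣ} (h : ScD a b u θ)
    (h' : ScD a b u θ') : θ = θ' :=
  MonoidHom.ext fun s => scb_inj h.ne ((h.th s).symm.trans (h'.th s))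

end

section
variable {N F L : Type u} [Field N] [NumberField N] [Algebra K N] [Field F] [NumberField F]
  [Algebra K F] [Field L] [NumberField L] [Algebra K L] [Algebra N F] [Algebra N L] [Algebra F L]
  [IsScalarTower K N F] [IsScalarTower K N L] [IsScalarTower K F L] [IsScalarTower N F L]
  [Normal N F]

theorem ScD.up {a b : N} {u : F} {θ : Gal(F/N) →* (𝓞 K)ˣ} (h : ScD a b u θ) :
    ScD a b (algebraMap F L u) (θ.comp (AlgEquiv.restrictNormalHom F)) := by
  refine ⟨(map_ne_zero _).2 h.ne, ?_, ?_, fun s => ?_⟩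
  · rw [IsScalarTower.algebraMap_apply N F L, h.ha, map_mul, map_pow, map_intCast]
  · rw [IsScalarTower.algebraMap_apply N F L, h.hb, map_mul, map_pow, map_intCast]
  · have h1 := h.th (s.restrictNormal F)
    have h2 := AlgEquiv.restrictNormal_commutes s F u
    rw [h1, map_mul, ← IsScalarTower.algebraMap_apply K F L] at h2
    exact h2.symm

end

end Pool.Agent.Lib.MP_1a91b9_nuX.QW
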