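import Pool.Agent.Lib.MP_1a91b9_nuX.QW.Lv
import Pool.Agent.Lib.MP_1a91b9_nuX.QW.RatK
import Pool.Agent.Lib.MP_1a91b9_nuX.QW.Pe
import Pool.Agent.Lib.MP_1a91b9_nuX.QW.Tam
import Pool.Agent.Lib.MP_1a91b9_nuX.PX.Form

/-!
# The `ℓ`-part of the formula for a form `W` of the curve over a field which contains `K`

PROOF. `TwC a b`: `twC_of hs.ne hs.ha hs.hb`. `htam := tam_W ..`. `refine ⟨fun G hG hGW => ?_, card_sha_one hS, htam, hf, hc⟩`. `PX.formula` (MP_1a91b9_nuX/PX/Form.lean) with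
`hval := ⟨G, hG, hGW, _⟩`, `hrat := ⟨G, q, hG, hGW, _⟩`, `hper := period_W ..`.
`hU`: `Λ` entire, `Λ s = Lf (psbC N c) s` for `2 < re s`, `A.valuation (Λ 1 / Om ^ finrank K N) = 1` for `A` above `ℓ`.
(1) `G s * R s = conj (Λ (conj s)) * Λ s` for all `s` (`S4.entire_eq`, `S4.differentiable_conj_conj`; for `2 < re s`: `hRs`, `Complex.conj_re`), so
`G 1 * ρ = conj (Λ 1) * Λ 1 = ‖Λ 1‖ ^ 2` (see `hg1` in `rat_K0`, MP_1a91b9_nuX/RG/Fin.lean).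
(2) value: `A.valuation (G 1) = A.valuation (G 1 * ρ) = A.valuation Om ^ (2 finrank K N) = A.valuation Om ^ finrank ℚ N` (as in `lvalK0` of MP_1a91b9_nuX/PX/Val.lean, with
`Per.val_conj_div`, `Per.val_of_div`, `hA.comap`).
(3) rationality: `m` with `finrank K N = m + 1`, `σ`, `hσ` from `nf_exists` (as in `rat_K0`), `e i` from `exists_lift (σ i)` (`choose`), `bb := Module.finBasisOfFinrankEq K N hm`. `lvalT hT hs hg0 hg
σ hσ e he bb` gives `Λ'`, `κ`; `Λ = Λ'` (`S4.entire_eq`). `ratio_K` with `z := Λ 1` gives `q`: `‖Λ 1‖ ^ 2 √|disc N| = q ∏ perAt W v`; so `G 1 * √|disc N| = (q / ρ) ∏ perAt W v`.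
-/

set_option autoImplicit false

namespace Pool.Agent.Lib.MP_1a91b9_nuX.QW

variable [Pool.Agent.Lib.MP_1a91b9_nuT.CD]

open NumberField IsDedekindDomain WeierstrassCurve Pool.Agent.Lib.MP_1a91b9_nuT
open Pool.Agent.Lib.MP_1a91b9_nuG (up)
open Pool.Agent.Lib.MP_1a91b9_nuT.PL (Ab Concl)
open Pool.Agent.Lib.MP_1a91b9_nuT.Per (cv perAt)
open Pool.Agent.Lib.MP_1a91b9_nuT.S4 (Lf)
open Pool.Agent.Lib.MP_1a91b9_nuT3.S9 (ShaP)
open Pool.Agent.Lib.MP_1a91b9_nuX.AN (psbC)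
open Pool.Agent.Lib.MP_1a91b9_nuX.TC (RC cT UnitT)
open Pool.Agent.Lib.MP_1a91b9_nuX.TG (AbT gB)
open scoped Classical

variable [HC]

theorem concl_K {ℓ : ℕ} [hℓ : Fact ℓ.Prime] (hbad : ¬ (ℓ : ℤ) ∣ CD.bad) {μ : 𝓞 K} {N L : Type}
    [Field N] [NumberField N] [Algebra K N] [Field L] [NumberField L] [Algebra K L] [Algebra N L]
    [IsScalarTower K N L] [IsGalois N L] {T : DB.Pt L} (hT : AbT μ N T) {a b : N} {u : L}
    {θ : Gal(L/N) →* (𝓞 K)ˣ} (hs : ScD a b u θ) {g : 𝓞 K} (hg0 : g ≠ 0) (hg : gB μ ∣ g)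
    {W : WeierstrassCurve N} {D : VariableChange N} (hD : D • W = cv a b)
    (hU : UnitT ℓ Om N (cT N T (Ideal.span {up g N}) (thC θ)))
    (hgood : ∀ v : HeightOneSpectrum (𝓞 N), (ℓ : 𝓞 N) ∈ v.asIdeal → GdA a b v)
    (hdisc : IsCoprime (discr N) (ℓ : ℤ)) (hS : Subsingleton (ShaP ℓ W))
    (hf : Finite W.toAffine.Point) (hc : (Nat.card W.toAffine.Point).Coprime ℓ)
    {R : ℂ → ℂ} (hR : Differentiable ℂ R) (hRs : ∀ s : ℂ, 2 < s.re → W.LSeries s * R s =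
      (starRingEnd ℂ) (Lf (fun I => psbC N I * cT N T (Ideal.span {up g N}) (thC θ) I)
        ((starRingEnd ℂ) s)) *
      Lf (fun I => psbC N I * cT N T (Ideal.span {up g N}) (thC θ) I) s)
    {ρ : ℚ} (hR1 : R 1 = (ρ : ℂ)) (hρ : ∀ A : ValuationSubring ℂ, Ab ℓ A → A.valuation (ρ : ℂ) = 1) :
    Concl ℓ W := by
  have hTw : TwC a b := twC_of hs.ne hs.ha hs.hb
  have htam : ∀ v : HeightOneSpectrum (𝓞 N), (S9.tam W v).Coprime ℓ :=
    fun v => tam_W hTw hD hℓ.out hbad hgood v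
  have hper := period_W hTw hD hℓ.out hbad hgood
  obtain ⟨Λ, hΛ, hΛs, hΛv⟩ := hU
  -- the value at 1
  have key : ∀ G : ℂ → ℂ, Differentiable ℂ G → (∀ s : ℂ, 2 < s.re → G s = W.LSeries s) →
      G 1 * (ρ : ℂ) = (starRingEnd ℂ) (Λ 1) * Λ 1 := by
    intro G hG hGW
    have h1 : (fun s => G s * R s) =
        fun s => (starRingEnd ℂ) (Λ ((starRingEnd ℂ) s)) * Λ s := by
      refine S4.entire_eq (hG.mul hR) ((S4.differentiable_conj_conj hΛ).mul hΛ) ?_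
      intro s hs
      have hs' : 2 < ((starRingEnd ℂ) s).re := by
        rw [Complex.conj_re]
        exact hs
      show G s * R s = (starRingEnd ℂ) (Λ ((starRingEnd ℂ) s)) * Λ s
      rw [hGW s hs, hRs s hs, hΛs s hs, hΛs _ hs']
    have h2 : G 1 * R 1 = (starRingEnd ℂ) (Λ ((starRingEnd ℂ) 1)) * Λ 1 := congrFun h1 1
    rw [hR1, map_one] at h2
    exact h2
  -- the number ρ is not zero
  have hρ0 : (ρ : ℂ) ≠ 0 := by
    obtain ⟨A, hA⟩ : ∃ A : ValuationSubring ℂ, Ab ℓ A := Ell.d3_exists hℓ.out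
    intro h0
    have h1 := hρ A hA
    rw [h0, map_zero] at h1
    exact zero_ne_one h1
  -- rationality
  have hrat0 : ∃ q : ℚ, ‖Λ 1‖ ^ 2 * Real.sqrt |(discr N : ℝ)| =
      (q : ℝ) * ∏ v : InfinitePlace N, perAt W v := by
    have hex := nf_exists (F := N)
    obtain ⟨m, hm⟩ : ∃ m, Module.finrank K N = m + 1 :=
      Nat.exists_eq_succ_of_ne_zero Module.finrank_pos.ne'
    rw [hm] at hex
    obtain ⟨σ, hσ⟩ := hex
    choose e he using fun i => exists_lift (L := L) (σ i)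
    obtain ⟨Λ', κ, hΛ', hΛs', hΛ1⟩ := lvalT hT hs hg0 hg σ hσ e he
      (Module.finBasisOfFinrankEq K N hm)
    have hΛeq : Λ = Λ' := S4.entire_eq hΛ hΛ' fun s hs => by rw [hΛs s hs, hΛs' s hs]
    rw [← hΛeq] at hΛ1
    exact ratio_K hs.ne hs.ha hs.hb hσ he _ hΛ1 hD
  obtain ⟨q, hq⟩ := hrat0
  refine ⟨fun G hG hGW => ?_, PX.card_sha_one hS, htam, hf, hc⟩
  have hG1 := key G hG hGW
  refine PX.formula ⟨G, hG, hGW, ?_⟩ ⟨G, q / ρ, hG, hGW, ?_⟩ hper htam hdisc hc hS hG hGW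
  · intro A hA
    have h3 := congrArg A.valuation hG1
    rw [map_mul, map_mul, hρ A hA, mul_one, Per.val_conj_div (hΛv _ hA.comap),
      Per.val_of_div (hΛv _ hA), ← pow_add] at h3
    rw [h3, ← Module.finrank_mul_finrank ℚ K N, finrank_K]
    congr 1
    ring
  · have h4 : (starRingEnd ℂ) (Λ 1) * Λ 1 = ((‖Λ 1‖ ^ 2 : ℝ) : ℂ) := by
      rw [mul_comm, Complex.mul_conj, Complex.normSq_eq_norm_sq]
    have h5 : ((‖Λ 1‖ ^ 2 : ℝ) : ℂ) * ((Real.sqrt |(discr N : ℝ)| : ℝ) : ℂ) =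
        (q : ℂ) * ((∏ v : InfinitePlace N, perAt W v : ℝ) : ℂ) := by
      rw [← Complex.ofReal_mul, hq]
      push_cast
      rfl
    have h6 : G 1 = ((‖Λ 1‖ ^ 2 : ℝ) : ℂ) / (ρ : ℂ) := by
      rw [eq_div_iff hρ0, hG1, h4]
    rw [h6, div_mul_eq_mul_div, h5, Rat.cast_div]
    ring

end Pool.Agent.Lib.MP_1a91b9_nuX.QW
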