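import Pool.Agent.Lib.MP_1a91b9_nuX.QW.GluA
import Pool.Agent.Lib.MP_1a91b9_nuX.QW.FinK
import Pool.Agent.Lib.MP_1a91b9_nuX.TH.Sc
import Pool.Agent.Lib.MP_1a91b9_nuX.TH.Eul
import Pool.Agent.Lib.MP_1a91b9_nuX.TH.Twr
import Pool.Agent.Lib.MP_1a91b9_nuX.TH.Chw
import Pool.Agent.Lib.MP_1a91b9_nuX.TH.Ab
import Pool.Agent.Lib.MP_1a91b9_nuX.PX.Main

/-!
# The `ℓ`-part of the formula for a form `W` of the curve over a field `N` which contains `K`
-/

set_option autoImplicit false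

namespace Pool.Agent.Lib.MP_1a91b9_nuX.QW

open NumberField IsDedekindDomain WeierstrassCurve Module Pool.Agent.Lib.MP_1a91b9_nuT
open Pool.Agent.Lib.MP_1a91b9_nuX.DB Pool.Agent.Lib.MP_1a91b9_nuX.DX Pool.Agent.Lib.MP_1a91b9_nuX.GL
open Pool.Agent.Lib.MP_1a91b9_nuG (up)
open Pool.Agent.Lib.MP_1a91b9_nuX.PG (Gd bC)
open Pool.Agent.Lib.MP_1a91b9_nuX.PH (Fm Hv psP AbW hv_E)
open Pool.Agent.Lib.MP_1a91b9_nuX.TG Pool.Agent.Lib.MP_1a91b9_nuX.TC
open Pool.Agent.Lib.MP_1a91b9_nuX.TH (NaW GoodH ChW)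
open Pool.Agent.Lib.MP_1a91b9_nuX.AN
open Pool.Agent.Lib.MP_1a91b9_nuX.PX (pts_down sha_down_gal)
open Pool.Agent.Lib.MP_1a91b9_nuT.CF (IsFr exists_over exists_fr)
open Pool.Agent.Lib.MP_1a91b9_nuT.TG (exists_comp)
open Pool.Agent.Lib.MP_1a91b9_nuT.PL (Ab Concl coprime_discr)
open Pool.Agent.Lib.MP_1a91b9_nuT.Per (cv)
open Pool.Agent.Lib.MP_1a91b9_nuT3.S9 (ShaP)

universe u

variable [CD] [HC]

section
variable {μ : 𝓞 K} {N F L : Type u} [Field N] [NumberField N] [Algebra K N]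
  [Field F] [NumberField F] [Algebra K F] [Field L] [NumberField L] [Algebra K L]
  [Algebra N F] [Algebra N L] [Algebra F L] [IsScalarTower K N F] [IsScalarTower K N L]
  [IsScalarTower K F L] [IsScalarTower N F L] [IsGalois N L] [IsGalois N F] [DecidableEq L]

/-- the Hecke character of the form of the curve -/
theorem chW_sc (hE : EllK) {T : Pt L} (hT : AbT μ N T) {g : 𝓞 K} (hg0 : g ≠ 0) (hg : gB μ ∣ g)
    {a b : N} {u : F} {θ : Gal(F/N) →* (𝓞 K)ˣ} (hs : ScD a b u θ) {W : WeierstrassCurve N}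
    {D : VariableChange N} (hD : D • W = cv a b) {D₀ : VariableChange F}
    (hD₀ : D₀ • W.map (algebraMap N F) = E F) :
    ChW W (Ideal.span {up g N}) (cT N T (Ideal.span {up g N})
      (thC (θ.comp (AlgEquiv.restrictNormalHom F : Gal(L/N) →* Gal(F/N))))) := by
  have hm0 := span_up_ne hg0 N
  have hm := span_le_gB hg N
  have hmem : ∀ {v : HeightOneSpectrum (𝓞 N)}, ¬ Ideal.span {up g N} ≤ v.asIdeal →
      HC.f ∉ (v.under (𝓞 K)).asIdeal := by
    intro v hv hf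
    apply hv
    rw [Ideal.span_singleton_le_iff_mem]
    exact v.asIdeal.mem_of_dvd (map_dvd (algebraMap (𝓞 K) (𝓞 N)) ((f_dvd_gB μ).trans hg)) hf
  have hunr : ∀ v : HeightOneSpectrum (𝓞 N), ¬ Ideal.span {up g N} ≤ v.asIdeal →
      ¬ CF.Ram F v := by
    intro v hv h
    refine hv (hm.trans ?_)
    rw [Ideal.span_singleton_le_iff_mem]
    by_contra h1
    exact hT.not_ram v h1 (MP_1a91b9_nuT3.S8.ram_up v ((MP_1a91b9_nuG.ram_eq _).2 h))
  have hgd : ∀ v : HeightOneSpectrum (𝓞 N), ¬ Ideal.span {up g N} ≤ v.asIdeal → Gd W v := by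
    intro v hv
    obtain ⟨w, rfl⟩ := exists_over (k := N) (N := F) v
    refine TH.gd_down (hunr _ hv) ?_
    have h5 := hmem hv
    have e : ((w.under (𝓞 N)).under (𝓞 K)) = w.under (𝓞 K) :=
      HeightOneSpectrum.ext (Ideal.under_under _)
    rw [e] at h5
    exact (LG.gd_iso hD₀ w).2 (TH.gd_E h5)
  refine ⟨hm0, rc_cT _ hT hm0 (ne_one_of_le hm) hm, hgd, fun v hv => ?_⟩
  have h1 := twD_eq (F := F) hT hg θ (W := W) (fun w hw σ hσ =>
    TH.sc_val hE hs hD w (hmem hw) (hunr _ hw) (hgd _ hw) σ hσ) v hv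
  have h5 : psP W v.asIdeal = Hv W v := PG.psI_prime _ v
  rw [← h1, bC, h5]

end

/-- **The `ℓ`-part of the formula over a field which contains `K`.** -/
theorem thm_K (hE : EllK) {ℓ : ℕ} [hℓ : Fact ℓ.Prime] {μ : 𝓞 K} (N F F₀ L' : Type) [Field N]
    [NumberField N] [Algebra K N] [Field F] [NumberField F] [Algebra K F] [Field F₀]
    [NumberField F₀] [Algebra K F₀] [Field L'] [NumberField L'] [Algebra K L'] [Algebra N F]
    [Algebra F₀ F] [Algebra F₀ L'] [IsScalarTower K N F] [IsScalarTower K F₀ F]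
    [IsScalarTower K F₀ L'] [IsGalois K L'] [DecidableEq L'] {T : Pt L'} (hT : AbT μ K T)
    (hgen : IntermediateField.adjoin N (Set.range (algebraMap F₀ F)) = ⊤) {g : 𝓞 K}
    (hg0 : g ≠ 0) (hg : gB μ ∣ g) (hgℓ : IsCoprime g (ℓ : 𝓞 K))
    (h3 : ¬ ℓ ∣ 2 ^ finrank K F - 1) (hF : GoodH ℓ F) (hna : NaW ℓ g (E F))
    {W : WeierstrassCurve N} {C : VariableChange F} (hC : C • W.baseChange F = E F)
    (hgood : ∀ (a b : N) (D : VariableChange N), D • W = cv a b →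
      ∀ v : HeightOneSpectrum (𝓞 N), (ℓ : 𝓞 N) ∈ v.asIdeal → GdA a b v) :
    Concl ℓ W := by
  classical
  have hC' : C • W.map (algebraMap N F) = E F := hC
  have hGal : IsGalois N F := TC.galois_sub N F F₀ L' hT hgen
  obtain ⟨L, _, _, _, _, _, _, t1, t2, t3, t4, hG, hL⟩ := exists_comp N F F₀ L' hgen
  have hT' := hT.up (N := N) hL
  obtain ⟨a, b, u, D, hD, hu, ha, hb⟩ := LF.exists_shortC W C (a' := cA F) (b' := cB F) hC
  obtain ⟨θ, hs⟩ := exists_theta (N := N) (L := F) (a := a) (b := b) hu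
    (by rw [ha, mul_comm]) (by rw [hb, mul_comm])
  have hD' : D • W = cv a b := hD
  have hu' : ∀ q : HeightOneSpectrum (𝓞 K), (ℓ : 𝓞 K) ∈ q.asIdeal →
      ¬ MP_1a91b9_nuT3.Ram F q := fun q hq => not_ram_of_unr hF.unr hℓ.out.ne_zero q hq
  have hchW := chW_sc hE hT' hg0 hg hs hD' hC'
  have hU := unitT_sc hT' hg0 hg θ hℓ.out hF.good hgℓ h3 hu' (fun w hw hf => by
    have h4 : HC.f ∉ (w.under (𝓞 K)).asIdeal := hf
    have h5 := hna w hw (TH.gd_E h4)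
    rwa [hv_E hE h4] at h5) hF.unit
  have hW := TH.abW_of N F F₀ L' hT hgen hC'
  have hFm : Fm W := by
    obtain ⟨ι, D', hD'', -⟩ := hW
    exact ⟨ι, D', hD''⟩
  have hnaW : NaW ℓ g W := TH.naW_down hE hFm (TH.naW_iso C hC' hna)
  obtain ⟨R, ρ, hR, hRs, hR1, hρ⟩ := TH.eul_K hE hT.ne hW hchW hgℓ hnaW
  obtain ⟨hfW, hdvd⟩ := pts_down (N := N) (N' := F) hF.fin W C hC
  have hcW : (Nat.card W.toAffine.Point).Coprime ℓ := Nat.Coprime.coprime_dvd_left hdvd hF.cop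
  have hS : Subsingleton (ShaP ℓ W) := sha_down_gal (N := N) (N' := F) hF.sha hF.fin hF.cop W C hC
  have hdisc := coprime_discr hℓ.out N F hF.unr
  exact concl_K hF.good hT' hs.up hg0 hg hD' hU (hgood a b D hD') hdisc hS hfW hcW hR hRs hR1 hρ

end Pool.Agent.Lib.MP_1a91b9_nuX.QW
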