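import Pool.Agent.Lib.MP_1a91b9_nuX.RG.Dl

/-!
# The automorphisms of `ℂ` over `K` act on all the torsion points of order dividing `M` by the same element

PROOF. `pm_of_rl`: `DB.exists_uni`: `u0 : ℂ →+ Pt ℂ` surjective, kernel the lattice, coordinates `X`, `Y / 2`,
`u0 (embK a * z) = sm ℂ a (u0 z)`. Let `Q = u0 z`. `sm ℂ M Q = 0` gives `embK M * z ∈ PP.lattice` (`h5`, `h0`), so
`M z = embK a` for some `a : 𝓞 K` (`S3.mem_PP_iff`), `z = embK a / M`. `hχ a : Rel τ (embK a / M) (embK χ * embK a / M)`,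
and `Dl_act0` (private in MP_1a91b9_nuX/RG/Dl.lean; copy it, with the name `ptC_act0`) gives
`pm t (u0 z) = u0 (embK χ * embK a / M) = u0 (embK χ * z) = sm ℂ χ (u0 z)`.
`exists_alg` is `Dl_alg` of the same file.
-/

set_option autoImplicit false

namespace Pool.Agent.Lib.MP_1a91b9_nuX.QW

variable [Pool.Agent.Lib.MP_1a91b9_nuT.CD]

open NumberField Pool.Agent.Lib.MP_1a91b9_nuT Pool.Agent.Lib.MP_1a91b9_nuX.DB
open Pool.Agent.Lib.MP_1a91b9_nuT.Rq (Fix)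
open Pool.Agent.Lib.MP_1a91b9_nuX.RG (RlM)

theorem exists_alg {τ : ℂ ≃+* ℂ} (hτ : Fix τ) : ∃ t : ℂ ≃ₐ[K] ℂ, ∀ z, t z = τ z :=
  ⟨AlgEquiv.ofRingEquiv (f := τ) (fun x => Rq.fx_K hτ x), fun _ => rfl⟩

/-- the action of `τ` on the uniformisation of the curve -/
private theorem ptC_act0 [DecidableEq ℂ] {τ : ℂ ≃+* ℂ} {t : ℂ ≃ₐ[K] ℂ} (ht : ∀ z, t z = τ z)
    (u0 : ℂ →+ Pt ℂ) (h0 : ∀ z, u0 z = 0 ↔ z ∈ PP.lattice)
    (h1 : ∀ z, z ∉ PP.lattice → xc (u0 z) = S3.X z ∧ yc (u0 z) = S3.Y z / 2) {z w : ℂ}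
    (h : Rq.Rel τ z w) : pm (t : ℂ →ₐ[K] ℂ) (u0 z) = u0 w := by
  rcases h with ⟨hz, hw⟩ | ⟨hz, hw, hX, hY⟩
  · rw [(h0 z).2 hz, (h0 w).2 hw, map_zero]
  · have hz0 : u0 z ≠ 0 := fun e => hz ((h0 z).1 e)
    have hw0 : u0 w ≠ 0 := fun e => hw ((h0 w).1 e)
    have hp0 : pm (t : ℂ →ₐ[K] ℂ) (u0 z) ≠ 0 := by
      intro e
      apply hz0
      apply pm_inj (t : ℂ →ₐ[K] ℂ)
      rw [e, map_zero]
    refine pt_ext hp0 hw0 ?_ ?_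
    · rw [xc_pm, (h1 z hz).1, (h1 w hw).1, hX]
      exact ht _
    · rw [yc_pm, (h1 z hz).2, (h1 w hw).2, hY]
      have e : (t : ℂ →ₐ[K] ℂ) (S3.Y z / 2) = τ (S3.Y z / 2) := ht _
      rw [e, map_div₀, map_ofNat]

theorem pm_of_rl [DecidableEq ℂ] {M : ℕ} (hM : 0 < M) {τ : ℂ ≃+* ℂ} {t : ℂ ≃ₐ[K] ℂ}
    (ht : ∀ z, t z = τ z) {χ : 𝓞 K} (hχ : RlM τ M χ) (Q : Pt ℂ)
    (hQ : sm ℂ (M : 𝓞 K) Q = 0) : pm (t : ℂ →ₐ[K] ℂ) Q = sm ℂ χ Q := by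
  obtain ⟨u0, hs, h0, h1, h5⟩ := exists_uni
  obtain ⟨z, rfl⟩ := hs Q
  have hM0 : (M : ℂ) ≠ 0 := by exact_mod_cast hM.ne'
  have hMe : embK (((M : 𝓞 K) : 𝓞 K) : K) = M := by
    have h1 : (((M : 𝓞 K) : 𝓞 K) : K) = (M : K) := map_natCast (algebraMap (𝓞 K) K) M
    rw [h1, map_natCast]
  rw [← h5, h0, hMe, S3.mem_PP_iff] at hQ
  obtain ⟨a, ha⟩ := hQ
  have hz : z = embK (a : K) / M := by
    rw [ha]
    field_simp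
  have h6 := ptC_act0 ht u0 h0 h1 (hχ a)
  rw [hz, h6, ← h5]
  apply congrArg
  rw [mul_div_assoc]

end Pool.Agent.Lib.MP_1a91b9_nuX.QW
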