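import Pool.Agent.Lib.MP_1a91b9_nuX.QW.ScB
import Pool.Agent.Lib.MP_1a91b9_nuX.QW.Emb
import Pool.Agent.Lib.MP_1a91b9_nuX.QW.PtC

/-!
# The action of an automorphism of `ℂ` over `K` on the product of the conjugates of `u`

PROOF of `prod_act`. `classical`. `t : ℂ ≃ₐ[K] ℂ` with `t z = τ z` (`exists_alg`). `hσ` bijective: for every `i` there is a
unique `π i` with `σ (π i) = t ∘ σ i` (as `K`-algebra homomorphisms: `(t : ℂ →ₐ[K] ℂ).comp (σ i)`); `π` is injective (`t`, `σ` are),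
so bijective (`Finite.injective_iff_bijective`), `π : Equiv.Perm (Fin (m + 1))`.
`(t : ℂ →ₐ[K] ℂ).comp (e i)` and `e (π i)` agree on `N`, so by `exists_gal` (Emb) there is `h i : Gal(L/N)` with
`t (e i y) = e (π i) (h i y)` for all `y`.
(a) `τ (∏ i, e i u) = ∏ i, e (π i) (h i u) = ∏ i, embK (θ (h i)) * e (π i) u` (`hs.th`, `(e _).commutes`,
`algebraMap K ℂ = embK`: `algebraMap_eq`) `= (∏ i, embK (θ (h i))) * ∏ i, e i u` (`Finset.prod_mul_distrib`, `Equiv.prod_comp`).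
(b) `∏ i, θ (h i) = θ s` in `(𝓞 K)ˣ`. Let `g := (List.ofFn h).prod : Gal(L/N)`; `θ g = (List.ofFn (θ ∘ h)).prod = ∏ i, θ (h i)`
(`map_list_prod`, `List.map_ofFn`, `List.prod_ofFn`). So it is enough that `g = s`, and by `TC`s `AbT.uniq`
(`Pool.Agent.Lib.MP_1a91b9_nuX.TG.AbT.uniq : ga σ T = ga τ T → σ = τ`) that `ga g T = sm L (χ ^ (m + 1)) T`.
(c) `DB.gal_sm hT.ne hT.ord (h i)`: `c i : 𝓞 K` with `ga (h i) T = sm L (c i) T`. By induction on the list
(`ga_mul`, `ga_sm`, `ga_one`; `sm L` is a ring homomorphism): for every list `l` of pairs, `ga (l.map h).prod T = sm L ((l.map c).prod) T`;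
so `ga g T = sm L (∏ i, c i) T`. By `Ord.sm_eq_iff hT.ord` it is enough that `μ ∣ ∏ i, c i - χ ^ (m + 1)`.
(d) Let `T₀ := pm (e 0) T : Pt ℂ`, `Ord μ T₀` (`Ord.map`). For each `i`, `pm (e i) T` is killed by `μ`, so
`ord_cases (AlgHom.id K ℂ) hT.ne hord₀ _` gives `g i : 𝓞 K` with `pm (e i) T = sm ℂ (g i) T₀`, and `IsCoprime (g i) μ` by
`Ord.coprime` (`Ord.map` for `e i`).
`pm_of_rl hM ht hχ (pm (e i) T) _` (killed by `M` as `μ ∣ M`): `pm t (pm (e i) T) = sm ℂ χ (pm (e i) T) = sm ℂ (χ * g i) T₀`.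
On the other side `pm t (pm (e i) T) = pm (e (π i)) (ga (h i) T)` (`Affine.Point.map_map`, see `Dl_ga` in RG/Dl.lean and `h1` in
MP_1a91b9_nuX/PX/Gal.lean: the two `K`-algebra homomorphisms are equal, `AlgHom.ext`) `= sm ℂ (c i) (pm (e (π i)) T)` (`pm_sm`)
`= sm ℂ (c i * g (π i)) T₀`. So `μ ∣ c i * g (π i) - χ * g i` (`Ord.sm_eq_iff`).
(e) In `𝓞 K ⧸ span {μ}` (or with `Ideal.Quotient.mk`): `mk (c i) * mk (g (π i)) = mk χ * mk (g i)`; take the product over `i`: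
`mk (∏ c i) * mk (∏ g i) = mk χ ^ (m + 1) * mk (∏ g i)` (`Equiv.prod_comp π`, `Finset.prod_const`). `∏ g i` is coprime to `μ`
(`IsCoprime.prod_left`), so a unit in the quotient, and `mk (∏ c i) = mk (χ ^ (m + 1))`.
-/

set_option autoImplicit false

namespace Pool.Agent.Lib.MP_1a91b9_nuX.QW

variable [Pool.Agent.Lib.MP_1a91b9_nuT.CD]

open NumberField Pool.Agent.Lib.MP_1a91b9_nuT Pool.Agent.Lib.MP_1a91b9_nuX.DB
open Pool.Agent.Lib.MP_1a91b9_nuT.Rq (Fix)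
open Pool.Agent.Lib.MP_1a91b9_nuX.RG (RlM)
open Pool.Agent.Lib.MP_1a91b9_nuX.TG (AbT)

universe u

variable [HC]

section
variable {N L : Type u} [Field N] [Algebra K N] [Field L]
    [Algebra K L] [Algebra N L] [IsScalarTower K N L] [DecidableEq L]

omit [HC] in
private theorem act_list {T : Pt L} (l : List (Gal(L/N) × 𝓞 K))
    (hl : ∀ x ∈ l, ga x.1 T = sm L x.2 T) :
    ga (l.map Prod.fst).prod T = sm L (l.map Prod.snd).prod T := by
  induction l with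
  | nil =>
    rw [List.map_nil, List.map_nil, List.prod_nil, List.prod_nil, ga_one, map_one]
    rfl
  | cons x l ih =>
    have h1 := ih fun y hy => hl y (List.mem_cons_of_mem _ hy)
    have h2 := hl x List.mem_cons_self
    rw [List.map_cons, List.map_cons, List.prod_cons, List.prod_cons, ga_mul, h1, ga_sm, h2,
      mul_comm, map_mul]
    rfl

omit [HC] in
private theorem act_fin {T : Pt L} {n : ℕ} (h : Fin n → Gal(L/N)) (c : Fin n → 𝓞 K)
    (hc : ∀ i, ga (h i) T = sm L (c i) T) : ga (List.ofFn h).prod T = sm L (∏ i, c i) T := by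
  have h1 := act_list (T := T) (List.ofFn fun i => (h i, c i)) (fun x hx => by
    obtain ⟨i, rfl⟩ := (List.mem_ofFn' _ _).1 hx
    exact hc i)
  rw [List.map_ofFn, List.map_ofFn] at h1
  have h2 : (Prod.fst ∘ fun i => (h i, c i)) = h := rfl
  have h3 : (Prod.snd ∘ fun i => (h i, c i)) = c := rfl
  rw [h2, h3, List.prod_ofFn (f := c)] at h1
  exact h1

end

omit [HC] in
/-- the congruence for the product -/
private theorem act_congr {μ χ : 𝓞 K} {n : ℕ} (π : Equiv.Perm (Fin n)) {c g : Fin n → 𝓞 K}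
    (hg : ∀ i, IsCoprime (g i) μ) (h : ∀ i, μ ∣ c i * g (π i) - χ * g i) :
    μ ∣ ∏ i, c i - χ ^ n := by
  have h1 : ∀ i, Ideal.Quotient.mk (Ideal.span {μ}) (c i * g (π i)) =
      Ideal.Quotient.mk (Ideal.span {μ}) (χ * g i) := fun i =>
    Ideal.Quotient.eq.2 (Ideal.mem_span_singleton.2 (h i))
  have h2 : Ideal.Quotient.mk (Ideal.span {μ}) (∏ i, (c i * g (π i))) =
      Ideal.Quotient.mk (Ideal.span {μ}) (∏ i, (χ * g i)) := by
    rw [map_prod, map_prod]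
    exact Finset.prod_congr rfl fun i _ => h1 i
  have h3 : μ ∣ ∏ i, (c i * g (π i)) - ∏ i, (χ * g i) :=
    Ideal.mem_span_singleton.1 (Ideal.Quotient.eq.1 h2)
  have h4 : ∏ i, (c i * g (π i)) - ∏ i, (χ * g i) = (∏ i, c i - χ ^ n) * ∏ i, g i := by
    rw [Finset.prod_mul_distrib, Finset.prod_mul_distrib, Equiv.prod_comp π g, Finset.prod_const,
      Finset.card_univ, Fintype.card_fin, sub_mul]
  rw [h4] at h3
  exact (IsCoprime.prod_left fun i _ => hg i).symm.dvd_of_dvd_mul_right h3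

theorem prod_act {μ : 𝓞 K} {N L : Type u} [Field N] [NumberField N] [Algebra K N] [Field L]
    [NumberField L] [Algebra K L] [Algebra N L] [IsScalarTower K N L] [DecidableEq L]
    [IsGalois N L] {T : Pt L} (hT : AbT μ N T) {a b : N} {u : L} {θ : Gal(L/N) →* (𝓞 K)ˣ}
    (hs : ScD a b u θ) {m : ℕ} {σ : Fin (m + 1) → (N →ₐ[K] ℂ)} (hσ : Function.Bijective σ)
    {e : Fin (m + 1) → (L →ₐ[K] ℂ)} (he : ∀ i x, e i (algebraMap N L x) = σ i x)
    {τ : ℂ ≃+* ℂ} (hτ : Fix τ) {M : ℕ} (hM : 0 < M) (hμM : μ ∣ (M : 𝓞 K)) {χ : 𝓞 K}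
    (hχ : RlM τ M χ) {s : Gal(L/N)} (hsT : ga s T = sm L (χ ^ (m + 1)) T) :
    τ (∏ i, e i u) = embK (((θ s : (𝓞 K)ˣ) : 𝓞 K) : K) * ∏ i, e i u := by
  classical
  obtain ⟨t, ht⟩ := exists_alg hτ
  have hex : ∀ i, ∃ j, σ j = (t : ℂ →ₐ[K] ℂ).comp (σ i) := fun i => hσ.2 _
  choose p hp using hex
  have hpinj : Function.Injective p := by
    intro i j hij
    apply hσ.1
    have h1 : (t : ℂ →ₐ[K] ℂ).comp (σ i) = (t : ℂ →ₐ[K] ℂ).comp (σ j) := by
      rw [← hp, ← hp, hij]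
    apply AlgHom.ext
    intro x
    exact t.injective (DFunLike.congr_fun h1 x)
  obtain ⟨π, hπ⟩ : ∃ π : Equiv.Perm (Fin (m + 1)), ∀ i, π i = p i :=
    ⟨Equiv.ofBijective p (Finite.injective_iff_bijective.1 hpinj), fun _ => rfl⟩
  have hgal : ∀ i, ∃ s : Gal(L/N), ∀ y, ((t : ℂ →ₐ[K] ℂ).comp (e i)) y = e (π i) (s y) := by
    intro i
    refine exists_gal _ _ fun x => ?_
    rw [AlgHom.comp_apply, he, he, hπ, hp]
    rfl
  choose h hh using hgal
  have hgs : ∀ i, ∃ c : 𝓞 K, IsCoprime c μ ∧ ga (h i) T = sm L c T := fun i =>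
    gal_sm hT.ne hT.ord (h i)
  choose c hc1 hc2 using hgs
  have hord : ∀ i, MP_1a91b9_nuX.DB.Ord μ (pm (e i) T) := fun i => (Ord.map (e i)).2 hT.ord
  have hgi : ∀ i, ∃ g : 𝓞 K, pm (e i) T = sm ℂ g (pm (e 0) T) := fun i =>
    ord_cases (AlgHom.id K ℂ) hT.ne (hord 0) ((hord i μ).2 dvd_rfl)
  choose g hg using hgi
  have hgc : ∀ i, IsCoprime (g i) μ := by
    intro i
    refine (hord 0).coprime hT.ne ?_
    rw [← hg]
    exact hord i
  have hsmm : ∀ (a b : 𝓞 K) (Q : Pt ℂ), sm ℂ a (sm ℂ b Q) = sm ℂ (a * b) Q := by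
    intro a b Q
    rw [map_mul]
    rfl
  have hdv : ∀ i, μ ∣ c i * g (π i) - χ * g i := by
    intro i
    have h1 := pm_of_rl hM ht hχ (pm (e i) T) ((hord i _).2 hμM)
    have h2 : pm (t : ℂ →ₐ[K] ℂ) (pm (e i) T) = pm (e (π i)) (ga (h i) T) := by
      have e1 : (t : ℂ →ₐ[K] ℂ).comp (e i) =
          (e (π i)).comp (((h i : L ≃ₐ[N] L) : L →ₐ[N] L).restrictScalars K) :=
        AlgHom.ext fun y => hh i y
      unfold ga
      rw [WeierstrassCurve.Affine.Point.map_map, WeierstrassCurve.Affine.Point.map_map, e1]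
    rw [h2, hc2, pm_sm, hg i, hg (π i), hsmm, hsmm] at h1
    exact ((hord 0).sm_eq_iff _ _).1 h1
  have hcg := act_congr π hgc hdv
  have hgT := act_fin h c hc2
  have hgs' : (List.ofFn h).prod = s := by
    apply hT.uniq
    rw [hgT, hsT]
    exact (hT.ord.sm_eq_iff _ _).2 hcg
  have hθ : ∏ i, θ (h i) = θ s := by
    rw [← hgs', map_list_prod, List.map_ofFn, List.prod_ofFn]
    rfl
  have hθ' : ∏ i, embK (((θ (h i) : (𝓞 K)ˣ) : 𝓞 K) : K) =
      embK (((θ s : (𝓞 K)ˣ) : 𝓞 K) : K) := by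
    rw [← hθ, ← map_prod embK]
    congr 1
    rw [Units.coe_prod]
    exact (map_prod (algebraMap (𝓞 K) K) _ _).symm
  rw [map_prod, ← hθ']
  have hstep : ∀ i, τ (e i u) = embK (((θ (h i) : (𝓞 K)ˣ) : 𝓞 K) : K) * e (π i) u := by
    intro i
    have h1 : τ (e i u) = e (π i) (h i u) := by
      rw [← ht]
      exact hh i u
    rw [h1, hs.th, map_mul, AlgHom.commutes]
    rfl
  rw [Finset.prod_congr rfl fun i _ => hstep i, Finset.prod_mul_distrib]
  congr 1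
  exact Equiv.prod_comp π fun i => e i u

end Pool.Agent.Lib.MP_1a91b9_nuX.QW
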