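import Pool.Agent.Lib.MP_1a91b9_nuX.QW.Defs
import Pool.Agent.Lib.MP_1a91b9_nuT.Rq.Va
import Pool.Agent.Lib.MP_1a91b9_nuT.PL.Main

/-!
# Products over the embeddings and over the infinite places
-/

set_option autoImplicit false

namespace Pool.Agent.Lib.MP_1a91b9_nuX.QW

variable [Pool.Agent.Lib.MP_1a91b9_nuT.CD]

open NumberField Pool.Agent.Lib.MP_1a91b9_nuT
open scoped Classical

section
variable {N : Type*} [Field N] [NumberField N]

omit [Pool.Agent.Lib.MP_1a91b9_nuT.CD] in
theorem prod_fib {M : Type*} [CommMonoid M] (f : (N →+* ℂ) → M) :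
    ∏ φ : N →+* ℂ, f φ = ∏ v : InfinitePlace N,
      (if v.IsReal then f v.embedding
        else f v.embedding * f (ComplexEmbedding.conjugate v.embedding)) := by
  rw [← Finset.prod_fiberwise Finset.univ (InfinitePlace.mk : (N →+* ℂ) → InfinitePlace N) f]
  refine Finset.prod_congr rfl fun v _ => ?_
  have hset : (Finset.univ.filter fun φ : N →+* ℂ => InfinitePlace.mk φ = v) =
      {v.embedding, ComplexEmbedding.conjugate v.embedding} := by
    ext φ
    rw [Finset.mem_filter, Finset.mem_insert, Finset.mem_singleton]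
    constructor
    · rintro ⟨-, h⟩
      have h1 : InfinitePlace.mk φ = InfinitePlace.mk v.embedding := by
        rw [h, InfinitePlace.mk_embedding]
      rcases InfinitePlace.mk_eq_iff.1 h1 with h2 | h2
      · exact Or.inl h2
      · right
        rw [← h2]
        exact (ComplexEmbedding.involutive_conjugate N φ).symm
    · rintro (h | h)
      · rw [h]
        exact ⟨Finset.mem_univ _, InfinitePlace.mk_embedding v⟩
      · rw [h, InfinitePlace.mk_conjugate_eq]
        exact ⟨Finset.mem_univ _, InfinitePlace.mk_embedding v⟩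
  rw [hset]
  by_cases hv : v.IsReal
  · rw [if_pos hv]
    have h1 : ComplexEmbedding.conjugate v.embedding = v.embedding := by
      have h2 := InfinitePlace.isReal_iff.1 hv
      exact ComplexEmbedding.isReal_iff.1 h2
    rw [h1, Finset.pair_eq_singleton, Finset.prod_singleton]
  · rw [if_neg hv]
    have h1 : v.embedding ≠ ComplexEmbedding.conjugate v.embedding := by
      intro h
      exact hv (InfinitePlace.isReal_iff.2 (ComplexEmbedding.isReal_iff.2 h.symm))
    rw [Finset.prod_pair h1]

omit [Pool.Agent.Lib.MP_1a91b9_nuT.CD] in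
theorem prod_norm (x : N) : ∏ φ : N →+* ℂ, φ x = ((Algebra.norm ℚ x : ℚ) : ℂ) := by
  have h1 := Algebra.norm_eq_prod_embeddings ℚ ℂ x
  have h2 : ((Algebra.norm ℚ x : ℚ) : ℂ) = algebraMap ℚ ℂ (Algebra.norm ℚ x) := rfl
  rw [h2, h1]
  exact Fintype.prod_equiv (RingHom.equivRatAlgHom N ℂ) _ _ fun φ => rfl

end

section
variable {N : Type*} [Field N] [NumberField N] [Algebra K N]

theorem prod_normK {m : ℕ} {σ : Fin (m + 1) → (N →ₐ[K] ℂ)} (hσ : Function.Bijective σ) (x : N) :
    ∏ i, σ i x = embK (Algebra.norm K x) := by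
  have hfin : FiniteDimensional K N := Module.Finite.of_restrictScalars_finite ℚ K N
  have h1 := Algebra.norm_eq_prod_embeddings K ℂ x
  rw [algebraMap_eq] at h1
  rw [h1]
  exact Fintype.prod_equiv (Equiv.ofBijective σ hσ) _ _ fun i => rfl

theorem norm_tower (x : N) :
    |((Algebra.norm ℚ x : ℚ) : ℝ)| = ‖embK (Algebra.norm K x)‖ ^ 2 := by
  have h1 : Algebra.norm ℚ x = Algebra.norm ℚ (Algebra.norm K x) := Algebra.norm_norm.symm
  rw [h1]
  have h2 := S4.norm_K (Algebra.norm K x)
  rw [← h2]
  exact_mod_cast rfl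

end

theorem bij_emb {N F : Type*} [Field N] [NumberField N] [Field F] [NumberField F] [Algebra N F]
    [Algebra K F] (hL : Module.finrank N F = 2)
    (hn : ∀ x : N, algebraMap N F x ≠ algebraMap K F om) {m : ℕ}
    {σ : Fin (m + 1) → (F →ₐ[K] ℂ)} (hσ : Function.Bijective σ) :
    Function.Bijective (fun i => ((σ i : F →ₐ[K] ℂ) : F →+* ℂ).comp (algebraMap N F)) := by
  refine (Fintype.bijective_iff_injective_and_card _).2 ⟨?_, ?_⟩
  · intro i j hij
    apply hσ.1
    apply AlgHom.ext
    intro z
    obtain ⟨a, b, hz⟩ := Pool.Agent.Lib.MP_1a91b9_nuT.PL.exists_coord hL (algebraMap K F om) hn z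
    have e : ∀ y : N, σ i (algebraMap N F y) = σ j (algebraMap N F y) := fun y =>
      congrArg (fun f : N →+* ℂ => f y) hij
    rw [hz, map_add, map_add, map_mul, map_mul, e a, e b, (σ i).commutes, (σ j).commutes]
  · have h1 : m + 1 = Module.finrank K F := by
      have h2 := Fintype.card_congr (Equiv.ofBijective σ hσ)
      have hfin : FiniteDimensional K F := Module.Finite.of_restrictScalars_finite ℚ K F
      rw [Fintype.card_fin, AlgHom.card] at h2
      exact h2
    have h2 := Module.finrank_mul_finrank ℚ N F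
    have h3 := Module.finrank_mul_finrank ℚ K F
    rw [Fintype.card_fin, NumberField.Embeddings.card N ℂ, h1]
    rw [hL] at h2
    rw [finrank_K] at h3
    omega

end Pool.Agent.Lib.MP_1a91b9_nuX.QW
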