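import Pool.Agent.Lib.MP_1a91b9_nuX.QW.Defs
import Pool.Agent.Lib.MP_1a91b9_nuX.LF.Cls
import Pool.Agent.Lib.MP_1a91b9_nuX.PX.Iface
import Pool.Agent.Lib.MP_1a91b9_nuI.Ta.Tow

/-!
# Good reduction above `ℓ` of the forms of the curve over the fields of a tower
-/

set_option autoImplicit false

namespace Pool.Agent.Lib.MP_1a91b9_nuX.QW

variable [Pool.Agent.Lib.MP_1a91b9_nuT.CD]

open NumberField IsDedekindDomain WeierstrassCurve Pool.Agent.Lib.MP_1a91b9_nuT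
open Pool.Agent.Lib.MP_1a91b9_nuT.Per (cv)

theorem good_W {F₀ N L : Type*} [Field F₀] [NumberField F₀] [Field N] [NumberField N]
    [Field L] [NumberField L] [Algebra F₀ L] [Algebra N L] {ℓ : ℕ} (hℓ : ℓ.Prime)
    (hbad : ¬ (ℓ : ℤ) ∣ CD.bad)
    (hun : ∀ v : HeightOneSpectrum (𝓞 F₀), (ℓ : 𝓞 F₀) ∉ v.asIdeal ^ 2)
    (hR : ∀ (v : HeightOneSpectrum (𝓞 F₀)) (w : HeightOneSpectrum (𝓞 L)),
      v.asIdeal.map (algebraMap (𝓞 F₀) (𝓞 L)) ≤ w.asIdeal ^ 2 → (ℓ : 𝓞 F₀) ∉ v.asIdeal)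
    {W : WeierstrassCurve N} {C : VariableChange L} (hC : C • W.baseChange L = E L)
    (a b : N) (D : VariableChange N) (hD : D • W = cv a b) (v : HeightOneSpectrum (𝓞 N))
    (hv : (ℓ : 𝓞 N) ∈ v.asIdeal) : GdA a b v := by
  have e1 : D.map (algebraMap N L) • W.baseChange L = (cv a b).baseChange L := by
    show D.map (algebraMap N L) • W.map (algebraMap N L) = (cv a b).map (algebraMap N L)
    rw [WeierstrassCurve.map_variableChange, hD]
  obtain ⟨C', hC'⟩ : ∃ C' : VariableChange L, C' • (cv a b).baseChange L = E L := by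
    refine ⟨C * (D.map (algebraMap N L))⁻¹, ?_⟩
    rw [← e1, mul_smul, inv_smul_smul]
    exact hC
  have hC'' : C' • LF.crv (algebraMap N L a) (algebraMap N L b) = LF.crv (cA L) (cB L) := by
    have e2 : (cv a b).baseChange L = LF.crv (algebraMap N L a) (algebraMap N L b) :=
      LF.crv_map (algebraMap N L) a b
    rw [← e2]
    exact hC'
  obtain ⟨u, hu, ha, hb⟩ := LF.short_change hC''
  obtain ⟨J, hJ⟩ := CD.jint
  have hj : 6912 * a ^ 3 = (J : N) * (4 * a ^ 3 + 27 * b ^ 2) := by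
    have hJ' : (6912 : L) * (cA L) ^ 3 = (4 * (cA L) ^ 3 + 27 * (cB L) ^ 2) * (J : L) := by
      exact_mod_cast congrArg (fun z : ℤ => (z : L)) hJ
    apply (algebraMap N L).injective
    rw [map_mul, map_mul, map_pow, map_add, map_mul, map_mul, map_pow, map_pow, ha, hb,
      map_ofNat, map_ofNat, map_ofNat, map_intCast]
    linear_combination u ^ 12 * hJ'
  have hg : ¬ (ℓ : ℤ) ∣ 6 * (4 * CD.A ^ 3 + 27 * CD.B ^ 2) := by
    intro h1
    exact hbad ((h1.trans ⟨CD.nm * (CD.tr ^ 2 - 4 * CD.nm), by ring⟩).trans CD.bad_dvd)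
  exact Pool.Agent.Lib.MP_1a91b9_nuI.good_tower hℓ hun hR hj hg C' hC' v hv

end Pool.Agent.Lib.MP_1a91b9_nuX.QW
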