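import Pool.Agent.Lib.MP_1a91b9_nuX.QW.Ray

/-!
# The decomposition of the series of a ray class character by a complete system

PROOF. Copy the proof of `unfold_C` of MP_1a91b9_nuX/RG/Un.lean (and the private `Un_kk` with the name `unf_kk`), with these
changes. `m ≤ span {up HC.f F}`, so `IsCoprime (span {t i}) (span {up HC.f F})` (`h.tcop i` and
`IsCoprime.of_isCoprime_of_dvd_right`, `Ideal.dvd_iff_le`), the same for `b i`; `m ≠ 1` (`AN.up_span_ne_top`, `Ideal.one_eq_top`,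
`top_le_iff`). `g I := psbC F I * c I * (Ideal.absNorm I : ℂ) ^ (-s)`; the bound: `‖psbC F I * c I‖` by
`AN.norm_psbC_mul_le _ I (hc.le I)`; support: `hc.out I`. `kc c (b i) (t i) = kk (b i) (t i) * (c (span {t i}) / c (b i))`.
Term: for `I = e ⟨i, r⟩`, `I * b i = span {r}`, `r - t i ∈ m * b i ≤ m`: `c I * c (b i) = c (span {r}) = c (span {t i})` (`hc.mul`,
`rc_span`), `c (b i) ≠ 0` (`hcn`), so `c I = c (span {t i}) / c (b i)`; the rest of the term as there (`AN.unfold_term`).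
`up HC.f F ∣ r - t i` from `r - t i ∈ m ≤ span {up HC.f F}`.
-/

set_option autoImplicit false

namespace Pool.Agent.Lib.MP_1a91b9_nuX.QW

variable [Pool.Agent.Lib.MP_1a91b9_nuT.CD]

open NumberField IsDedekindDomain Pool.Agent.Lib.MP_1a91b9_nt Pool.Agent.Lib.MP_1a91b9_nuT
  Pool.Agent.Lib.MP_1a91b9_nuT.S4
open Pool.Agent.Lib.MP_1a91b9_nuG (up)
open Pool.Agent.Lib.MP_1a91b9_nuX.AN (psbC psC)
open Pool.Agent.Lib.MP_1a91b9_nuX.RG (CSys kk)
open Pool.Agent.Lib.MP_1a91b9_nuX.TC (RC)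

universe u

variable [HC] {F : Type u} [Field F] [NumberField F] [Algebra K F]

private theorem unf_kk {b : Ideal (𝓞 F)} {t : 𝓞 F} (ht : t ≠ 0) {ε : 𝓞 K}
    (hε : psi F (Ideal.span {t}) = ε * nK t) :
    kk b t = (starRingEnd ℂ) (embK (ε : K)) / psbC F b := by
  have hN : (starRingEnd ℂ) (Nm (t : F)) ≠ 0 := by
    rw [Ne, map_eq_zero]
    refine Nm_ne_zero ?_
    intro h
    exact ht (RingOfIntegers.coe_injective (h.trans (map_zero (algebraMap (𝓞 F) F)).symm))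
  have h1 : psbC F (Ideal.span {t}) =
      (starRingEnd ℂ) (Nm (t : F)) * (starRingEnd ℂ) (embK (ε : K)) := by
    rw [psbC, psC, hε, ← embK_nK, ← map_mul]
    change (starRingEnd ℂ) (embK (algebraMap (𝓞 K) K (_ * _))) = _
    rw [map_mul, map_mul, mul_comm]
  rw [kk, h1, mul_div_mul_left _ _ hN]

theorem unfold_T {m : Ideal (𝓞 F)} (hm : m ≤ Ideal.span {up HC.f F}) {c : Ideal (𝓞 F) → ℂ}
    (hc : RC m c) (hcn : ∀ I : Ideal (𝓞 F), IsCoprime I m → c I ≠ 0)
    {ι : Type u} [Fintype ι] {b : ι → Ideal (𝓞 F)} {t : ι → 𝓞 F}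
    (h : CSys m b t) (A : ι → ℂ → ℂ)
    (hA : ∀ i R, IsRep m (b i) (t i) R → ∀ s : ℂ, 2 < s.re →
        HasSum (fun r : R => (starRingEnd ℂ) (Nm ((r : 𝓞 F) : F)) *
          ((‖Nm ((r : 𝓞 F) : F)‖ : ℝ) : ℂ) ^ (-2 * s)) (A i s)) (s : ℂ) (hs : 2 < s.re) :
    Lf (fun I => psbC F I * c I) s =
      ∑ i, kc c (b i) (t i) * (Ideal.absNorm (b i) : ℂ) ^ s * A i s := by
  classical
  have hm1 : m ≠ 1 := fun h0 => AN.up_span_ne_top (F := F) (by
    rw [h0, Ideal.one_eq_top, top_le_iff] at hm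
    rw [hm, Ideal.one_eq_top])
  have hdv : Ideal.span {up HC.f F} ∣ m := Ideal.dvd_iff_le.mpr hm
  have hcopU : ∀ I : Ideal (𝓞 F), IsCoprime I m → IsCoprime I (Ideal.span {up HC.f F}) :=
    fun I hI => IsCoprime.of_isCoprime_of_dvd_right hI hdv
  choose ε hε using fun i => AN.psi_span (t i) (hcopU _ (h.tcop i))
  have hNb : ∀ i, (Ideal.absNorm (b i) : ℂ) ≠ 0 := by
    intro i
    have := Ideal.absNorm_ne_zero_iff_mem_nonZeroDivisors.mpr
      (mem_nonZeroDivisors_iff_ne_zero.mpr (h.ne i))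
    exact_mod_cast this
  have hpb : ∀ i, psbC F (b i) ≠ 0 := by
    intro i h0
    apply hNb i
    rw [← AN.psC_mul_psbC (b i) (hcopU _ (h.cop i)), h0, mul_zero]
  have hkk : ∀ i, kk (b i) (t i) =
      (starRingEnd ℂ) (embK ((ε i : 𝓞 K) : K)) / psbC F (b i) := fun i =>
    unf_kk (h.tne i) (hε i (t i) (by rw [sub_self]; exact dvd_zero _))
  choose R hR using fun i => exists_isRep m (b i) (t i)
  obtain ⟨e, hinj, he, hsurj⟩ := h.ray R hR
  obtain ⟨g, hg⟩ : ∃ g : Ideal (𝓞 F) → ℂ, ∀ I, g I =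
      psbC F I * c I * (Ideal.absNorm I : ℂ) ^ (-s) :=
    ⟨_, fun _ => rfl⟩
  have hs0 : s.re ≠ 0 := by
    intro h0
    rw [h0] at hs
    linarith
  have hsum : Summable g := by
    refine Summable.of_norm ?_
    have h2 := summable_ideals_mul F
      (fun I => psbC F I * c I) 1 (1 / 2) (fun I => ?_) s
      (by linarith) hs0
    · refine h2.congr fun I => ?_
      rw [hg]
    · rw [one_mul]
      exact AN.norm_psbC_mul_le _ I (hc.le I)
  have hsupp : Function.support g ⊆ Set.range e := by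
    intro I hI
    by_cases hcI : IsCoprime I m
    · exact hsurj I hcI
    · exfalso
      apply hI
      rw [hg, hc.out I hcI, mul_zero, zero_mul]
  have h1 : Lf (fun I => psbC F I * c I) s = ∑' x, g (e x) := by
    rw [hinj.tsum_eq hsupp]
    exact tsum_congr fun I => (hg I).symm
  rw [h1]
  have hsum' : Summable fun x => g (e x) := hsum.comp_injective hinj
  rw [hsum'.tsum_sigma, tsum_fintype]
  refine Finset.sum_congr rfl fun i _ => ?_
  have hkc : kc c (b i) (t i) = kk (b i) (t i) * (c (Ideal.span {t i}) / c (b i)) := rfl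
  rw [hkc, hkk i]
  obtain ⟨C, hC⟩ : ∃ C : ℂ, C = (starRingEnd ℂ) (embK ((ε i : 𝓞 K) : K)) / psbC F (b i) *
      (c (Ideal.span {t i}) / c (b i)) * (Ideal.absNorm (b i) : ℂ) ^ s := ⟨_, rfl⟩
  rw [← hC]
  have hterm : ∀ r : R i, g (e ⟨i, r⟩) = C * ((starRingEnd ℂ) (Nm ((r : 𝓞 F) : F)) *
          ((‖Nm ((r : 𝓞 F) : F)‖ : ℝ) : ℂ) ^ (-2 * s)) := by
    intro r
    obtain ⟨g1, g2⟩ := he ⟨i, r⟩
    have g2' : e ⟨i, r⟩ * b i = Ideal.span {(r : 𝓞 F)} := g2
    have hr0 : (r : 𝓞 F) ≠ 0 := by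
      intro h0
      rw [h0, Ideal.span_singleton_zero, ← Ideal.zero_eq_bot] at g2'
      rcases mul_eq_zero.mp g2' with h' | h'
      · rw [h'] at g1
        have g3 := isCoprime_zero_left.mp g1
        rw [Ideal.isUnit_iff] at g3
        exact hm1 (by rw [g3, Ideal.one_eq_top])
      · exact h.ne i h'
    have hrm : (r : 𝓞 F) - t i ∈ m := Ideal.mul_le_left ((hR i).mem r r.2)
    have hrt : up HC.f F ∣ (r : 𝓞 F) - t i := by
      rw [← Ideal.mem_span_singleton]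
      exact hm hrm
    have hcI : c (e ⟨i, r⟩) = c (Ideal.span {t i}) / c (b i) := by
      rw [eq_div_iff (hcn _ (h.cop i)), ← hc.mul, g2']
      exact rc_span hc hm1 (h.tcop i) hrm
    have h3 := AN.unfold_term (e ⟨i, r⟩) (b i) r (ε i) (h.ne i) hr0 (hpb i) g2' (hε i r hrt) (c (e ⟨i, r⟩)) s
    rw [hg, h3, hC, hcI]
    ring
  rw [tsum_congr hterm]
  exact ((hA i (R i) (hR i) s hs).mul_left C).tsum_eq

end Pool.Agent.Lib.MP_1a91b9_nuX.QW
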