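import Pool.Agent.Lib.MP_1a91b9_nuX.QW.Act
import Pool.Agent.Lib.MP_1a91b9_nuX.QW.Unf
import Pool.Agent.Lib.MP_1a91b9_nuX.RG.Lv
import Pool.Agent.Lib.MP_1a91b9_nuX.PX.Gal

/-!
# The value at `1` of the series of `ψbar_N c` times the product of the conjugates of `u`

PROOF. Copy the proof of `lval` of MP_1a91b9_nuX/RG/Lv.lean (and the private `Lv_norm_one`, with the name `lv_norm_one`, for a
unit congruent to `1` modulo `up g N`: `nK_congr HC.f`, `HC.f ∣ g`) with these changes.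
`m₀ := Ideal.span {up g N}` instead of `span {up HC.f F}`; `HC.f ∣ gB μ ∣ g` (`TG.f_dvd_gB`), so `m₀ ≤ span {up HC.f N}`,
`m₀ ≤ span {up (gB μ) N}`, `m₀ ≠ 1` (`AN.up_span_ne_top`), `r` of `HC.hd.big` divides `g`.
`c := cT N T m₀ (thC θ)`, `hc : RC m₀ c := TC.rc_cT (thC θ) hT h30 h31 _`, `hcn := fun I hI => cT_ne (thC θ) hI`.
`hsum`: `∑ i, kc c (b i) (t' i) * (Ideal.absNorm (b i) : ℂ) ^ s * A i s = Lf (fun I => psbC N I * c I) s`: `(unfold_T ..).symm`; nothing more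
(no Euler factors). `M₁ := absNorm (span {g})`: `0 < M₁`, `g ∣ (M₁ : 𝓞 K)`, so `HC.f`, `CD.bad` and `μ` divide `M₁`
(`TG.six_dvd_gB`, `μ ∣ nAb μ` is `TG.dvd_nAb`, `TG.nAb_dvd_gB`). `Hact τ g χ₀` from `exists_act2`, `g ∣ M₁`. `RG.ps_act hM0 _ (PX.galPs hM0) hτ hRl`.
For `τ` with `Fix τ`, `χ₀`: `c_chi` gives `s₀` with `ga s₀ T = sm L (χ₀ ^ (m + 1)) T` (`finrank K N = m + 1`) and
`c (span {χ₀}) = embK (θ s₀) =: ζ`; `kc_smul : kc c (b i) (χ₀ t i) = ζ * kc c (b i) (t i)`; `τ (kc c (b i) (t i)) = kc c (b i) (t i)` (`kc_mem` with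
`cT_mem`, `Rq.fx_K`). As there `S / C = ∑ kc c (b i) (χ₀ t i) N(b i) (A' i 1 / C) = ζ ∑ kc c (b i) (t i) N(b i) (A' i 1 / C)
= ζ τ (S / C)`, `C = Om ^ (m + 1) * dt σ bb`. With `Θ = ∏ i, e i u`: `τ Θ = ζ Θ` (`prod_act`), so
`τ (S / C * Θ) = S / C * Θ` for every `τ` (`ζ ≠ 0`). `Rg.mem_K` gives `x`.
-/

set_option autoImplicit false

namespace Pool.Agent.Lib.MP_1a91b9_nuX.QW

variable [Pool.Agent.Lib.MP_1a91b9_nuT.CD]

open NumberField IsDedekindDomain Pool.Agent.Lib.MP_1a91b9_nt Pool.Agent.Lib.MP_1a91b9_nuT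
  Pool.Agent.Lib.MP_1a91b9_nuT.S4
open Pool.Agent.Lib.MP_1a91b9_nuX.DB
open Pool.Agent.Lib.MP_1a91b9_nuG (up)
open Pool.Agent.Lib.MP_1a91b9_nuX.AN (psbC psC)
open Pool.Agent.Lib.MP_1a91b9_nuT.Rq (dt Fix)
open Pool.Agent.Lib.MP_1a91b9_nuX.TC (RC cT)
open Pool.Agent.Lib.MP_1a91b9_nuX.TG (AbT gB)

variable [HC]

private theorem lv_norm_one {F : Type} [Field F] [NumberField F] [Algebra K F] (u : (𝓞 F)ˣ)
    (hu : u ∈ unV (Ideal.span {up HC.f F})) : Algebra.norm K ((u : 𝓞 F) : F) = 1 := by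
  have h1 : algebraMap (𝓞 K) (𝓞 F) HC.f ∣ (u : 𝓞 F) - 1 := Ideal.mem_span_singleton.1 hu
  have h2 := S4.nK_congr (F := F) HC.f (u : 𝓞 F) 1 h1
  rw [S4.nK_one] at h2
  have h3 : IsUnit (S4.nK (u : 𝓞 F)) := u.isUnit.map (Algebra.intNorm (𝓞 K) (𝓞 F))
  obtain ⟨u', hu'⟩ := h3
  rw [← hu'] at h2
  have h4 := HC.hd.inj u' h2
  have h5 : (S4.nK (u : 𝓞 F) : 𝓞 K) = 1 := by rw [← hu', h4, Units.val_one]
  rw [← S4.nK_coe, h5]
  exact map_one _

theorem lvalT {μ : 𝓞 K} {N L : Type} [Field N] [NumberField N] [Algebra K N] [Field L]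
    [NumberField L] [Algebra K L] [Algebra N L] [IsScalarTower K N L] [DecidableEq L]
    [IsGalois N L] {T : Pt L} (hT : AbT μ N T) {a b : N} {u : L} {θ : Gal(L/N) →* (𝓞 K)ˣ}
    (hs : ScD a b u θ) {g : 𝓞 K} (hg0 : g ≠ 0) (hg : gB μ ∣ g) {m : ℕ}
    (σ : Fin (m + 1) → (N →ₐ[K] ℂ)) (hσ : Function.Bijective σ)
    (e : Fin (m + 1) → (L →ₐ[K] ℂ)) (he : ∀ i x, e i (algebraMap N L x) = σ i x)
    (bb : Module.Basis (Fin (m + 1)) K N) :
    ∃ (Λ : ℂ → ℂ) (x : K), Differentiable ℂ Λ ∧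
      (∀ s : ℂ, 2 < s.re →
        Λ s = Lf (fun I => psbC N I * cT N T (Ideal.span {up g N}) (thC θ) I) s) ∧
      Λ 1 * ∏ i, e i u = Om ^ (m + 1) * dt σ bb * embK x := by
  have hn : Module.finrank K N = m + 1 := nf_card σ hσ
  have hfg : HC.f ∣ g := (TG.f_dvd_gB μ).trans hg
  obtain ⟨q, hq, hq3, h2, h2n, hfq⟩ := Rg.exists_q g hg0 (Module.finrank K N) (by omega)
  have h3q : Nat.Coprime 3 q := (Nat.coprime_primes Nat.prime_three hq).2 (Ne.symm hq3)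
  have hinj := FaithfulSMul.algebraMap_injective (𝓞 K) (𝓞 N)
  have hle : Ideal.span {up g N} ≤ Ideal.span {up HC.f N} := by
    rw [Ideal.span_singleton_le_span_singleton]
    exact map_dvd (algebraMap (𝓞 K) (𝓞 N)) hfg
  have hleB : Ideal.span {up g N} ≤ Ideal.span {up (gB μ) N} := by
    rw [Ideal.span_singleton_le_span_singleton]
    exact map_dvd (algebraMap (𝓞 K) (𝓞 N)) hg
  have h30 : Ideal.span {up g N} ≠ 0 := by
    rw [Ne, Ideal.zero_eq_bot, Ideal.span_singleton_eq_bot]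
    intro h
    exact hg0 (hinj (by rw [map_zero]; exact h))
  have h31 : Ideal.span {up g N} ≠ 1 := by
    intro h
    have h' : Ideal.span {up HC.f N} = 1 := by
      rw [Ideal.one_eq_top] at h ⊢
      rw [h] at hle
      exact top_le_iff.1 hle
    exact AN.up_span_ne_top h'
  have h32 : IsCoprime (Ideal.span {up g N}) (Ideal.span {(q : 𝓞 N)}) := by
    rw [Ideal.isCoprime_span_singleton_iff]
    have h := hfq.map (algebraMap (𝓞 K) (𝓞 N))
    rwa [map_natCast] at h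
  obtain ⟨r, hr3, hrf⟩ := HC.hd.big
  have h33 : Ideal.span {up g N} ≤ Ideal.span {(r : 𝓞 N)} := by
    rw [Ideal.span_singleton_le_span_singleton]
    have h := map_dvd (algebraMap (𝓞 K) (𝓞 N)) (hrf.trans hfg)
    rwa [map_natCast] at h
  have hc0 : Ideal.span {(q : 𝓞 N)} ≠ 0 := by
    rw [Ne, Ideal.zero_eq_bot, Ideal.span_singleton_eq_bot]
    exact_mod_cast hq.ne_zero
  have hu : ∀ v ∈ unV (Ideal.span {up g N}), Algebra.norm K ((v : 𝓞 N) : N) = 1 :=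
    fun v hv => lv_norm_one v (hle hv)
  have htor : ∀ v ∈ unV (Ideal.span {up g N}), ∀ k : ℕ, 0 < k → v ^ k = 1 → v = 1 :=
    fun v hv k hk hvk => un_tors _ r hr3 h33 v hv k hk hvk
  have hc : RC (Ideal.span {up g N}) (cT N T (Ideal.span {up g N}) (thC θ)) :=
    TC.rc_cT (thC θ) hT h30 h31 hleB
  have hcn : ∀ I : Ideal (𝓞 N), IsCoprime I (Ideal.span {up g N}) →
      cT N T (Ideal.span {up g N}) (thC θ) I ≠ 0 := fun I hI => cT_ne (thC θ) hI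
  have hcm : ∀ I : Ideal (𝓞 N), ∃ y : K, embK y = cT N T (Ideal.span {up g N}) (thC θ) I :=
    fun I => cT_mem (Ideal.span {up g N}) θ I
  obtain ⟨ι, hι, b, t, hC, hbc⟩ := RG.exists_csys (Ideal.span {up g N}) (Ideal.span {(q : 𝓞 N)})
    h30 h31 hc0
  have hgood : ∀ t' : ι → 𝓞 N, RG.CSys (Ideal.span {up g N}) b t' → ∀ i, ∃ G : ℂ → ℂ,
      Differentiable ℂ G ∧ (∀ X : Set N, IsRepsU (Ideal.span {up g N})
        (cls (b i) (Ideal.span {up g N}) (t' i)) X →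
        ∀ s : ℂ, 2 < s.re → HasSum (fun z : X => term s (z : N)) (G s)) := fun t' hC' i =>
    Ell.co_entire hq 3 le_rfl h3q 2 h2 h2n σ hσ (b i) (Ideal.span {up g N}) (hC'.ne i) h30 h32 hu
      htor (t' i) (hC'.mem i) (hC'.notMem i)
  have hNb : ∀ i, (Ideal.absNorm (b i) : ℂ) ≠ 0 := by
    intro i
    have := Ideal.absNorm_ne_zero_iff_mem_nonZeroDivisors.mpr
      (mem_nonZeroDivisors_iff_ne_zero.mpr (hC.ne i))
    exact_mod_cast this
  have hsum : ∀ (t' : ι → 𝓞 N), RG.CSys (Ideal.span {up g N}) b t' → ∀ (A : ι → ℂ → ℂ),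
      (∀ i, (∀ X : Set N, IsRepsU (Ideal.span {up g N})
        (cls (b i) (Ideal.span {up g N}) (t' i)) X →
        ∀ s : ℂ, 2 < s.re → HasSum (fun z : X => term s (z : N)) (A i s))) →
      ∀ s : ℂ, 2 < s.re → ∑ i, kc (cT N T (Ideal.span {up g N}) (thC θ)) (b i) (t' i) *
        (Ideal.absNorm (b i) : ℂ) ^ s * A i s =
        Lf (fun I => psbC N I * cT N T (Ideal.span {up g N}) (thC θ) I) s := by
    intro t' hC' A hAs s hs
    exact (unfold_T hle hc hcn hC' A (fun i R hR s hs => S7.hasSum_coe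
      (hAs i _ (S7.repsU_of_isRep (hC'.notMem i) hR) s hs)) s hs).symm
  have hdiff : ∀ (t' : ι → 𝓞 N) (A : ι → ℂ → ℂ), (∀ i, Differentiable ℂ (A i)) →
      Differentiable ℂ fun s : ℂ => ∑ i, kc (cT N T (Ideal.span {up g N}) (thC θ)) (b i) (t' i) *
        (Ideal.absNorm (b i) : ℂ) ^ s * A i s := by
    intro t' A hA
    refine Differentiable.fun_sum fun i _ => ?_
    refine Differentiable.mul ?_ (hA i)
    refine Differentiable.mul (differentiable_const _) ?_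
    exact (differentiable_id).const_cpow (Or.inl (hNb i))
  choose A hA hAs using hgood t hC
  have hΩ : Om ^ (m + 1) * dt σ bb ≠ 0 := mul_ne_zero (pow_ne_zero _ Om_ne) (Rq.dt_ne σ hσ bb)
  have hM0 : 0 < TG.nAb g := Nat.pos_of_ne_zero (TG.nAb_ne hg0)
  have hM1 : g ∣ ((TG.nAb g : ℕ) : 𝓞 K) := TG.dvd_nAb g
  have hμM : μ ∣ ((TG.nAb g : ℕ) : 𝓞 K) :=
    (((TG.dvd_nAb μ).trans (TG.nAb_dvd_gB μ)).trans hg).trans hM1
  set S : ℂ := ∑ i, kc (cT N T (Ideal.span {up g N}) (thC θ)) (b i) (t i) *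
    (Ideal.absNorm (b i) : ℂ) ^ (1 : ℂ) * A i 1 with hS
  have hfix : ∀ τ : ℂ ≃+* ℂ, Fix τ →
      τ (S / (Om ^ (m + 1) * dt σ bb) * ∏ i, e i u) =
        S / (Om ^ (m + 1) * dt σ bb) * ∏ i, e i u := by
    intro τ hτ
    obtain ⟨χ₀, hcop, hRl, hact⟩ := RG.exists_act2 hτ (TG.nAb g) hM0
    have hactf : RG.Hact τ g χ₀ := by
      intro M hM
      obtain ⟨χ, h3, h4, h5⟩ := hact M hM
      exact ⟨χ, hM1.trans h3, h4, h5⟩
    have hps := RG.ps_act hM0 (hfg.trans hM1) (PX.galPs hM0) hτ hRl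
    have hcg : IsCoprime χ₀ g := hcop.of_isCoprime_of_dvd_right hM1
    have hcf : IsCoprime χ₀ HC.f := hcg.of_isCoprime_of_dvd_right hfg
    have hχ0 : χ₀ ≠ 0 := by
      rintro rfl
      rw [isCoprime_zero_left] at hcf
      exact AN.f_not_isUnit hcf
    have hX0 : algebraMap (𝓞 K) (𝓞 N) χ₀ ≠ 0 := fun h => hχ0 (hinj (by rw [map_zero]; exact h))
    have hX : IsCoprime (Ideal.span {algebraMap (𝓞 K) (𝓞 N) χ₀}) (Ideal.span {up g N}) := by
      rw [Ideal.isCoprime_span_singleton_iff]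
      exact hcg.map (algebraMap (𝓞 K) (𝓞 N))
    have hC' := RG.CSys.smul h31 hC hX hX0
    choose A' hA' hAs' using hgood (fun i => algebraMap (𝓞 K) (𝓞 N) χ₀ * t i) hC'
    have hval : ∀ i, τ (A i 1 / (Om ^ (m + 1) * dt σ bb)) = A' i 1 / (Om ^ (m + 1) * dt σ bb) :=
      fun i => RG.val_act hτ hactf hg0 σ hσ hu htor (b i) (hC.ne i) (t i) (hC.mem i)
        (hC.notMem i) (hC'.notMem i) (A i) (hA i) (hAs i) (A' i) (hA' i) (hAs' i) bb
    have hL : (fun s : ℂ => ∑ i, kc (cT N T (Ideal.span {up g N}) (thC θ)) (b i) (t i) *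
          (Ideal.absNorm (b i) : ℂ) ^ s * A i s) =
        fun s : ℂ => ∑ i, kc (cT N T (Ideal.span {up g N}) (thC θ)) (b i)
          (algebraMap (𝓞 K) (𝓞 N) χ₀ * t i) * (Ideal.absNorm (b i) : ℂ) ^ s * A' i s :=
      entire_eq (hdiff t A hA) (hdiff _ A' hA') fun s hs => by
        rw [hsum t hC A hAs s hs, hsum _ hC' A' hAs' s hs]
    have hS' : S = ∑ i, kc (cT N T (Ideal.span {up g N}) (thC θ)) (b i)
          (algebraMap (𝓞 K) (𝓞 N) χ₀ * t i) *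
          (Ideal.absNorm (b i) : ℂ) ^ (1 : ℂ) * A' i 1 := congrFun hL 1
    obtain ⟨s₀, hs₀, hcχ⟩ := c_chi hT hleB θ hχ0 hps hX
    obtain ⟨ζ, hζ⟩ : ∃ ζ : ℂ, ζ = embK (((θ s₀ : (𝓞 K)ˣ) : 𝓞 K) : K) := ⟨_, rfl⟩
    rw [← hζ] at hcχ
    have hτkk : ∀ i, τ (kc (cT N T (Ideal.span {up g N}) (thC θ)) (b i) (t i)) =
        kc (cT N T (Ideal.span {up g N}) (thC θ)) (b i) (t i) := by
      intro i
      obtain ⟨y, hy⟩ := kc_mem hcm (b i) (t i)
      rw [← hy, Rq.fx_K hτ]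
    have hsm : ∀ i, kc (cT N T (Ideal.span {up g N}) (thC θ)) (b i)
        (algebraMap (𝓞 K) (𝓞 N) χ₀ * t i) =
        ζ * kc (cT N T (Ideal.span {up g N}) (thC θ)) (b i) (t i) := by
      intro i
      rw [kc_smul hc hχ0 hps, hcχ]
    have e1 : S / (Om ^ (m + 1) * dt σ bb) =
        ∑ i, kc (cT N T (Ideal.span {up g N}) (thC θ)) (b i) (t i) *
        (Ideal.absNorm (b i) : ℂ) * (A i 1 / (Om ^ (m + 1) * dt σ bb)) := by
      rw [hS, Finset.sum_div]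
      refine Finset.sum_congr rfl fun i _ => ?_
      rw [Complex.cpow_one]
      ring
    have e2 : S / (Om ^ (m + 1) * dt σ bb) =
        ζ * ∑ i, kc (cT N T (Ideal.span {up g N}) (thC θ)) (b i) (t i) *
        (Ideal.absNorm (b i) : ℂ) * (A' i 1 / (Om ^ (m + 1) * dt σ bb)) := by
      rw [hS', Finset.sum_div, Finset.mul_sum]
      refine Finset.sum_congr rfl fun i _ => ?_
      rw [Complex.cpow_one, hsm i]
      ring
    have e3 : τ (S / (Om ^ (m + 1) * dt σ bb)) =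
        ∑ i, kc (cT N T (Ideal.span {up g N}) (thC θ)) (b i) (t i) *
        (Ideal.absNorm (b i) : ℂ) * (A' i 1 / (Om ^ (m + 1) * dt σ bb)) := by
      rw [e1, map_sum]
      refine Finset.sum_congr rfl fun i _ => ?_
      rw [map_mul, map_mul, hval i, hτkk i, map_natCast]
    have e4 : S / (Om ^ (m + 1) * dt σ bb) = ζ * τ (S / (Om ^ (m + 1) * dt σ bb)) := by
      rw [e3]
      exact e2
    rw [hn] at hs₀
    have e5 : τ (∏ i, e i u) = ζ * ∏ i, e i u := by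
      rw [hζ]
      exact prod_act hT hs hσ he hτ hM0 hμM hRl hs₀
    rw [map_mul, e5]
    calc τ (S / (Om ^ (m + 1) * dt σ bb)) * (ζ * ∏ i, e i u) =
        (ζ * τ (S / (Om ^ (m + 1) * dt σ bb))) * ∏ i, e i u := by ring
      _ = _ := by rw [← e4]
  obtain ⟨x, hx⟩ := Rg.mem_K hfix
  refine ⟨fun s : ℂ => ∑ i, kc (cT N T (Ideal.span {up g N}) (thC θ)) (b i) (t i) *
    (Ideal.absNorm (b i) : ℂ) ^ s * A i s, x, hdiff t A hA, hsum t hC A hAs, ?_⟩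
  show S * ∏ i, e i u = Om ^ (m + 1) * dt σ bb * embK x
  rw [hx, ← mul_assoc, mul_div_cancel₀ _ hΩ]

end Pool.Agent.Lib.MP_1a91b9_nuX.QW
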