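import Pool.Agent.Lib.MP_1a91b9_nuX.QW.Defs
import Pool.Agent.Lib.MP_1a91b9_nuI.Pe.PerV
import Pool.Agent.Lib.MP_1a91b9_nuT.PL.Val

/-!
# The finite part of the period of a curve with good reduction above `ℓ`

PROOFS. `X := cv a b` (any Weierstrass curve over `N` would do). Let `w v := Valued.v ((minChange X v).u)`, `normFactor X v = (absNorm v) ^ (-log (w v))`
(`rfl` / `unfold`), and `d v := Valued.v (algebraMap N (v.adicCompletion N) X.Δ)`, `≠ 0`.
(1) `fac_good`: at `v` with `GdA a b v` (`C₀`): `minModel X v = minChange X v • X_v` is minimal (`S9.minModel_isMinimal X v`), `exists_int_model` (TM/Main) for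
`C₀ • X_v`, and `CT.unit_min (C₀ • X_v) I hI hC₀.disc (minChange X v * C₀⁻¹) _` gives `Valued.v (minModel X v).Δ = 1` (exactly as in `good_ns` of
MP_1a91b9_nuX/TM/Main.lean). `variableChange_Δ`, `map_Δ`: `1 = (w v)⁻¹ ^ 12 * d v`, so `w v ^ 12 = d v` and
`normFactor X v ^ 12 = (absNorm v) ^ (-log (d v))` (`WithZero.log_pow`, `zpow_mul`; `w v ≠ 0`).
(2) `fac_cop`: if `(ℓ : 𝓞 N) ∉ v.asIdeal` then `absNorm v` is prime to `ℓ`: otherwise `ℓ ∣ absNorm v`, a power of the residue characteristic `p`, so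
`ℓ = p`, and `(p : 𝓞 N) ∈ v.asIdeal`. (Search the library for such a lemma, for example `PerV_absNorm` in MP_1a91b9_nuI/Pe/PerV.lean for the converse direction,
or: `Ideal.absNorm_mem`: `absNorm v ∈ v`; `𝓞 N ⧸ v` is a finite field of cardinality `absNorm v`; if `ℓ ∣ absNorm v` then by Cauchy there is an element of additive order
`ℓ`, so `ℓ = 0` in the field.) Hence `A.valuation ((absNorm v : ℂ) ^ i) = 1` for all integers `i` (`hA.nat`, `map_zpow₀`).
(3) `norm_fin`: for every `v`: `A.valuation (normFactor X v) ^ 12 = A.valuation ((absNorm v) ^ (-log (d v)))`: (1) at the places above `ℓ` (map `Complex.ofReal`), both `1`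
at the others. Finite supports: `supp_norm X h0` and `supp_val X.Δ h0` (MP_1a91b9_nuI/Pe/SupF.lean). Write both `finprod`s as products over one finite set `S`
(`finprod_eq_prod_of_mulSupport_subset`), `map_prod`, `Complex.ofReal_prod`, `Finset.prod_pow`. `∏ᶠ (absNorm v) ^ (-log (d v)) = |norm X.Δ|`: `prod_val X.Δ h0`
(exponent `log`, value `|norm|⁻¹`; inverse: `finprod_inv_distrib`, `zpow_neg`). `|x| = x` or `-x` (`abs_choice`), `Valuation.map_neg`.
(4) `nf_ne`: as `h0` in the proof of `prod_ratio` of MP_1a91b9_nuI/Pe/PerV.lean, or `MP_1a91b9_nuT3.S9.finprod_normFactor_ne`.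
-/

set_option autoImplicit false

namespace Pool.Agent.Lib.MP_1a91b9_nuX.QW

variable [Pool.Agent.Lib.MP_1a91b9_nuT.CD]

open NumberField IsDedekindDomain WeierstrassCurve WithZero Pool.Agent.Lib.MP_1a91b9_nuT
open Pool.Agent.Lib.MP_1a91b9_nuT.S9 (normFactor minChange minModel)
open Pool.Agent.Lib.MP_1a91b9_nuT.PL (Ab)
open Pool.Agent.Lib.MP_1a91b9_nuT.Per (cv)

variable {N : Type*} [Field N] [NumberField N]

theorem fac_good {a b : N} {v : HeightOneSpectrum (𝓞 N)} (h0 : (cv a b).Δ ≠ 0) (h : GdA a b v) :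
    normFactor (cv a b) v ^ 12 = (Ideal.absNorm v.asIdeal : ℝ) ^
      (-(WithZero.log (Valued.v (algebraMap N (v.adicCompletion N) (cv a b).Δ)))) := by
  obtain ⟨C₀, hC₀⟩ := h
  obtain ⟨I, hI⟩ := TM.exists_int_model hC₀
  have e : (minChange (cv a b) v * C₀⁻¹) • (C₀ • (cv a b).baseChange (v.adicCompletion N)) =
      minModel (cv a b) v := by
    rw [mul_smul, inv_smul_smul]
    rfl
  obtain ⟨h1, -⟩ := Pool.Agent.Lib.MP_1a91b9_nuT.CT.unit_min
    (C₀ • (cv a b).baseChange (v.adicCompletion N)) I hI hC₀.disc (minChange (cv a b) v * C₀⁻¹)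
    (by
      rw [e]
      exact Pool.Agent.Lib.MP_1a91b9_nuT.S9.minModel_isMinimal (cv a b) v)
  rw [e] at h1
  have h2 : (minModel (cv a b) v).Δ =
      (((minChange (cv a b) v).u⁻¹ : (v.adicCompletion N)ˣ) : v.adicCompletion N) ^ 12 *
        algebraMap N (v.adicCompletion N) (cv a b).Δ := by
    unfold Pool.Agent.Lib.MP_1a91b9_nuT.S9.minModel
    rw [variableChange_Δ]
    congr 1
    exact WeierstrassCurve.map_Δ _ _
  have hu : Valued.v ((minChange (cv a b) v).u : v.adicCompletion N) ≠ 0 :=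
    (Valuation.ne_zero_iff _).2 (minChange (cv a b) v).u.ne_zero
  have h3 : Valued.v (algebraMap N (v.adicCompletion N) (cv a b).Δ) =
      Valued.v ((minChange (cv a b) v).u : v.adicCompletion N) ^ 12 := by
    rw [h2, map_mul, map_pow, Units.val_inv_eq_inv_val, map_inv₀, inv_pow] at h1
    exact (eq_of_inv_mul_eq_one h1).symm
  rw [h3]
  unfold Pool.Agent.Lib.MP_1a91b9_nuT.S9.normFactor
  rw [← zpow_natCast, ← zpow_mul]
  congr 1
  rw [WithZero.log_pow]
  simp only [nsmul_eq_mul]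
  push_cast
  ring

omit [Pool.Agent.Lib.MP_1a91b9_nuT.CD] in
private theorem nfA_cop {ℓ : ℕ} (hℓ : ℓ.Prime) {v : HeightOneSpectrum (𝓞 N)}
    (hv : (ℓ : 𝓞 N) ∉ v.asIdeal) : (Ideal.absNorm v.asIdeal).Coprime ℓ := by
  by_contra hc
  have hdvd : ℓ ∣ Ideal.absNorm v.asIdeal := by
    by_contra hn
    exact hc ((Nat.Prime.coprime_iff_not_dvd hℓ).2 hn).symm
  have hN0 : Ideal.absNorm v.asIdeal ≠ 0 := by
    rw [Ne, Ideal.absNorm_eq_zero_iff]
    exact v.ne_bot
  obtain ⟨e, m, hm, hem⟩ := Nat.exists_eq_pow_mul_and_not_dvd hN0 ℓ hℓ.ne_one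
  have h1 : ((Ideal.absNorm v.asIdeal : ℕ) : 𝓞 N) ∈ v.asIdeal := Ideal.absNorm_mem _
  rw [hem, Nat.cast_mul, Nat.cast_pow] at h1
  have h2 : (m : 𝓞 N) ∈ v.asIdeal := by
    rcases v.isPrime.mem_or_mem h1 with h | h
    · exact absurd (v.isPrime.mem_of_pow_mem e h) hv
    · exact h
  have h3 : Ideal.absNorm v.asIdeal ∣ Ideal.absNorm (Ideal.span {(m : 𝓞 N)}) :=
    Ideal.absNorm_dvd_absNorm_of_le ((Ideal.span_singleton_le_iff_mem _).2 h2)
  rw [Ideal.absNorm_span_natCast] at h3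
  exact hm (hℓ.dvd_of_dvd_pow (hdvd.trans h3))

theorem fac_cop {ℓ : ℕ} (hℓ : ℓ.Prime) {A : ValuationSubring ℂ} (hA : Ab ℓ A)
    {v : HeightOneSpectrum (𝓞 N)} (hv : (ℓ : 𝓞 N) ∉ v.asIdeal) (i : ℤ) :
    A.valuation ((((Ideal.absNorm v.asIdeal : ℝ) ^ i : ℝ)) : ℂ) = 1 := by
  have h1 : ((((Ideal.absNorm v.asIdeal : ℝ) ^ i : ℝ)) : ℂ) = (Ideal.absNorm v.asIdeal : ℂ) ^ i := by
    push_cast
    rfl
  rw [h1, map_zpow₀, hA.nat (nfA_cop hℓ hv), one_zpow]

theorem norm_fin {a b : N} (h0 : (cv a b).Δ ≠ 0) {ℓ : ℕ} (hℓ : ℓ.Prime)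
    (hgood : ∀ v : HeightOneSpectrum (𝓞 N), (ℓ : 𝓞 N) ∈ v.asIdeal → GdA a b v)
    {A : ValuationSubring ℂ} (hA : Ab ℓ A) :
    A.valuation ((∏ᶠ v : HeightOneSpectrum (𝓞 N), normFactor (cv a b) v : ℝ) : ℂ) ^ 12 =
      A.valuation ((Algebra.norm ℚ (cv a b).Δ : ℚ) : ℂ) := by
  classical
  obtain ⟨g, hg⟩ : ∃ g : HeightOneSpectrum (𝓞 N) → ℝ, g = fun v =>
    (Ideal.absNorm v.asIdeal : ℝ) ^
      (-(WithZero.log (Valued.v (algebraMap N (v.adicCompletion N) (cv a b).Δ)))) := ⟨_, rfl⟩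
  have hsf := Pool.Agent.Lib.MP_1a91b9_nuI.supp_norm (cv a b) h0
  have hsg : (Function.mulSupport g).Finite := by
    refine (Pool.Agent.Lib.MP_1a91b9_nuI.supp_val (cv a b).Δ h0).subset fun v hv => ?_
    intro h
    apply hv
    rw [hg]
    show (Ideal.absNorm v.asIdeal : ℝ) ^
      (-(WithZero.log (Valued.v (algebraMap N (v.adicCompletion N) (cv a b).Δ)))) = 1
    rw [h, WithZero.log_one, neg_zero, zpow_zero]
  have hpt : ∀ v : HeightOneSpectrum (𝓞 N),
      A.valuation ((normFactor (cv a b) v : ℝ) : ℂ) ^ 12 = A.valuation ((g v : ℝ) : ℂ) := by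
    intro v
    by_cases hv : (ℓ : 𝓞 N) ∈ v.asIdeal
    · rw [← map_pow, ← Complex.ofReal_pow, fac_good h0 (hgood v hv), hg]
    · have h1 : A.valuation ((normFactor (cv a b) v : ℝ) : ℂ) = 1 := by
        unfold Pool.Agent.Lib.MP_1a91b9_nuT.S9.normFactor
        exact fac_cop hℓ hA hv _
      have h2 : A.valuation ((g v : ℝ) : ℂ) = 1 := by
        rw [hg]
        exact fac_cop hℓ hA hv _
      rw [h1, h2, one_pow]
  obtain ⟨S, hS⟩ : ∃ S : Finset (HeightOneSpectrum (𝓞 N)), S = hsf.toFinset ∪ hsg.toFinset :=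
    ⟨_, rfl⟩
  have hSf : Function.mulSupport (fun v => normFactor (cv a b) v) ⊆ ↑S := by
    intro v hv
    rw [hS, Finset.mem_coe, Finset.mem_union]
    exact Or.inl ((Set.Finite.mem_toFinset _).2 hv)
  have hSg : Function.mulSupport g ⊆ ↑S := by
    intro v hv
    rw [hS, Finset.mem_coe, Finset.mem_union]
    exact Or.inr ((Set.Finite.mem_toFinset _).2 hv)
  have hgn : ∏ᶠ v : HeightOneSpectrum (𝓞 N), g v = |(Algebra.norm ℚ (cv a b).Δ : ℝ)| := by
    have h1 := Pool.Agent.Lib.MP_1a91b9_nuI.prod_val (cv a b).Δ h0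
    have h2 : ∏ᶠ v : HeightOneSpectrum (𝓞 N), g v = (∏ᶠ v : HeightOneSpectrum (𝓞 N),
        (Ideal.absNorm v.asIdeal : ℝ) ^
        (WithZero.log (Valued.v (algebraMap N (v.adicCompletion N) (cv a b).Δ))))⁻¹ := by
      rw [← finprod_inv_distrib]
      refine finprod_congr fun v => ?_
      rw [hg]
      exact zpow_neg _ _
    rw [h2, h1, inv_inv]
  have hfin : A.valuation ((∏ᶠ v : HeightOneSpectrum (𝓞 N), normFactor (cv a b) v : ℝ) : ℂ) ^ 12 =
      A.valuation ((∏ᶠ v : HeightOneSpectrum (𝓞 N), g v : ℝ) : ℂ) := by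
    rw [finprod_eq_prod_of_mulSupport_subset _ hSf, finprod_eq_prod_of_mulSupport_subset _ hSg,
      Complex.ofReal_prod, Complex.ofReal_prod, map_prod, map_prod, ← Finset.prod_pow]
    exact Finset.prod_congr rfl fun v _ => hpt v
  rw [hfin, hgn]
  rcases abs_choice (Algebra.norm ℚ (cv a b).Δ : ℝ) with h | h
  · rw [h]
    congr 1
  · rw [h, Complex.ofReal_neg, Valuation.map_neg]
    congr 1

theorem nf_ne (W : WeierstrassCurve N) :
    ∏ᶠ v : HeightOneSpectrum (𝓞 N), normFactor W v ≠ 0 := by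
  have h0 : 0 < ∏ᶠ v : HeightOneSpectrum (𝓞 N), normFactor W v := by
    refine finprod_induction (fun x : ℝ => 0 < x) one_pos (fun _ _ hx hy => mul_pos hx hy) ?_
    intro v
    unfold Pool.Agent.Lib.MP_1a91b9_nuT.S9.normFactor
    refine zpow_pos ?_ _
    have : Ideal.absNorm v.asIdeal ≠ 0 := by
      rw [Ne, Ideal.absNorm_eq_zero_iff]
      exact v.ne_bot
    exact_mod_cast Nat.pos_of_ne_zero this
  exact h0.ne'

end Pool.Agent.Lib.MP_1a91b9_nuX.QW
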