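import Pool.Agent.Lib.MP_1a91b9_nuX.QW.Fib
import Pool.Agent.Lib.MP_1a91b9_nuX.QW.PerA
import Pool.Agent.Lib.MP_1a91b9_nuX.QW.Emb
import Pool.Agent.Lib.MP_1a91b9_nuX.LF.LfC
import Pool.Agent.Lib.MP_1a91b9_nuT.P.Ratio

/-!
# The product of the periods of a form over a field which contains `K`

PROOF. `TwC a b` (`twC_of`), `δ` of `exists_delta`. `N` is totally complex (`S4.totallyComplex_of_K`, see the use in `rat_K0` of
MP_1a91b9_nuX/RG/Fin.lean), so no `v` is real. For every `v` take `t` for `v.embedding` (`TwC`): `perAt (cv a b) v = sd * (‖Om‖ ^ 2 / ‖t‖ ^ 2)`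
(`perAt_complex`), `‖t‖ ^ 12 = ‖v.embedding δ‖ = v δ` (`exists_delta`, `InfinitePlace.norm_embedding_eq`), so
`perAt (cv a b) v ^ 6 * v δ = (sd * ‖Om‖ ^ 2) ^ 6` and `perAt (E N) v = sd * ‖Om‖ ^ 2` (`perAt_complex` with `t = 1`, `E N = cv (cA N) (cB N)` is
`rfl`). Product: `(∏ perAt (cv a b) v) ^ 6 * ∏ v δ = (∏ perAt (E N) v) ^ 6`.
`(∏ v, v δ) ^ 2 = |norm δ|`: `InfinitePlace.prod_eq_abs_norm` with `mult v = 2`. `(‖∏ e i u‖ ^ 12) ^ 2 = ‖∏ i, σ i δ‖ ^ 2 = |norm δ|`: `(e i u) ^ 12 = e i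
(algebraMap N L δ) = σ i δ` (`exists_delta` for `φ := σ i`, `t := e i u`: `σ i a = e i (algebraMap N L a) = A (e i u) ^ 4`), `prod_normK`,
`norm_tower`. Both are nonnegative: `‖∏ e i u‖ ^ 12 = ∏ v, v δ` (`pow_left_injective` / `pow_left_inj₀`). So
`(∏ perAt (cv a b) v * ‖∏ e i u‖ ^ 2) ^ 6 = (∏ perAt (E N) v) ^ 6`, both nonnegative (`prod_pos`, `Per.prod_perAt_pos`).
-/

set_option autoImplicit false

namespace Pool.Agent.Lib.MP_1a91b9_nuX.QW

variable [Pool.Agent.Lib.MP_1a91b9_nuT.CD]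

open NumberField Pool.Agent.Lib.MP_1a91b9_nuT
open Pool.Agent.Lib.MP_1a91b9_nuT.Per (cv perAt perR perC)

theorem prod_K {N L : Type} [Field N] [NumberField N] [Algebra K N] [Field L] [NumberField L]
    [Algebra K L] [Algebra N L] [IsScalarTower K N L] {a b : N} {u : L} (hu : u ≠ 0)
    (ha : algebraMap N L a = (CD.A : L) * u ^ 4) (hb : algebraMap N L b = (CD.B : L) * u ^ 6)
    {m : ℕ} {σ : Fin (m + 1) → (N →ₐ[K] ℂ)} (hσ : Function.Bijective σ)
    {e : Fin (m + 1) → (L →ₐ[K] ℂ)} (he : ∀ i x, e i (algebraMap N L x) = σ i x) :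
    (∏ v : InfinitePlace N, perAt (cv a b) v) * ‖∏ i, e i u‖ ^ 2 =
      ∏ v : InfinitePlace N, perAt (E N) v := by
  have hTw : TwC a b := twC_of hu ha hb
  obtain ⟨δ, -, -, hδ⟩ := exists_delta hTw
  have hcx : ∀ v : InfinitePlace N, ¬ v.IsReal := by
    intro v
    have h3 : IsTotallyComplex N := S4.totallyComplex_of_K
    exact InfinitePlace.not_isReal_iff_isComplex.2 (IsTotallyComplex.isComplex v)
  have hv1 : ∀ v : InfinitePlace N, perAt (cv a b) v ^ 6 * v δ = perAt (E N) v ^ 6 := by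
    intro v
    obtain ⟨t, ht, hta, htb⟩ := hTw v.embedding
    have h1 := hδ v.embedding t hta htb
    have h2 : v δ = ‖t‖ ^ 12 := by
      rw [← InfinitePlace.norm_embedding_eq, h1, norm_pow]
    have h3 : perAt (E N) v = sd * ‖Om‖ ^ 2 :=
      Per.perAt_cv_complex Per.CR.base_real (hcx v)
    have h4 : ‖t‖ ≠ 0 := norm_ne_zero_iff.2 ht
    rw [perAt_complex (hcx v) ht hta htb, h2, h3]
    field_simp
  obtain ⟨D, hD⟩ : ∃ D : ℝ, D = ∏ v : InfinitePlace N, v δ := ⟨_, rfl⟩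
  obtain ⟨w, hw⟩ : ∃ w : ℝ, w = ‖∏ i, e i u‖ := ⟨_, rfl⟩
  have hD0 : 0 ≤ D := by
    rw [hD]
    exact Finset.prod_nonneg fun v _ => apply_nonneg v δ
  have hw0 : 0 ≤ w := by
    rw [hw]
    exact norm_nonneg _
  have h1 : (∏ v : InfinitePlace N, perAt (cv a b) v) ^ 6 * D =
      (∏ v : InfinitePlace N, perAt (E N) v) ^ 6 := by
    rw [hD, ← Finset.prod_pow, ← Finset.prod_pow, ← Finset.prod_mul_distrib]
    exact Finset.prod_congr rfl fun v _ => hv1 v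
  have h2 : D ^ 2 = |((Algebra.norm ℚ δ : ℚ) : ℝ)| := by
    have h3 := InfinitePlace.prod_eq_abs_norm δ
    rw [Rat.cast_abs] at h3
    rw [← h3, hD, ← Finset.prod_pow]
    refine Finset.prod_congr rfl fun v _ => ?_
    rw [InfinitePlace.mult, if_neg (hcx v)]
  have h4 : ∀ i, σ i δ = (e i u) ^ 12 := by
    intro i
    refine hδ ((σ i : N →ₐ[K] ℂ) : N →+* ℂ) (e i u) ?_ ?_
    · change σ i a = _
      rw [← he, ha, map_mul, map_pow, map_intCast]
    · change σ i b = _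
      rw [← he, hb, map_mul, map_pow, map_intCast]
  have h5 : D ^ 2 = (w ^ 12) ^ 2 := by
    rw [h2, norm_tower, ← prod_normK hσ, hw, Finset.prod_congr rfl fun i _ => h4 i,
      Finset.prod_pow, norm_pow]
  have h6 : D = w ^ 12 := (pow_left_inj₀ hD0 (pow_nonneg hw0 12) two_ne_zero).1 h5
  have h7 := prod_pos hTw
  have h8 := Per.prod_perAt_pos N
  rw [← hw]
  refine (pow_left_inj₀ (mul_nonneg h7.le (pow_nonneg hw0 2)) h8.le (n := 6) (by norm_num)).1 ?_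
  rw [← h1, h6, mul_pow, ← pow_mul]

end Pool.Agent.Lib.MP_1a91b9_nuX.QW
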