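import Pool.Agent.Lib.MP_1a91b9_nuX.QW.Fib
import Pool.Agent.Lib.MP_1a91b9_nuX.QW.PerA
import Pool.Agent.Lib.MP_1a91b9_nuX.QW.Emb
import Pool.Agent.Lib.MP_1a91b9_nuX.QW.ScB
import Pool.Agent.Lib.MP_1a91b9_nuT.Rq.Fin

/-!
# The product of the periods of a form over a field `N` and the product of the conjugates of `u`

PROOF. (2) `fib_real`: `perAt_real` for `(a, b, t)` and for `(cA N, cB N, 1)` (`E N = cv (cA N) (cB N)` is `rfl`; `v.embedding (cA N) = A`: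
`map_intCast`): `perAt (E N) v = k₁ Om embK y₁`, `perAt (cv a b) v = k₂ (Om / t) embK y₂`, so `perAt (E N) v = (k₁ y₁ / (k₂ y₂)) * t * perAt (cv a b) v`.
(3) `fib_complex`: `perAt_complex`: `perAt (E N) v = ‖t‖ ^ 2 * perAt (cv a b) v`, `‖t‖ ^ 2 = t * conj t` (`Complex.mul_conj`,
`Complex.normSq_eq_norm_sq`), `conj t = embK x * t'` by `unit_quot` (ScB): `A (conj t) ^ 4 = conj (v.embedding a) =
(ComplexEmbedding.conjugate v.embedding) a = A t' ^ 4`.
(4) `prod_N`: let `ρ : Fin (m + 1) ≃ (N →+* ℂ)` be the bijection `bij_emb` (`Equiv.ofBijective`), `tt φ := e (ρ.symm φ) u`. Then for every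
`φ : N →+* ℂ`: `tt φ ≠ 0`, `φ a = A (tt φ) ^ 4`, `φ b = B (tt φ) ^ 6` (`he`, `ha`, `hb`). `∏ i, e i u = ∏ φ, tt φ` (`Equiv.prod_comp`)
`= ∏ v, (if v.IsReal then .. else ..)` (`prod_fib`). For every `v` the numbers `perAt (E N) v` and
`(if v.IsReal then tt v.embedding else tt v.embedding * tt (conjugate v.embedding)) * perAt (cv a b) v` differ by a factor `embK z` (2), (3). Choose the `z v`,
take the product (`Finset.prod_mul_distrib`, `map_prod`, `Complex.ofReal_prod`).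
-/

set_option autoImplicit false

namespace Pool.Agent.Lib.MP_1a91b9_nuX.QW

variable [Pool.Agent.Lib.MP_1a91b9_nuT.CD]

open NumberField Pool.Agent.Lib.MP_1a91b9_nuT
open Pool.Agent.Lib.MP_1a91b9_nuT.Per (cv perAt perR perC)

section
variable {N : Type*} [Field N] {a b : N} {v : InfinitePlace N} {t t' : ℂ}

theorem fib_real (hv : v.IsReal) (ht : t ≠ 0) (ha : v.embedding a = (CD.A : ℂ) * t ^ 4)
    (hb : v.embedding b = (CD.B : ℂ) * t ^ 6) :
    ∃ z : K, ((perAt (E N) v : ℝ) : ℂ) = embK z * (t * ((perAt (cv a b) v : ℝ) : ℂ)) := by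
  have hA : v.embedding (cA N) = (CD.A : ℂ) * 1 ^ 4 := by
    rw [one_pow, mul_one]
    exact map_intCast v.embedding CD.A
  have hB : v.embedding (cB N) = (CD.B : ℂ) * 1 ^ 6 := by
    rw [one_pow, mul_one]
    exact map_intCast v.embedding CD.B
  obtain ⟨-, k₁, y₁, -, -, h1, -⟩ := perAt_real hv one_ne_zero hA hB
  obtain ⟨-, k₂, y₂, hk₂, hy₂, h2, -⟩ := perAt_real hv ht ha hb
  have h1' : ((perAt (E N) v : ℝ) : ℂ) = k₁ * (Om / 1 * embK (y₁ : K)) := h1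
  have hk0 : (k₂ : ℂ) ≠ 0 := by
    rcases hk₂ with rfl | rfl
    · norm_num
    · norm_num
  have hy0 : embK (y₂ : K) ≠ 0 := (map_ne_zero _).2 (RingOfIntegers.coe_ne_zero_iff.2 hy₂)
  refine ⟨((k₁ : K) * (y₁ : K)) / ((k₂ : K) * (y₂ : K)), ?_⟩
  rw [h1', h2, map_div₀, map_mul, map_mul, map_natCast, map_natCast]
  field_simp

theorem fib_complex (hv : ¬ v.IsReal) (ht : t ≠ 0) (ha : v.embedding a = (CD.A : ℂ) * t ^ 4)
    (hb : v.embedding b = (CD.B : ℂ) * t ^ 6) (ht' : t' ≠ 0)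
    (ha' : ComplexEmbedding.conjugate v.embedding a = (CD.A : ℂ) * t' ^ 4)
    (hb' : ComplexEmbedding.conjugate v.embedding b = (CD.B : ℂ) * t' ^ 6) :
    ∃ z : K, ((perAt (E N) v : ℝ) : ℂ) =
      embK z * (t * t' * ((perAt (cv a b) v : ℝ) : ℂ)) := by
  have hA : v.embedding (cA N) = (CD.A : ℂ) * 1 ^ 4 := by
    rw [one_pow, mul_one]
    exact map_intCast v.embedding CD.A
  have hB : v.embedding (cB N) = (CD.B : ℂ) * 1 ^ 6 := by
    rw [one_pow, mul_one]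
    exact map_intCast v.embedding CD.B
  have h1 : perAt (E N) v = sd * (‖Om‖ ^ 2 / ‖(1 : ℂ)‖ ^ 2) := perAt_complex hv one_ne_zero hA hB
  have h2 := perAt_complex hv ht ha hb
  have hct : (starRingEnd ℂ) t ≠ 0 := (map_ne_zero _).2 ht
  have e1 : (CD.A : ℂ) * (starRingEnd ℂ) t ^ 4 = (CD.A : ℂ) * t' ^ 4 := by
    rw [← ha', ComplexEmbedding.conjugate_coe_eq, ha, map_mul, map_pow, map_intCast]
  have e2 : (CD.B : ℂ) * (starRingEnd ℂ) t ^ 6 = (CD.B : ℂ) * t' ^ 6 := by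
    rw [← hb', ComplexEmbedding.conjugate_coe_eq, hb, map_mul, map_pow, map_intCast]
  obtain ⟨x, hx⟩ := unit_quot ht' hct e1 e2
  refine ⟨((x : 𝓞 K) : K), ?_⟩
  have hn0 : ‖t‖ ^ 2 ≠ 0 := pow_ne_zero 2 (norm_ne_zero_iff.2 ht)
  have h3 : perAt (E N) v = ‖t‖ ^ 2 * perAt (cv a b) v := by
    rw [h1, h2, norm_one]
    field_simp
  have h4 : ((‖t‖ ^ 2 : ℝ) : ℂ) = t * (starRingEnd ℂ) t := by
    rw [Complex.mul_conj, Complex.normSq_eq_norm_sq]
  rw [h3, Complex.ofReal_mul, h4, hx]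
  ring

end

theorem prod_N {N F L : Type} [Field N] [NumberField N] [Field F] [NumberField F] [Field L]
    [NumberField L] [Algebra N F] [Algebra K F] [Algebra K L] [Algebra F L] [IsScalarTower K F L]
    (hL : Module.finrank N F = 2) (hn : ∀ x : N, algebraMap N F x ≠ algebraMap K F om)
    {a b : N} {u : L} (hu : u ≠ 0)
    (ha : algebraMap F L (algebraMap N F a) = (CD.A : L) * u ^ 4)
    (hb : algebraMap F L (algebraMap N F b) = (CD.B : L) * u ^ 6)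
    {m : ℕ} {σ : Fin (m + 1) → (F →ₐ[K] ℂ)} (hσ : Function.Bijective σ)
    {e : Fin (m + 1) → (L →ₐ[K] ℂ)} (he : ∀ i x, e i (algebraMap F L x) = σ i x) :
    ∃ z : K, ((∏ v : InfinitePlace N, perAt (E N) v : ℝ) : ℂ) =
      embK z * (∏ i, e i u) * ((∏ v : InfinitePlace N, perAt (cv a b) v : ℝ) : ℂ) := by
  obtain ⟨ρ, hρ⟩ : ∃ ρ : Fin (m + 1) ≃ (N →+* ℂ), ∀ i (x : N), ρ i x = σ i (algebraMap N F x) :=
    ⟨Equiv.ofBijective _ (bij_emb hL hn hσ), fun i x => rfl⟩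
  obtain ⟨tt, htt⟩ : ∃ tt : (N →+* ℂ) → ℂ, ∀ φ, tt φ = e (ρ.symm φ) u := ⟨_, fun φ => rfl⟩
  have hφ : ∀ (φ : N →+* ℂ) (x : N), φ x = e (ρ.symm φ) (algebraMap F L (algebraMap N F x)) := by
    intro φ x
    rw [he, ← hρ, ρ.apply_symm_apply]
  have hne : ∀ φ, tt φ ≠ 0 := by
    intro φ
    rw [htt]
    exact (map_ne_zero _).2 hu
  have hφa : ∀ φ : N →+* ℂ, φ a = (CD.A : ℂ) * tt φ ^ 4 := by
    intro φ
    rw [hφ, ha, map_mul, map_pow, map_intCast, htt]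
  have hφb : ∀ φ : N →+* ℂ, φ b = (CD.B : ℂ) * tt φ ^ 6 := by
    intro φ
    rw [hφ, hb, map_mul, map_pow, map_intCast, htt]
  obtain ⟨g, hg0, hg1, hg2⟩ : ∃ g : InfinitePlace N → ℂ, (∏ φ, tt φ = ∏ v, g v) ∧
      (∀ v : InfinitePlace N, v.IsReal → g v = tt v.embedding) ∧
      ∀ v : InfinitePlace N, ¬ v.IsReal →
        g v = tt v.embedding * tt (ComplexEmbedding.conjugate v.embedding) :=
    ⟨_, prod_fib tt, fun v hv => if_pos hv, fun v hv => if_neg hv⟩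
  have hz : ∀ v : InfinitePlace N, ∃ z : K, ((perAt (E N) v : ℝ) : ℂ) =
      embK z * (g v * ((perAt (cv a b) v : ℝ) : ℂ)) := by
    intro v
    by_cases hv : v.IsReal
    · rw [hg1 v hv]
      exact fib_real hv (hne _) (hφa _) (hφb _)
    · rw [hg2 v hv]
      exact fib_complex hv (hne _) (hφa _) (hφb _) (hne _) (hφa _) (hφb _)
  choose z hz using hz
  have h1 : ∏ i, e i u = ∏ v, g v := by
    rw [← hg0, ← Equiv.prod_comp ρ tt]
    refine Finset.prod_congr rfl fun i _ => ?_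
    rw [htt, ρ.symm_apply_apply]
  refine ⟨∏ v, z v, ?_⟩
  rw [h1, map_prod, Complex.ofReal_prod, Complex.ofReal_prod, mul_assoc, ← Finset.prod_mul_distrib,
    ← Finset.prod_mul_distrib]
  exact Finset.prod_congr rfl fun v _ => hz v

end Pool.Agent.Lib.MP_1a91b9_nuX.QW
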