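import Pool.Agent.Lib.MP_1a91b9_nuX.QW.Defs
import Pool.Agent.Lib.MP_1a91b9_nuX.RG.Un

/-!
# The coefficients of the classes with a ray class character

PROOFS.
(1) `cT_ne`: `TC.cT_of`, `Units.ne_zero`. `cT_mem`: if `I` is coprime to `m`: `TC.cT_of`, `thC_apply`; otherwise `0`.
(2) `rc_span`: `h.ray` with `RayEq m (span {r}) (span {t}) := ⟨1, r, t, one_ne_zero, hr0, ht0, mul_one _, mul_one _, _⟩`. `t ≠ 0`:
`IsCoprime (span {0}) m` says `m = 1` (`Ideal.span_singleton_zero`, `← Ideal.zero_eq_bot`, `isCoprime_zero_left`,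
`Ideal.isUnit_iff`, `Ideal.one_eq_top`). `r ≠ 0`: otherwise `t ∈ m` (`-t = r - t`), so `span {t} ≤ m`, and
`IsCoprime (span {t}) m` gives `m = ⊤` (`Ideal.isCoprime_iff_sup_eq`, `sup_eq_right`).
(3) `kc_mem`: `RG.kk_mem`, `hc`, `map_mul`, `map_div₀`. `kc_smul`: `RG.kk_smul`,
`← Ideal.span_singleton_mul_span_singleton`, `hc.mul`, `ring` / `mul_div_assoc`.
(4) `c_chi`: `I = span {algebraMap (𝓞 K) (𝓞 N) χ}`, `s := TC.art N T I`. `I ≠ 0` (`χ ≠ 0`,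
`FaithfulSMul.algebraMap_injective (𝓞 K) (𝓞 N)`), `TC.exists_art hT hm I hI0 hI` and `TC.art_spec` give
`ga s T = sm L (psi N I) T`; `psi N I = χ ^ finrank K N`: this is `hn` in the proof of `kk_smul` of MP_1a91b9_nuX/RG/Un.lean
(`Un_nK` is private there: copy it with the name `ray_nK`). `TC.cT_of`, `thC_apply` for the value.
-/

set_option autoImplicit false

namespace Pool.Agent.Lib.MP_1a91b9_nuX.QW

variable [Pool.Agent.Lib.MP_1a91b9_nuT.CD]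

open NumberField IsDedekindDomain Pool.Agent.Lib.MP_1a91b9_nt Pool.Agent.Lib.MP_1a91b9_nuT
  Pool.Agent.Lib.MP_1a91b9_nuT.S4
open Pool.Agent.Lib.MP_1a91b9_nuX.DB
open Pool.Agent.Lib.MP_1a91b9_nuG (up)
open Pool.Agent.Lib.MP_1a91b9_nuX.TC (RC cT)
open Pool.Agent.Lib.MP_1a91b9_nuX.TG (AbT gB)

universe u

section
variable {F : Type*} [Field F] [NumberField F]

theorem rc_span {m : Ideal (𝓞 F)} {c : Ideal (𝓞 F) → ℂ} (h : RC m c) (hm1 : m ≠ 1) {t r : 𝓞 F}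
    (ht : IsCoprime (Ideal.span {t}) m) (hr : r - t ∈ m) :
    c (Ideal.span {r}) = c (Ideal.span {t}) := by
  have ht0 : t ≠ 0 := by
    intro h0
    rw [h0, Ideal.span_singleton_zero, ← Ideal.zero_eq_bot, isCoprime_zero_left,
      Ideal.isUnit_iff] at ht
    exact hm1 (by rw [ht, Ideal.one_eq_top])
  have hr0 : r ≠ 0 := by
    intro h0
    rw [h0, zero_sub, neg_mem_iff] at hr
    have h1 : Ideal.span {t} ≤ m := (Ideal.span_singleton_le_iff_mem m).2 hr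
    rw [Ideal.isCoprime_iff_sup_eq, sup_eq_right.2 h1] at ht
    exact hm1 (by rw [ht, Ideal.one_eq_top])
  exact h.ray _ _ ⟨1, r, t, one_ne_zero, hr0, ht0, mul_one _, mul_one _, by rwa [mul_one]⟩

end

variable [HC]

section
variable {F : Type u} [Field F] [NumberField F] [Algebra K F] {m : Ideal (𝓞 F)}
  {c : Ideal (𝓞 F) → ℂ}

theorem kc_mem (hc : ∀ I : Ideal (𝓞 F), ∃ y : K, embK y = c I) (b : Ideal (𝓞 F)) (t : 𝓞 F) :
    ∃ y : K, embK y = kc c b t := by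
  obtain ⟨y1, h1⟩ := RG.kk_mem b t
  obtain ⟨y2, h2⟩ := hc (Ideal.span {t})
  obtain ⟨y3, h3⟩ := hc b
  refine ⟨y1 * (y2 / y3), ?_⟩
  rw [kc, map_mul, map_div₀, h1, h2, h3]

theorem kc_smul (hc : RC m c) {χ : 𝓞 K} (hχ0 : χ ≠ 0) (hu : ps (Ideal.span {χ}) = χ)
    (b : Ideal (𝓞 F)) (t : 𝓞 F) : kc c b (algebraMap (𝓞 K) (𝓞 F) χ * t) =
      c (Ideal.span {algebraMap (𝓞 K) (𝓞 F) χ}) * kc c b t := by
  rw [kc, kc, RG.kk_smul hχ0 hu b t, ← Ideal.span_singleton_mul_span_singleton, hc.mul]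
  ring

end

section
variable {μ : 𝓞 K} {N L : Type u} [Field N] [NumberField N] [Algebra K N]
  [Field L] [NumberField L] [Algebra K L]
  [Algebra N L] [IsScalarTower K N L] [DecidableEq L] {T : Pt L}

omit [HC] in
private theorem ray_nK (χ : 𝓞 K) :
    nK (algebraMap (𝓞 K) (𝓞 N) χ) = χ ^ Module.finrank K N := by
  apply RingOfIntegers.coe_injective
  refine (nK_coe (algebraMap (𝓞 K) (𝓞 N) χ)).trans ?_
  have h1 : ((algebraMap (𝓞 K) (𝓞 N) χ : 𝓞 N) : N) = algebraMap K N (χ : K) := rfl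
  rw [h1, Algebra.norm_algebraMap, map_pow]

theorem cT_ne {m : Ideal (𝓞 N)} (θ : Gal(L/N) →* ℂˣ) {I : Ideal (𝓞 N)} (hI : IsCoprime I m) :
    cT N T m θ I ≠ 0 := by
  rw [TC.cT_of hI]
  exact Units.ne_zero _

theorem cT_mem (m : Ideal (𝓞 N)) (θ : Gal(L/N) →* (𝓞 K)ˣ) (I : Ideal (𝓞 N)) :
    ∃ y : K, embK y = cT N T m (thC θ) I := by
  by_cases hI : IsCoprime I m
  · exact ⟨_, by rw [TC.cT_of hI, thC_apply]⟩
  · exact ⟨0, by rw [TC.cT_of_not hI, map_zero]⟩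

theorem c_chi [IsGalois N L] (hT : AbT μ N T) {m : Ideal (𝓞 N)}
    (hm : m ≤ Ideal.span {up (gB μ) N}) (θ : Gal(L/N) →* (𝓞 K)ˣ) {χ : 𝓞 K} (hχ0 : χ ≠ 0)
    (hps : ps (Ideal.span {χ}) = χ)
    (hcop : IsCoprime (Ideal.span {algebraMap (𝓞 K) (𝓞 N) χ}) m) :
    ∃ s : Gal(L/N), ga s T = sm L (χ ^ Module.finrank K N) T ∧
      cT N T m (thC θ) (Ideal.span {algebraMap (𝓞 K) (𝓞 N) χ}) =
        embK (((θ s : (𝓞 K)ˣ) : 𝓞 K) : K) := by
  have hI0 : Ideal.span {algebraMap (𝓞 K) (𝓞 N) χ} ≠ 0 := by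
    rw [Ideal.zero_eq_bot, Ne, Ideal.span_singleton_eq_bot]
    intro h
    exact hχ0 ((map_eq_zero_iff _ (FaithfulSMul.algebraMap_injective (𝓞 K) (𝓞 N))).1 h)
  have hn : psi N (Ideal.span {algebraMap (𝓞 K) (𝓞 N) χ}) = χ ^ Module.finrank K N := by
    rw [psi, relNorm_span, ray_nK, ← Ideal.span_singleton_pow, ps_pow, hps]
  refine ⟨TC.art N T (Ideal.span {algebraMap (𝓞 K) (𝓞 N) χ}), ?_, ?_⟩
  · rw [TC.art_spec (TC.exists_art hT hm _ hI0 hcop), hn]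
  · rw [TC.cT_of hcop, thC_apply]

end

end Pool.Agent.Lib.MP_1a91b9_nuX.QW
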